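import Pool.Agent.Helper47.Arms.Tool

/-!
The dual configuration of a finite configuration, duality and separation in boxes.
-/

set_option autoImplicit false

namespace H47Perc.Arms
open Finset SimpleGraph H47Perc
open Pool.Agent.Helper69.RSW (P P_flip P_map P_congr)

/-- the dual edge of an edge of the square lattice -/
def dI : Sym2 (ℤ × ℤ) → Sym2 (ℤ × ℤ) :=
  Sym2.lift ⟨fun f g => if f.1 = g.1 then s((f.1 - 1, min f.2 g.2), (f.1, min f.2 g.2)) else
    if f.2 = g.2 then s((min f.1 g.1, f.2 - 1), (min f.1 g.1, f.2)) else s(f, g), by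
    intro f g
    by_cases h1 : f.1 = g.1
    · simp only [h1, if_true, min_comm]
    · by_cases h2 : f.2 = g.2
      · simp only [if_neg h1, if_neg (Ne.symm h1), h2, if_true, min_comm]
      · simp only [if_neg h1, if_neg (Ne.symm h1), if_neg h2, if_neg (Ne.symm h2), Sym2.eq_swap]⟩

lemma dI_hE (i j : ℤ) : dI (hE i j) = vE i (j - 1) := by
  unfold hE vE dI
  rw [Sym2.lift_mk]
  simp

lemma dI_vE (i j : ℤ) : dI (vE i j) = hE (i - 1) j := by
  unfold hE vE dI
  rw [Sym2.lift_mk]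
  simp

lemma hE_adj (i j : ℤ) : lattice.Adj (i, j) (i + 1, j) := by right; simp
lemma vE_adj (i j : ℤ) : lattice.Adj (i, j) (i, j + 1) := by left; simp

/-- every edge of the lattice is horizontal or vertical -/
lemma lat_cases {u v : ℤ × ℤ} (h : lattice.Adj u v) :
    (∃ i j, s(u, v) = hE i j) ∨ (∃ i j, s(u, v) = vE i j) := by
  obtain ⟨u1, u2⟩ := u
  obtain ⟨v1, v2⟩ := v
  have := edge_cases h
  simp only at this
  rcases this with ⟨h1, h2 | h2⟩ | ⟨h1, h2 | h2⟩
  · right; exact ⟨u1, v2, by rw [h1, h2, vE, Sym2.eq_swap]⟩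
  · right; exact ⟨u1, u2, by rw [← h1, h2, vE]⟩
  · left; exact ⟨v1, u2, by rw [← h1, h2, hE, Sym2.eq_swap]⟩
  · left; exact ⟨u1, u2, by rw [← h1, h2, hE]⟩

lemma hE_inj {i j i' j' : ℤ} (h : hE i j = hE i' j') : i = i' ∧ j = j' :=
  (hor_eq_iff _ _ _ _).1 h

lemma vE_inj {i j i' j' : ℤ} (h : vE i j = vE i' j') : i = i' ∧ j = j' :=
  (vert_eq_iff _ _ _ _).1 h

lemma hE_ne (i j i' j' : ℤ) : hE i j ≠ vE i' j' := hor_ne_vert _ _ _ _

/-- the dual of an edge crosses it -/
lemma dI_eq_iff {f g : ℤ × ℤ} (h : lattice.Adj f g) {u v : ℤ × ℤ} (h' : lattice.Adj u v) :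
    dI s(u, v) = s(f, g) ↔ crossEdge f g = s(u, v) := by
  have ch : ∀ i j, s(f, g) = hE i j → crossEdge f g = vE (i + 1) j := by
    intro i j hij
    unfold hE at hij
    rw [Sym2.eq_iff] at hij
    rcases hij with ⟨rfl, rfl⟩ | ⟨rfl, rfl⟩
    · unfold crossEdge vE; simp
    · unfold crossEdge vE; simp
  have cv : ∀ i j, s(f, g) = vE i j → crossEdge f g = hE i (j + 1) := by
    intro i j hij
    unfold vE at hij
    rw [Sym2.eq_iff] at hij
    rcases hij with ⟨rfl, rfl⟩ | ⟨rfl, rfl⟩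
    · unfold crossEdge hE; simp
    · unfold crossEdge hE; simp
  rcases lat_cases h with ⟨i, j, e1⟩ | ⟨i, j, e1⟩ <;>
  rcases lat_cases h' with ⟨i', j', e2⟩ | ⟨i', j', e2⟩
  · rw [ch i j e1, e1, e2, dI_hE]
    constructor
    · intro h; exact absurd h.symm (hE_ne _ _ _ _)
    · intro h; exact absurd h.symm (hE_ne _ _ _ _)
  · rw [ch i j e1, e1, e2, dI_vE]
    constructor
    · intro h
      obtain ⟨h1, h2⟩ := hE_inj h
      rw [show i + 1 = i' by omega, h2]
    · intro h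
      obtain ⟨h1, h2⟩ := vE_inj h
      rw [show i' - 1 = i by omega, h2]
  · rw [cv i j e1, e1, e2, dI_hE]
    constructor
    · intro h
      obtain ⟨h1, h2⟩ := vE_inj h
      rw [h1, show j + 1 = j' by omega]
    · intro h
      obtain ⟨h1, h2⟩ := hE_inj h
      rw [h1, show j' - 1 = j by omega]
  · rw [cv i j e1, e1, e2, dI_vE]
    constructor
    · intro h; exact absurd h (hE_ne _ _ _ _)
    · intro h; exact absurd h (hE_ne _ _ _ _)

lemma dI_adj {u v f g : ℤ × ℤ} (h' : lattice.Adj u v) (h : dI s(u, v) = s(f, g)) :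
    lattice.Adj f g := by
  rcases lat_cases h' with ⟨i, j, e⟩ | ⟨i, j, e⟩
  · rw [e, dI_hE, vE, Sym2.eq_iff] at h
    rcases h with ⟨rfl, rfl⟩ | ⟨rfl, rfl⟩
    · exact vE_adj _ _
    · exact (vE_adj _ _).symm
  · rw [e, dI_vE, hE, Sym2.eq_iff] at h
    rcases h with ⟨rfl, rfl⟩ | ⟨rfl, rfl⟩
    · exact hE_adj _ _
    · exact (hE_adj _ _).symm

/-- the dual open edges -/
def du (F ω : Finset (Sym2 (ℤ × ℤ))) : Finset (Sym2 (ℤ × ℤ)) := (F \ ω).image dI

lemma mem_edgesIn_lattice {S : Finset (ℤ × ℤ)} {e : Sym2 (ℤ × ℤ)} (h : e ∈ edgesIn S) :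
    e ∈ lattice.edgeSet := by
  induction e using Sym2.ind with
  | _ u v => exact (mem_edgesIn.1 h).2.2

/-- membership in the dual configuration -/
lemma mem_du {F ω : Finset (Sym2 (ℤ × ℤ))} (hF : ∀ e ∈ F, e ∈ lattice.edgeSet) {f g : ℤ × ℤ} :
    s(f, g) ∈ du F ω ↔ lattice.Adj f g ∧ crossEdge f g ∈ F ∧ crossEdge f g ∉ ω := by
  unfold du
  rw [mem_image]
  constructor
  · rintro ⟨e, he, h⟩
    rw [mem_sdiff] at he
    induction e using Sym2.ind with
    | _ u v =>
      have hl : lattice.Adj u v := hF _ he.1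
      have ha := dI_adj hl h
      rw [dI_eq_iff ha hl] at h
      rw [h]
      exact ⟨ha, he⟩
  · rintro ⟨h1, h2, h3⟩
    refine ⟨crossEdge f g, mem_sdiff.2 ⟨h2, h3⟩, ?_⟩
    obtain ⟨u, v, huv⟩ : ∃ u v, crossEdge f g = s(u, v) := by
      induction crossEdge f g using Sym2.ind with
      | _ u v => exact ⟨u, v, rfl⟩
    have hl : lattice.Adj u v := by have := hF _ h2; rwa [huv] at this
    rw [huv, dI_eq_iff h1 hl, huv]

lemma du_lattice {F ω : Finset (Sym2 (ℤ × ℤ))} (hF : ∀ e ∈ F, e ∈ lattice.edgeSet) :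
    ∀ e ∈ du F ω, e ∈ lattice.edgeSet := by
  intro e he
  induction e using Sym2.ind with
  | _ f g => exact ((mem_du hF).1 he).1

lemma dI_injOn {F : Finset (Sym2 (ℤ × ℤ))} (hF : ∀ e ∈ F, e ∈ lattice.edgeSet) :
    Set.InjOn dI F := by
  intro e he e' he' h
  induction e using Sym2.ind with
  | _ u v =>
  induction e' using Sym2.ind with
  | _ u' v' =>
    have h1 : lattice.Adj u v := hF _ (mem_coe.1 he)
    have h2 : lattice.Adj u' v' := hF _ (mem_coe.1 he')
    obtain ⟨f, g, hfg⟩ : ∃ f g, dI s(u, v) = s(f, g) := by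
      induction dI s(u, v) using Sym2.ind with
      | _ f g => exact ⟨f, g, rfl⟩
    have ha := dI_adj h1 hfg
    have e1 := (dI_eq_iff ha h1).1 hfg
    have e2 := (dI_eq_iff ha h2).1 (h.symm.trans hfg)
    rw [← e1, e2]

/-- the law of the dual configuration -/
theorem P_du {F : Finset (Sym2 (ℤ × ℤ))} (hF : ∀ e ∈ F, e ∈ lattice.edgeSet)
    (A : Finset (Sym2 (ℤ × ℤ)) → Prop) : P F (fun ω => A (du F ω)) = P (F.image dI) A := by
  classical
  rw [P_flip]
  unfold P
  rw [card_image_of_injOn (dI_injOn hF)]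
  congr 2
  apply card_nbij' (fun S => S.image dI) (fun T => F.filter (fun e => dI e ∈ T))
  · intro S hS
    rw [mem_coe, mem_filter, mem_powerset] at hS ⊢
    refine ⟨image_subset_image hS.1, ?_⟩
    have := hS.2
    unfold du at this
    rwa [sdiff_sdiff_right_self, inf_eq_inter, inter_eq_right.2 hS.1] at this
  · intro T hT
    rw [mem_coe, mem_filter, mem_powerset] at hT ⊢
    refine ⟨filter_subset _ _, ?_⟩
    unfold du
    have hs : F.filter (fun e => dI e ∈ T) ⊆ F := filter_subset _ _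
    rw [sdiff_sdiff_right_self, inf_eq_inter, inter_eq_right.2 hs]
    have : (F.filter (fun e => dI e ∈ T)).image dI = T := by
      ext e
      rw [mem_image]
      constructor
      · rintro ⟨e', h1, rfl⟩
        exact (mem_filter.1 h1).2
      · intro h1
        obtain ⟨e', h2, rfl⟩ := mem_image.1 (hT.1 h1)
        exact ⟨e', mem_filter.2 ⟨h2, h1⟩, rfl⟩
    rw [this]
    exact hT.2
  · intro S hS
    rw [mem_coe, mem_filter, mem_powerset] at hS
    ext e
    rw [mem_filter, mem_image]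
    constructor
    · rintro ⟨h1, e', h2, h3⟩
      rwa [← dI_injOn hF (mem_coe.2 (hS.1 h2)) (mem_coe.2 h1) h3]
    · intro h1
      exact ⟨hS.1 h1, e, h1, rfl⟩
  · intro T hT
    rw [mem_coe, mem_filter, mem_powerset] at hT
    ext e
    rw [mem_image]
    constructor
    · rintro ⟨e', h1, rfl⟩
      exact (mem_filter.1 h1).2
    · intro h1
      obtain ⟨e', h2, rfl⟩ := mem_image.1 (hT.1 h1)
      exact ⟨e', mem_filter.2 ⟨h2, h1⟩, rfl⟩

/-! ### duality in a box -/

lemma tel_Ico (u : ℤ → ZMod 2) {t z : ℤ} (h : t ≤ z) :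
    ∑ i ∈ Ico t z, (u (i + 1) + u i) = u z + u t := by
  induction z, h using Int.le_induction with
  | base => rw [Ico_self, sum_empty, CharTwo.add_self_eq_zero]
  | succ z hz ih =>
    have : Ico t (z + 1) = insert z (Ico t z) := by
      ext j; rw [mem_insert, mem_Ico, mem_Ico]; omega
    rw [this, sum_insert (by rw [mem_Ico]; omega), ih]
    have h2 := CharTwo.add_self_eq_zero (u z)
    calc u (z + 1) + u z + (u z + u t) = u (z + 1) + u t + (u z + u z) := by ring
      _ = u (z + 1) + u t := by rw [h2, add_zero]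

/-- faces outside of the box `box a b 0 h` -/
def Outer (a b h : ℤ) (g : ℤ × ℤ) : Prop := g.1 = a - 1 ∨ g.1 = b ∨ g.2 = -1 ∨ g.2 = h

/-- **Duality in a box**: two points of the bottom side are joined, or there is a dual path from
the gap between them to another part of the boundary. -/
theorem box_dual {a b h t z : ℤ} (hh : 1 ≤ h) (hat : a ≤ t) (htz : t < z) (hzb : z ≤ b)
    {ω : Finset (Sym2 (ℤ × ℤ))} (hnot : ¬ Joined ω (t, 0) (z, 0)) :
    ∃ p g, t ≤ p ∧ p < z ∧ Outer a b h g ∧ ¬ (g.2 = -1 ∧ t ≤ g.1 ∧ g.1 < z) ∧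
      Joined (du (edgesIn (box a b 0 h)) ω) (p, -1) g := by
  classical
  by_contra hcon
  push Not at hcon
  obtain ⟨F, hF⟩ : ∃ F, F = edgesIn (box a b 0 h) := ⟨_, rfl⟩
  rw [← hF] at hcon
  have hFl : ∀ e ∈ F, e ∈ lattice.edgeSet := fun e he => by
    rw [hF] at he; exact mem_edgesIn_lattice he
  obtain ⟨G, hG⟩ : ∃ G : ℤ × ℤ → Prop, G = fun f => ∃ p, t ≤ p ∧ p < z ∧
    Joined (du F ω) (p, -1) f := ⟨_, rfl⟩
  have hGout : ∀ g, Outer a b h g → ¬ (g.2 = -1 ∧ t ≤ g.1 ∧ g.1 < z) → ¬ G g := by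
    intro g h1 h2 h3
    rw [hG] at h3
    obtain ⟨p, p1, p2, p3⟩ := h3
    apply h2
    by_contra h4
    exact hcon p g p1 p2 h1 (fun h5 h6 => by
      by_contra h7
      exact h4 ⟨h5, h6, by omega⟩) p3
  have hstep : ∀ f f' : ℤ × ℤ, lattice.Adj f f' → crossEdge f f' ∈ F → crossEdge f f' ∉ ω →
      (G f ↔ G f') := by
    intro f f' h1 h2 h3
    have h4 : s(f, f') ∈ du F ω := (mem_du hFl).2 ⟨h1, h2, h3⟩
    rw [hG]
    constructor
    · rintro ⟨p, p1, p2, p3⟩
      exact ⟨p, p1, p2, joined_trans p3 (joined_edge h4)⟩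
    · rintro ⟨p, p1, p2, p3⟩
      exact ⟨p, p1, p2, joined_trans p3 (joined_symm (joined_edge h4))⟩
  obtain ⟨u, hu⟩ : ∃ u : ℤ → ℤ → ZMod 2, u = fun i j => par (Joined ω (t, 0) (i, j)) := ⟨_, rfl⟩
  obtain ⟨g, hg⟩ : ∃ g : ℤ → ℤ → ZMod 2, g = fun i j =>
    if a ≤ i ∧ i < b ∧ 0 ≤ j ∧ j < h then par (G (i, j)) else 0 := ⟨_, rfl⟩
  have gout : ∀ i j, ¬ (a ≤ i ∧ i < b ∧ 0 ≤ j ∧ j < h) → g i j = 0 := by
    intro i j h1; rw [hg]; simp only; rw [if_neg h1]
  have gin : ∀ i j, (a ≤ i ∧ i < b ∧ 0 ≤ j ∧ j < h) → g i j = par (G (i, j)) := by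
    intro i j h1; rw [hg]; simp only; rw [if_pos h1]
  have gz : ∀ i j, ¬ G (i, j) → g i j = 0 := by
    intro i j h1
    by_cases h2 : a ≤ i ∧ i < b ∧ 0 ≤ j ∧ j < h
    · rw [gin i j h2]; exact par_false h1
    · exact gout i j h2
  have hz2 : ∀ x : ZMod 2, x + x = 0 := CharTwo.add_self_eq_zero
  have uopen : ∀ i j i' j' : ℤ, s(((i, j) : ℤ × ℤ), (i', j')) ∈ ω → u i j = u i' j' := by
    intro i j i' j' h1
    rw [hu]
    have : Joined ω (t, 0) (i, j) ↔ Joined ω (t, 0) (i', j') := by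
      constructor
      · intro h2; exact joined_trans h2 (joined_edge h1)
      · intro h2; exact joined_trans h2 (joined_symm (joined_edge h1))
    simp only
    rw [propext this]
  -- one product
  have prodz : ∀ (i j i' j' : ℤ) (f1 f2 f1' f2' : ℤ), lattice.Adj (f1, f2) (f1', f2') →
      crossEdge (f1, f2) (f1', f2') = s((i, j), (i', j')) →
      ((a ≤ f1 ∧ f1 < b ∧ 0 ≤ f2 ∧ f2 < h) ∨ (a ≤ f1' ∧ f1' < b ∧ 0 ≤ f2' ∧ f2' < h) →
        s(((i, j) : ℤ × ℤ), (i', j')) ∈ F) →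
      (¬ (a ≤ f1 ∧ f1 < b ∧ 0 ≤ f2 ∧ f2 < h) → (a ≤ f1' ∧ f1' < b ∧ 0 ≤ f2' ∧ f2' < h) →
        Outer a b h (f1, f2) ∧ f2 ≠ -1) →
      (¬ (a ≤ f1' ∧ f1' < b ∧ 0 ≤ f2' ∧ f2' < h) → (a ≤ f1 ∧ f1 < b ∧ 0 ≤ f2 ∧ f2 < h) →
        Outer a b h (f1', f2') ∧ f2' ≠ -1) →
      (u i j + u i' j') * (g f1 f2 + g f1' f2') = 0 := by
    intro i j i' j' f1 f2 f1' f2' h1 h2 h3 h4 h5
    by_cases h6 : (a ≤ f1 ∧ f1 < b ∧ 0 ≤ f2 ∧ f2 < h)
    · by_cases ho : s(((i, j) : ℤ × ℤ), (i', j')) ∈ ω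
      · rw [uopen i j i' j' ho, hz2, zero_mul]
      · have hs := hstep _ _ h1 (by rw [h2]; exact h3 (Or.inl h6)) (by rw [h2]; exact ho)
        by_cases h7 : (a ≤ f1' ∧ f1' < b ∧ 0 ≤ f2' ∧ f2' < h)
        · rw [gin f1 f2 h6, gin f1' f2' h7, propext hs, hz2, mul_zero]
        · obtain ⟨k1, k2⟩ := h5 h7 h6
          have k3 := hGout _ k1 (fun hc => k2 hc.1)
          rw [gz f1' f2' k3, gz f1 f2 (fun hc => k3 (hs.1 hc))]
          ring
    · by_cases h7 : (a ≤ f1' ∧ f1' < b ∧ 0 ≤ f2' ∧ f2' < h)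
      · by_cases ho : s(((i, j) : ℤ × ℤ), (i', j')) ∈ ω
        · rw [uopen i j i' j' ho, hz2, zero_mul]
        · have hs := hstep _ _ h1 (by rw [h2]; exact h3 (Or.inr h7)) (by rw [h2]; exact ho)
          obtain ⟨k1, k2⟩ := h4 h6 h7
          have k3 := hGout _ k1 (fun hc => k2 hc.1)
          rw [gz f1 f2 k3, gz f1' f2' (fun hc => k3 (hs.2 hc))]
          ring
      · rw [gout f1 f2 h6, gout f1' f2' h7]
        ring
  obtain ⟨N, hN⟩ : ∃ N : ℤ, 0 ≤ N ∧ -N ≤ a ∧ b ≤ N := ⟨max |a| |b|, by positivity,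
    by have := neg_abs_le a; have := le_max_left |a| |b|; omega,
    by have := le_abs_self b; have := le_max_right |a| |b|; omega⟩
  have green := green_mod2 N h hN.1 (by omega) u g
    (fun i j h1 => gout i j (by omega)) (fun i j h1 => gout i j (by omega))
    (fun i j h1 => gout i j (by omega))
  have hA : ∑ j ∈ Icc 1 h, ∑ i ∈ Icc (-N) N,
      (u i j + u (i + 1) j) * (g i (j - 1) + g i j) = 0 := by
    apply sum_eq_zero
    intro j hj
    apply sum_eq_zero
    intro i _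
    rw [mem_Icc] at hj
    apply prodz i j (i + 1) j i (j - 1) i j
    · left; simp
    · unfold crossEdge
      rw [if_neg (by simp only; omega)]
      simp only
      rw [max_eq_right (by omega)]
    · intro h1
      rw [hF, mem_edgesIn, mem_box, mem_box]
      simp only
      exact ⟨by omega, by omega, hE_adj _ _⟩
    · intro h1 h2; exfalso; omega
    · intro h1 h2; unfold Outer; simp only; omega
  have hB : ∑ j ∈ Icc 0 h, ∑ i ∈ Icc (-N) N,
      (u i j + u i (j + 1)) * (g (i - 1) j + g i j) = 0 := by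
    apply sum_eq_zero
    intro j hj
    apply sum_eq_zero
    intro i _
    rw [mem_Icc] at hj
    apply prodz i j i (j + 1) (i - 1) j i j
    · right; simp
    · unfold crossEdge
      rw [if_pos rfl]
      simp only
      rw [max_eq_right (by omega)]
    · intro h1
      rw [hF, mem_edgesIn, mem_box, mem_box]
      simp only
      exact ⟨by omega, by omega, vE_adj _ _⟩
    · intro h1 h2; unfold Outer; simp only; omega
    · intro h1 h2; unfold Outer; simp only; omega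
  have hC : ∑ i ∈ Icc (-N) N, u i 0 * (g (i - 1) 0 + g i 0) =
      ∑ i ∈ Icc (-N) N, (u (i + 1) 0 + u i 0) * g i 0 := by
    have e1 := shift_sum N (fun i => u (i + 1) 0 * g i 0)
      (by rw [gout _ _ (by omega), mul_zero])
      (by rw [gout _ _ (by omega), mul_zero]) hN.1
    simp only [sub_add_cancel] at e1
    rw [sum_congr rfl (fun i _ => mul_add (u i 0) (g (i - 1) 0) (g i 0)), sum_add_distrib, e1,
      ← sum_add_distrib]
    apply sum_congr rfl
    intro i _
    ring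
  have hD : ∀ i ∈ Icc (-N) N, (u (i + 1) 0 + u i 0) * g i 0 =
      if i ∈ Ico t z then u (i + 1) 0 + u i 0 else 0 := by
    intro i _
    by_cases h1 : a ≤ i ∧ i < b
    · have hmem : s(((i, 0) : ℤ × ℤ), (i + 1, 0)) ∈ F := by
        rw [hF, mem_edgesIn, mem_box, mem_box]
        simp only
        exact ⟨by omega, by omega, hE_adj _ _⟩
      by_cases ho : s(((i, 0) : ℤ × ℤ), (i + 1, 0)) ∈ ω
      · rw [uopen i 0 (i + 1) 0 ho, hz2, zero_mul]
        split_ifs <;> rfl
      · have hce : crossEdge (i, -1) (i, 0) = s((i, 0), (i + 1, 0)) := by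
          unfold crossEdge
          rw [if_neg (by simp only; omega)]
          simp
        have hs := hstep (i, -1) (i, 0) (by left; simp) (by rw [hce]; exact hmem)
          (by rw [hce]; exact ho)
        split_ifs with h2
        · rw [mem_Ico] at h2
          have h3 : G (i, -1) := by
            rw [hG]; exact ⟨i, h2.1, h2.2, joined_refl _ _⟩
          rw [gin i 0 (by omega), par_true (hs.1 h3), mul_one]
        · rw [mem_Ico] at h2
          have h3 : ¬ G (i, -1) := hGout _ (Or.inr (Or.inr (Or.inl rfl)))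
            (fun hc => h2 ⟨hc.2.1, hc.2.2⟩)
          rw [gz i 0 (fun hc => h3 (hs.2 hc)), mul_zero]
    · rw [gout i 0 (by omega), mul_zero, if_neg (by rw [mem_Ico]; omega)]
  rw [hA, hB, hC, sum_congr rfl hD, ← sum_filter] at green
  have hE : (Icc (-N) N).filter (fun i => i ∈ Ico t z) = Ico t z := by
    ext i
    rw [mem_filter, mem_Icc, mem_Ico]
    omega
  rw [hE, tel_Ico (fun i => u i 0) htz.le] at green
  have e1 : u z 0 = 0 := by rw [hu]; exact par_false hnot
  have e2 : u t 0 = 1 := by rw [hu]; exact par_true (joined_refl _ _)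
  rw [e1, e2] at green
  exact absurd green (by decide)

end H47Perc.Arms
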