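import Pool.Agent.Helper47.Arms.KRoot
import Pool.Agent.Helper81.Tile.TA
import Pool.Agent.Helper8.CB.LaneEv

/-!
General `k`, far exits: assembly.  Marked connections are connections in the slit strip
(`H81Tile.MConn`); lanes between the copies of the box give the hypotheses of `H81Tile.arm_of_conn`.
-/

set_option autoImplicit false

namespace TA

open H81Tile (fF fT tcM MConn MStep ToOdd Wind CConn)

/-! ### dictionary -/

/-- free positions of the slit strip of period `L` -/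
def FrL (L k : ℤ) (x : ℤ) : Prop := x % L = 0 ∨ k ≤ x % L

lemma mkT_fT (p : ℤ × ℤ) : mkT (fT p) = decide (0 ≤ p.2) := by
  unfold mkT fT
  simp only [decide_eq_decide]
  omega

lemma mcn_mconn {M : ℤ × ℤ → Prop} {L k m : ℕ} {R : Set (ℤ × ℤ)}
    (hR : ∀ w ∈ R, -(2 * (m : ℤ)) < w.1 + w.2 ∧ w.1 + w.2 < 2 * m) {u : ℤ × ℤ} {x : Bool}
    {g : (ℤ × ℤ) × Bool} (h : MCn M (FrL L k) R (fF u, x) g) :
    ∃ v, g.1 = fF v ∧ MConn (tcM M) L k m (u, x) (v, g.2) := by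
  unfold MCn at h
  induction h with
  | refl => exact ⟨u, rfl, Relation.ReflTransGen.refl⟩
  | @tail p q _ hst ih =>
    obtain ⟨v, hv, hc⟩ := ih
    rcases hst with ⟨w, hw, h1, h2, h3⟩ | ⟨h1, h2, h3⟩
    · rw [hv] at h3
      obtain ⟨v', t, hv', rfl⟩ := H81Tile.stp_face h3
      refine ⟨v', hv', hc.tail (Or.inl ⟨t, ?_, ?_, ?_, ?_⟩)⟩
      · have := hR _ hw
        unfold fT at this
        unfold H81Tile.rows
        simp only [Set.mem_ofPred_eq] at this ⊢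
        omega
      · show p.2 = _
        rw [h1, mkT_fT]
      · show q.2 = _
        rw [h2, mkT_fT]
      · show H81Tile.Jn (tcM M) t v v'
        rw [H81Tile.jn_iff, ← hv']
        exact h3
    · refine ⟨v, by rw [← h1, hv], hc.tail (Or.inr ⟨rfl, ?_, ?_⟩)⟩
      · rw [hv] at h2
        unfold fF at h2
        simp only at h2 ⊢
        omega
      · rw [hv] at h2 h3
        unfold fF at h2 h3
        simp only at h2 h3 ⊢
        have e : v.2 = 0 := by omega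
        rw [e, add_zero] at h3
        exact h3

/-! ### translations -/

/-- translation by `z` periods -/
def trs (L z : ℤ) (v : ℤ × ℤ) : ℤ × ℤ := (v.1 + z * L, v.2 - z * L)

lemma mkT_trs (L z : ℤ) (v : ℤ × ℤ) : mkT (trs L z v) = mkT v := by
  unfold mkT trs
  simp only [decide_eq_decide]
  have : v.1 + z * L + (v.2 - z * L) = v.1 + v.2 := by ring
  rw [this]

lemma Opp.trs {f g v : ℤ × ℤ} (h : Opp f g v) (L z : ℤ) :
    Opp (trs L z f) (trs L z g) (trs L z v) := by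
  unfold Opp TA.trs at *
  simp only
  generalize z * L = T
  omega

lemma StpV.trs {M : ℤ × ℤ → Prop} {L z : ℤ} (hM : ∀ v, M (trs L z v) ↔ M v) {f g v : ℤ × ℤ}
    (h : StpV M f g v) : StpV M (trs L z f) (trs L z g) (trs L z v) := by
  refine ⟨h.1.trs L z, (hM v).trans (h.2.trans ?_)⟩
  unfold TA.trs
  simp only
  generalize z * L = T
  omega

lemma MCn.trs {M : ℤ × ℤ → Prop} {Fr : ℤ → Prop} {R R' : Set (ℤ × ℤ)} {L z : ℤ}
    (hM : ∀ v, M (trs L z v) ↔ M v) (hF : ∀ x, Fr x → Fr (x + z * L))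
    (hR : ∀ v ∈ R, trs L z v ∈ R') {u v : (ℤ × ℤ) × Bool} (h : MCn M Fr R u v) :
    MCn M Fr R' (trs L z u.1, u.2) (trs L z v.1, v.2) := by
  unfold MCn at *
  induction h with
  | refl => exact Relation.ReflTransGen.refl
  | @tail p q _ hst ih =>
    refine ih.tail ?_
    rcases hst with ⟨w, hw, h1, h2, h3⟩ | ⟨h1, h2, h3⟩
    · refine Or.inl ⟨TA.trs L z w, hR w hw, ?_, ?_, h3.trs hM⟩
      · show p.2 = _
        rw [mkT_trs]; exact h1
      · show q.2 = _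
        rw [mkT_trs]; exact h2
    · refine Or.inr ⟨?_, ?_, ?_⟩
      · show TA.trs L z p.1 = TA.trs L z q.1
        rw [h1]
      · show p.1.1 + z * L + (p.1.2 - z * L) = 0
        linarith
      · exact hF _ h3

lemma frL_trs {L k : ℤ} (z x : ℤ) (h : FrL L k x) : FrL L k (x + z * L) := by
  unfold FrL at *
  rwa [Int.add_mul_emod_self_right]

lemma frL_small {L k x : ℤ} (h1 : k - L ≤ x) (h2 : x ≤ L) (hL : 0 < L) (h : x ≤ 0 ∨ k ≤ x) :
    FrL L k x := by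
  unfold FrL
  rcases lt_trichotomy x 0 with h0 | h0 | h0
  · right
    by_cases hk : k ≤ 0
    · exact hk.trans (Int.emod_nonneg _ (by omega))
    · have e : x % L = x + L := by
        rw [← Int.add_emod_right]
        exact Int.emod_eq_of_lt (by omega) (by omega)
      omega
  · left
    rw [h0, Int.zero_emod]
  · rcases eq_or_lt_of_le h2 with h3 | h3
    · left
      rw [h3, Int.emod_self]
    · right
      rw [Int.emod_eq_of_lt (by omega) h3]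
      omega

/-- the strip -/
def Rws (m : ℤ) : Set (ℤ × ℤ) := {w | -(2 * m) < w.1 + w.2 ∧ w.1 + w.2 < 2 * m}

lemma trs_rws {m L z : ℤ} {v : ℤ × ℤ} (h : v ∈ Rws m) : trs L z v ∈ Rws m := by
  unfold Rws trs at *
  simp only [Set.mem_ofPred_eq] at *
  have : v.1 + z * L + (v.2 - z * L) = v.1 + v.2 := by ring
  rw [this]
  exact h

/-! ### the regions of the lanes avoid the cut faces -/

section

variable {q : CB.LP} {m : ℤ}

lemma two_mul_le {m a b : ℤ} (hm : 1 ≤ m) (h : a ≤ b) : 2 * m * a ≤ 2 * m * b :=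
  mul_le_mul_of_nonneg_left h (by omega)

/-- the period in tiles is large -/
lemma period_large (q : CB.LP) (hm : 1 ≤ m) :
    2 * m * (2 * q.W + 2 * q.h + 10 * q.k + 30) ≤ 2 * m * q.n := two_mul_le hm q.hn

lemma expand (q : CB.LP) : 2 * m * (2 * q.W + 2 * q.h + 10 * q.k + 30) =
    4 * (m * q.W) + 4 * (m * q.h) + 20 * (m * q.k) + 60 * m := by ring

lemma U_cells {i : ℤ} (h1 : 1 ≤ i) (h2 : i ≤ 2 * q.k) {c : ℤ × ℤ} (h : q.U i c) :
    -q.W - 2 ≤ c.1 ∧ c.1 ≤ q.W + 1 ∧ -q.h - 1 ≤ c.2 ∧ c.2 ≤ q.h ∧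
      (q.h - 3 ≤ c.2 ∨ c.2 ≤ -q.h + 2) := by
  have hx := q.hx i h1 h2
  have hh := q.hh
  unfold CB.LP.U CB.Rc CB.LP.fx CB.LP.fx' CB.LP.ulo CB.LP.uhi CB.LP.uy at h
  split_ifs at h <;> omega

/-- faces on the line next to the `U` are free -/
lemma U_free (hm : 1 ≤ m) (hk : q.k + 2 ≤ 4 * m) {i : ℤ} (h1 : 1 ≤ i) (h2 : i ≤ 2 * q.k) :
    ∀ v ∈ CB.Reg m {c | q.U i c}, ∀ a b, Opp a b v → a.1 + a.2 = 0 →
      FrL (2 * m * q.n) q.k a.1 := by
  rintro v ⟨c, hc, v1, v2, v3, v4⟩ a b ho ha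
  obtain ⟨c1, c2, -, -, c5⟩ := U_cells h1 h2 hc
  have hW := q.hW
  have hh := q.hh
  have hk1 := q.hk
  have e1 := period_large q hm
  rw [expand] at e1
  have e2 : 0 ≤ m * q.k := by positivity
  have e3 : m * 5 ≤ m * q.W := mul_le_mul_of_nonneg_left hW (by omega)
  have e4 : m * 5 ≤ m * q.h := mul_le_mul_of_nonneg_left hh (by omega)
  have e5 := two_mul_le hm c1
  have e6 : 2 * m * (c.1 + 1) ≤ 2 * m * (q.W + 2) := two_mul_le hm (by omega)
  have e7 : 2 * m * (-q.W - 2) = -(2 * (m * q.W)) - 4 * m := by ring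
  have e8 : 2 * m * (q.W + 2) = 2 * (m * q.W) + 4 * m := by ring
  have ho' := ho
  unfold Opp at ho'
  rcases c5 with c5 | c5
  · have e9 := two_mul_le hm c5
    have e10 : 2 * m * (q.h - 3) = 2 * (m * q.h) - 6 * m := by ring
    exact frL_small (by omega) (by omega) (by omega) (Or.inl (by omega))
  · have e9 : 2 * m * (c.2 + 1) ≤ 2 * m * (-q.h + 3) := two_mul_le hm (by omega)
    have e10 : 2 * m * (-q.h + 3) = -(2 * (m * q.h)) + 6 * m := by ring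
    exact frL_small (by omega) (by omega) (by omega) (Or.inr (by omega))

/-- faces on the line next to the lanes are free -/
lemma Out_free (hm : 1 ≤ m) (hk : q.k + 2 ≤ 4 * m) :
    ∀ v ∈ CB.Reg m q.Out, ∀ a b, Opp a b v → a.1 + a.2 = 0 → FrL (2 * m * q.n) q.k a.1 := by
  rintro v ⟨c, ⟨hc, -, -⟩, v1, v2, v3, v4⟩ a b ho ha
  by_contra hfr
  unfold FrL at hfr
  push Not at hfr
  have hW := q.hW
  have hh := q.hh
  have hk1 := q.hk
  have e1 := period_large q hm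
  rw [expand] at e1
  have e2 : 0 ≤ m * q.k := by positivity
  have e3 : m * 5 ≤ m * q.W := mul_le_mul_of_nonneg_left hW (by omega)
  have e4 : m * 5 ≤ m * q.h := mul_le_mul_of_nonneg_left hh (by omega)
  have hpos : 0 < 2 * m * q.n := by omega
  have r0 := Int.emod_nonneg a.1 hpos.ne'
  have r1 := Int.emod_lt_of_pos a.1 hpos
  have r2 := Int.mul_ediv_add_emod a.1 (2 * m * q.n)
  obtain ⟨z, hz⟩ : ∃ z, z = a.1 / (2 * m * q.n) := ⟨_, rfl⟩
  rw [← hz] at r2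
  generalize a.1 % (2 * m * q.n) = r at *
  have ho' := ho
  unfold Opp at ho'
  have e5 : 2 * m * q.n * z = 2 * m * (z * q.n) := by ring
  rw [e5] at r2
  apply hc z
  have key1 : 2 * m * (-q.W) ≤ 2 * m * (c.1 - z * q.n) + (2 * m - 1) := by
    have : 2 * m * (c.1 - z * q.n) + (2 * m - 1) = 2 * m * (c.1 + 1) - 2 * m * (z * q.n) - 1 := by
      ring
    rw [this]
    have : 2 * m * (-q.W) = -(2 * (m * q.W)) := by ring
    rw [this]
    omega
  have key2 : 2 * m * (c.1 - z * q.n) < 2 * m * q.W := by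
    have : 2 * m * (c.1 - z * q.n) = 2 * m * c.1 - 2 * m * (z * q.n) := by ring
    rw [this]
    have : 2 * m * q.W = 2 * (m * q.W) := by ring
    rw [this]
    omega
  have key3 : 2 * m * (-q.h) ≤ 2 * m * (c.2 + z * q.n) + (2 * m - 1) := by
    have : 2 * m * (c.2 + z * q.n) + (2 * m - 1) = 2 * m * (c.2 + 1) + 2 * m * (z * q.n) - 1 := by
      ring
    rw [this]
    have : 2 * m * (-q.h) = -(2 * (m * q.h)) := by ring
    rw [this]
    omega
  have key4 : 2 * m * (c.2 + z * q.n) < 2 * m * q.h := by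
    have : 2 * m * (c.2 + z * q.n) = 2 * m * c.2 + 2 * m * (z * q.n) := by ring
    rw [this]
    have : 2 * m * q.h = 2 * (m * q.h) := by ring
    rw [this]
    omega
  have l1 : ∀ x y : ℤ, 2 * m * x ≤ 2 * m * y + (2 * m - 1) → x ≤ y := by
    intro x y hxy
    by_contra hcon
    have := two_mul_le hm (show y + 1 ≤ x by omega)
    have e : 2 * m * (y + 1) = 2 * m * y + 2 * m := by ring
    omega
  have l2 : ∀ x y : ℤ, 2 * m * x < 2 * m * y → x < y := by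
    intro x y hxy
    by_contra hcon
    have := two_mul_le hm (show y ≤ x by omega)
    omega
  exact ⟨l1 _ _ key1, l2 _ _ key2, l1 _ _ key3, l2 _ _ key4⟩

lemma U_rws (hm : 1 ≤ m) {i : ℤ} (h1 : 1 ≤ i) (h2 : i ≤ 2 * q.k) {m' : ℤ}
    (hm' : m * (q.s + 4) ≤ m') : CB.Reg m {c | q.U i c} ⊆ Rws m' := by
  rintro v ⟨c, hc, v1, v2, v3, v4⟩
  obtain ⟨c1, c2, c3, c4, -⟩ := U_cells h1 h2 hc
  have hs := q.s_eq
  have hW := q.hW
  have hh := q.hh
  have hk1 := q.hk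
  have hn := q.hn
  have e1 : 2 * m * (-(q.s + 4)) ≤ 2 * m * (c.1 + c.2) := two_mul_le hm (by omega)
  have e2 : 2 * m * (c.1 + c.2 + 2) ≤ 2 * m * (q.s + 4) := two_mul_le hm (by omega)
  have e3 : 2 * m * (-(q.s + 4)) = -(2 * (m * (q.s + 4))) := by ring
  have e4 : 2 * m * (q.s + 4) = 2 * (m * (q.s + 4)) := by ring
  have e5 : 2 * m * (c.1 + c.2) = 2 * m * c.1 + 2 * m * c.2 := by ring
  have e6 : 2 * m * (c.1 + c.2 + 2) = 2 * m * (c.1 + 1) + 2 * m * (c.2 + 1) := by ring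
  have hgap : 2 * m * (-(q.s + 4)) + 2 * m ≤ 2 * m * (c.1 + c.2) := by
    have : 2 * m * (-(q.s + 4)) + 2 * m = 2 * m * (-(q.s + 3)) := by ring
    rw [this]
    exact two_mul_le hm (by omega)
  unfold Rws
  simp only [Set.mem_ofPred_eq]
  omega

lemma Out_rws (hm : 1 ≤ m) {m' : ℤ} (hm' : m * (q.s + 4) ≤ m') :
    CB.Reg m q.Out ⊆ Rws m' := by
  rintro v ⟨c, ⟨-, c1, c2⟩, v1, v2, v3, v4⟩
  have e1 : 2 * m * (-(q.s + 3)) ≤ 2 * m * (c.1 + c.2) := two_mul_le hm (by omega)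
  have e2 : 2 * m * (c.1 + c.2 + 2) ≤ 2 * m * (q.s + 4) := two_mul_le hm (by omega)
  have e3 : 2 * m * (-(q.s + 3)) = -(2 * (m * (q.s + 4))) + 2 * m := by ring
  have e4 : 2 * m * (q.s + 4) = 2 * (m * (q.s + 4)) := by ring
  have e5 : 2 * m * (c.1 + c.2) = 2 * m * c.1 + 2 * m * c.2 := by ring
  have e6 : 2 * m * (c.1 + c.2 + 2) = 2 * m * (c.1 + 1) + 2 * m * (c.2 + 1) := by ring
  unfold Rws
  simp only [Set.mem_ofPred_eq]
  omega

end

/-! ### assembly -/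

lemma exists_okM (f : ℤ × ℤ) : ∃ x, OkM f x := by
  rcases le_or_gt (f.1 + f.2) 0 with h | h
  · exact ⟨false, fun h' => by omega, fun _ => rfl⟩
  · exact ⟨true, fun _ => rfl, fun h' => by omega⟩

lemma OkM.trs {f : ℤ × ℤ} {x : Bool} (h : OkM f x) (L z : ℤ) : OkM (trs L z f) x := by
  have e : (TA.trs L z f).1 + (TA.trs L z f).2 = f.1 + f.2 := by
    unfold TA.trs
    ring
  unfold OkM
  rw [e]
  exact h

/-- the set lies in the centre box -/
def InBox (q : CB.LP) (m : ℤ) (D : Set (ℤ × ℤ)) : Prop :=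
  ∀ v ∈ D, -(2 * m * q.W) ≤ v.1 ∧ v.1 < 2 * m * q.W ∧ -(2 * m * q.h) ≤ v.2 ∧ v.2 < 2 * m * q.h

section

variable {q : CB.LP} {m m' : ℤ} {M : ℤ × ℤ → Prop} {D : Set (ℤ × ℤ)} {c : ℤ → ℕ → ℤ × ℤ}
  {n t : ℤ → ℕ} {f : ℤ → ℤ × ℤ} {S2 : Set (ℤ × ℤ)}

/-- the attachment of the lanes to the ends: every marked root is joined to a foot, every foot is
joined to an end -/
structure Attach (M : ℤ × ℤ → Prop) (q : CB.LP) (m : ℤ) (c : ℤ → ℕ → ℤ × ℤ) (n t : ℤ → ℕ)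
    (f : ℤ → ℤ × ℤ) : Prop where
  root : ∀ j, 1 ≤ j → j ≤ q.k → ∀ (b : Bool) (κ : ℤ), ∃ i j' b', 1 ≤ i ∧ i ≤ 2 * q.k ∧
    1 ≤ j' ∧ j' ≤ q.k ∧ fc κ (cS j') = fc κ (cS j) ∧
    (fc κ (cS j) ≠ cF 0 → fc κ (cS j) ≠ cF q.k → b' = b) ∧
    ∃ g ∈ BdE κ c n t j' b', Conn M (CB.Reg m {c | q.U i c}) (f i) g
  foot : ∀ i, 1 ≤ i → i ≤ 2 * q.k → ∃ (κ j : ℤ) (b : Bool), 1 ≤ j ∧ j ≤ q.k ∧
    ∃ g ∈ BdE κ c n t j b, Conn M (CB.Reg m {c | q.U i c}) (f i) g

/-- the feet are joined outside the boxes to feet of the neighbouring copies -/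
def Lanes (q : CB.LP) (m : ℤ) (S2 : Set (ℤ × ℤ)) (f : ℤ → ℤ × ℤ) : Prop :=
  ∀ i, 1 ≤ i → i ≤ 2 * q.k → CB.InC m (q.fx i, q.fy i) (f i) ∧ ((f i).1 + (f i).2) % 2 = 0 ∧
    ∃ i' z : ℤ, 1 ≤ i' ∧ i' ≤ 2 * q.k ∧ (z = 1 ∨ z = -1) ∧
      Conn (· ∈ S2) (CB.Reg m q.Out) (f i) (trs (2 * m * q.n) z (f i'))

lemma foot_free (hm : 1 ≤ m) (hk : q.k + 2 ≤ 4 * m) {i : ℤ} (h1 : 1 ≤ i) (h2 : i ≤ 2 * q.k)
    {g : ℤ × ℤ} (hg : CB.InC m (q.fx i, q.fy i) g) (h0 : g.1 + g.2 = 0) :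
    FrL (2 * m * q.n) q.k g.1 := by
  obtain ⟨v1, v2, v3, v4⟩ := hg
  have hx := q.hx i h1 h2
  have hW := q.hW
  have hh := q.hh
  have hk1 := q.hk
  have e1 := period_large q hm
  rw [expand] at e1
  have e2 : 0 ≤ m * q.k := by positivity
  have e3 : m * 5 ≤ m * q.W := mul_le_mul_of_nonneg_left hW (by omega)
  have e4 : m * 5 ≤ m * q.h := mul_le_mul_of_nonneg_left hh (by omega)
  have c1 : -q.W - 2 ≤ q.fx i ∧ q.fx i ≤ q.W + 1 := by
    unfold CB.LP.fx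
    split_ifs <;> omega
  have c2 : q.h ≤ q.fy i ∨ q.fy i + 1 ≤ -q.h := by
    unfold CB.LP.fy
    split_ifs <;> omega
  simp only at v1 v2 v3 v4
  have e5 := two_mul_le hm c1.1
  have e6 : 2 * m * (q.fx i + 1) ≤ 2 * m * (q.W + 2) := two_mul_le hm (by omega)
  have e7 : 2 * m * (-q.W - 2) = -(2 * (m * q.W)) - 4 * m := by ring
  have e8 : 2 * m * (q.W + 2) = 2 * (m * q.W) + 4 * m := by ring
  rcases c2 with c2 | c2
  · have e9 := two_mul_le hm c2
    have e10 : 2 * m * q.h = 2 * (m * q.h) := by ring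
    exact frL_small (by omega) (by omega) (by omega) (Or.inl (by omega))
  · have e9 := two_mul_le hm c2
    have e10 : 2 * m * (-q.h) = -(2 * (m * q.h)) := by ring
    exact frL_small (by omega) (by omega) (by omega) (Or.inr (by omega))

/-- **Assembly**: every marked root face is joined to a root face of a neighbouring copy. -/
theorem root_to_root (hm : 1 ≤ m) (hk : q.k + 2 ≤ 4 * m) (hm' : m * (q.s + 4) ≤ m')
    (hM : ∀ z v, M (trs (2 * m * q.n) z v) ↔ M v) (h : Arms M q.k D c n t) (hD : InBox q m D)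
    (hS2 : ∀ v ∈ CB.Reg m q.Out, (M v ↔ v ∈ S2)) (hl : Lanes q m S2 f)
    (ha : Attach M q m c n t f) {j : ℤ} (hj1 : 1 ≤ j) (hjk : j ≤ q.k) (b : Bool) (κ : ℤ) :
    ∃ z s : ℤ, (z = 1 ∨ z = -1) ∧ 0 ≤ s ∧ s ≤ q.k ∧ ∃ bb,
      MCn M (FrL (2 * m * q.n) q.k) (Rws m') (fc κ (cS j), b)
        (trs (2 * m * q.n) z (s, -s), bb) := by
  have hW := q.hW
  have hh := q.hh
  have hk1 := q.hk
  have hn := q.hn
  have hs := q.s_eq
  have e1 := period_large q hm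
  rw [expand] at e1
  have e2 : 0 ≤ m * q.k := by positivity
  have e3 : m * 5 ≤ m * q.W := mul_le_mul_of_nonneg_left hW (by omega)
  have e4 : m * 5 ≤ m * q.h := mul_le_mul_of_nonneg_left hh (by omega)
  have eW : 2 * m * q.W = 2 * (m * q.W) := by ring
  have eh : 2 * m * q.h = 2 * (m * q.h) := by ring
  have hD1 : ∀ v ∈ D, -(2 * m * q.W) ≤ v.1 ∧ v.1 ≤ 2 * m * q.W - 1 := by
    intro v hv
    have := hD v hv
    omega
  have hFr : ∀ x, -(2 * m * q.W) - 1 ≤ x → x ≤ 2 * m * q.W - 1 + 1 → (x ≤ 0 ∨ q.k ≤ x) →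
      FrL (2 * m * q.n) q.k x := by
    intro x h1 h2 h3
    exact frL_small (by omega) (by omega) (by omega) h3
  have hvis : visited q.k c n ⊆ Rws m' := by
    intro v hv
    have h1 := hD v (h.visited_sub hv)
    have h2 : m * (2 * q.W + 2 * q.h + 30) ≤ m * (q.s + 4) :=
      mul_le_mul_of_nonneg_left (by omega) (by omega)
    have h3 : m * (2 * q.W + 2 * q.h + 30) = 2 * (m * q.W) + 2 * (m * q.h) + 30 * m := by ring
    unfold Rws
    simp only [Set.mem_ofPred_eq]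
    omega
  -- a foot joined to an end
  have step : ∀ {i j' κ' : ℤ} {b' : Bool} {x : Bool} {j0 : ℤ} {b0 : Bool}, 1 ≤ i → i ≤ 2 * q.k →
      1 ≤ j' → j' ≤ q.k → fc κ' (cS j') = fc κ' (cS j0) →
      (fc κ' (cS j0) ≠ cF 0 → fc κ' (cS j0) ≠ cF q.k → b' = b0) →
      (∃ g ∈ BdE κ' c n t j' b', Conn M (CB.Reg m {c | q.U i c}) (f i) g) → OkM (f i) x →
      MCn M (FrL (2 * m * q.n) q.k) (Rws m') (fc κ' (cS j0), b0) (f i, x) := by
    intro i j' κ' b' x j0 b0 hi1 hi2 hj1 hj2 hroot hb hg hx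
    obtain ⟨g, hg, hconn⟩ := hg
    have := h.root_to hD1 hFr hj1 hj2 hroot hb hg (U_free hm hk hi1 hi2) hconn (hl i hi1 hi2).2.1
      hx (fun e h0 => by
        rw [e] at h0 ⊢
        exact foot_free hm hk hi1 hi2 (hl i hi1 hi2).1 h0) (by omega) (by omega)
    exact this.mono (Set.union_subset hvis (U_rws hm hi1 hi2 hm'))
  obtain ⟨i, j', b', hi1, hi2, hj'1, hj'2, hroot, hb, hg⟩ := ha.root j hj1 hjk b κ
  obtain ⟨hin, hev, i', z, hi'1, hi'2, hz, hlane⟩ := hl i hi1 hi2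
  obtain ⟨κ', j'', b'', hj''1, hj''2, hg'⟩ := ha.foot i' hi'1 hi'2
  obtain ⟨x, hx⟩ := exists_okM (f i)
  obtain ⟨x', hx'⟩ := exists_okM (f i')
  have s1 := step hi1 hi2 hj'1 hj'2 hroot hb hg hx
  have s3 := step hi'1 hi'2 hj''1 hj''2 rfl (fun _ _ => rfl) hg' hx'
  have s2 : MCn M (FrL (2 * m * q.n) q.k) (Rws m') (f i, x)
      (trs (2 * m * q.n) z (f i'), x') := by
    have h1 : Conn M (CB.Reg m q.Out) (f i) (trs (2 * m * q.n) z (f i')) :=
      hlane.congr (fun v hv => hS2 v hv)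
    exact (MCn.of_conn h1 hev (Out_free hm hk) hx (hx'.trs _ _)
      (fun _ h0 => foot_free hm hk hi1 hi2 hin h0)).mono (Out_rws hm hm')
  have s4 := (s3.trs (R' := Rws m') (hM z) (fun x hx => frL_trs z x hx)
    (fun v hv => trs_rws hv)).symm
  obtain ⟨s, hs0, hsk, hs⟩ : ∃ s : ℤ, 0 ≤ s ∧ s ≤ q.k ∧ fc κ' (cS j'') = (s, -s) := by
    rw [fc_cS]
    split_ifs
    · exact ⟨j'', by omega, hj''2, rfl⟩
    · exact ⟨j'' - 1, by omega, by omega, rfl⟩
  refine ⟨z, s, hz, hs0, hsk, b'', ?_⟩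
  rw [hs] at s4
  exact s1.trans (s2.trans s4)

/-- **Far exits**: the hypothesis on the marked corners of the cut ends in `arm_of_conn`. -/
theorem toOdd_of (hm : 1 ≤ m) (hk : q.k + 2 ≤ 4 * m)
    (hM : ∀ z v, M (trs (2 * m * q.n) z v) ↔ M v) (h : Arms M q.k D c n t) (hD : InBox q m D)
    (hS2 : ∀ v ∈ CB.Reg m q.Out, (M v ↔ v ∈ S2)) (hl : Lanes q m S2 f)
    (ha : Attach M q m c n t f) {L kk mm : ℕ} (hL : (L : ℤ) = 2 * m * q.n) (hkk : (kk : ℤ) = q.k)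
    (hmm : m * (q.s + 4) ≤ mm) (d : H81Tile.DS) (x : ℤ) (hx0 : 0 ≤ x) (hxk : x < kk)
    (hd : d = H81Tile.up x 0 ∨ d = H81Tile.dn x 0) :
    ToOdd (tcM M) L kk mm (H81Tile.lc d, H81Tile.mk d) ∧
      ToOdd (tcM M) L kk mm (H81Tile.rc d, H81Tile.mk d) := by
  have key : ∀ (s0 : ℤ) (b : Bool) (κ j : ℤ), 1 ≤ j → j ≤ q.k → fc κ (cS j) = cF s0 →
      ToOdd (tcM M) L kk mm ((s0, 0), b) := by
    intro s0 b κ j h1 h2 h3
    obtain ⟨z, s, hz, hs0, hsk, bb, hc⟩ := root_to_root hm hk hmm hM h hD hS2 hl ha h1 h2 b κ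
    have e0 : cF s0 = fF (s0, 0) := by
      unfold cF fF
      ext <;> simp
    rw [h3, e0, ← hL, ← hkk] at hc
    obtain ⟨v, hv, hmc⟩ := mcn_mconn (m := mm) (fun w hw => hw) hc
    refine ⟨z, s, by omega, hs0, by omega, bb, ?_⟩
    have e1 : v = (z * L + s, 0) := by
      apply H81Tile.fF_inj
      rw [← hv]
      unfold fF trs
      ext
      · simp only
        ring
      · simp only
        ring
    rw [← e1]
    exact hmc
  have k1 : ∀ b, ToOdd (tcM M) L kk mm ((x, 0), b) := fun b =>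
    key x b (x + 2) (x + 1) (by omega) (by omega) (by
      rw [fc_cS, if_neg (by omega), show x + 1 - 1 = x by ring])
  have k2 : ∀ b, ToOdd (tcM M) L kk mm ((x + 1, 0), b) := fun b =>
    key (x + 1) b (x + 1) (x + 1) (by omega) (by omega) (by
      rw [fc_cS, if_pos (by omega)])
  rcases hd with rfl | rfl
  · have e1 : H81Tile.lc (H81Tile.up x 0) = (x, 0) := by
      simp [H81Tile.lc, H81Tile.up, H81Tile.cor, H81Tile.co]
    have e2 : H81Tile.rc (H81Tile.up x 0) = (x + 1, 0) := by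
      simp [H81Tile.rc, H81Tile.up, H81Tile.cor, H81Tile.co]
    rw [e1, e2]
    exact ⟨k1 _, k2 _⟩
  · have e1 : H81Tile.lc (H81Tile.dn x 0) = (x + 1, 0) := by
      simp [H81Tile.lc, H81Tile.dn, H81Tile.cor, H81Tile.co]
    have e2 : H81Tile.rc (H81Tile.dn x 0) = (x, 0) := by
      simp [H81Tile.rc, H81Tile.dn, H81Tile.cor, H81Tile.co]
    rw [e1, e2]
    exact ⟨k2 _, k1 _⟩

/-- the tile configuration is periodic -/
lemma per_tcM (hM : ∀ z v, M (trs (2 * m * q.n) z v) ↔ M v) {L : ℕ}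
    (hL : (L : ℤ) = 2 * m * q.n) : H81Tile.Per L (tcM M) := by
  intro p
  have h1 : fT (p.1 + (L : ℤ), p.2) = trs (2 * m * q.n) 1 (fT p) := by
    unfold fT trs
    rw [hL]
    ext <;> simp only <;> ring
  unfold tcM
  rw [decide_eq_decide, h1]
  exact hM 1 _

/-- a winding connection above or below the line -/
lemma wind_of (hM : ∀ z v, M (trs (2 * m * q.n) z v) ↔ M v) {L : ℕ}
    (hL : (L : ℤ) = 2 * m * q.n) {R : Set (ℤ × ℤ)} (hR : ∀ v ∈ R, (M v ↔ v ∈ S2)) {a b : ℤ}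
    (hR2 : ∀ v ∈ R, 2 * a < v.1 + v.2 ∧ v.1 + v.2 < 2 * b) {g : ℤ × ℤ}
    (hg : (g.1 + g.2) % 2 = 0)
    (hc : Conn (· ∈ S2) R g (g.1 + 2 * m * q.n, g.2 - 2 * m * q.n)) :
    Wind (tcM M) L a b := by
  obtain ⟨u, hu⟩ := H81Tile.exists_fF (f := g) (Int.even_iff.2 hg)
  have h1 : Conn M R (fF u) (fF (u.1 + (L : ℤ), u.2)) := by
    have e : fF (u.1 + (L : ℤ), u.2) = (g.1 + 2 * m * q.n, g.2 - 2 * m * q.n) := by
      rw [hu]
      unfold fF
      rw [hL]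
      ext <;> simp only <;> ring
    rw [e, ← hu]
    exact hc.congr hR
  refine H81Tile.Wind.of_one (per_tcM hM hL) (u := u) ?_
  refine (H81Tile.cconn_iff.2 h1).mono ?_
  intro p hp
  have := hR2 _ hp
  unfold fT at this
  unfold H81Tile.rows
  simp only [Set.mem_ofPred_eq] at this ⊢
  omega

/-- **Far exits, final form**: the hypotheses of `arm_of_conn`. -/
theorem far_final (hm : 1 ≤ m) (hk : q.k + 2 ≤ 4 * m)
    (hM : ∀ z v, M (trs (2 * m * q.n) z v) ↔ M v) (h : Arms M q.k D c n t) (hD : InBox q m D)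
    (hS2 : ∀ v ∈ CB.Reg m q.Out, (M v ↔ v ∈ S2)) {k0 : ℤ} (hev : CB.LaneEv q m k0 S2)
    (ha : ∀ f g : ℤ → ℤ × ℤ, (∀ i, 1 ≤ i → i ≤ 2 * q.k →
      CB.InC m (q.fx i, q.fy i) (f i) ∧ CB.InC m (q.fx' i, q.fy i) (g i) ∧
      CB.Col (i + k0) (f i) ∧ CB.Col (i + k0) (g i) ∧
      Conn (· ∈ S2) (CB.Reg m {c | q.U i c}) (f i) (g i)) → Attach M q m c n t f)
    {L kk mm : ℕ} (hL : (L : ℤ) = 2 * m * q.n) (hkk : (kk : ℤ) = q.k)
    (hmm : m * (q.s + 4) ≤ mm) :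
    H81Tile.Per L (tcM M) ∧ Wind (tcM M) L 0 mm ∧ Wind (tcM M) L (-mm) 0 ∧
      ∀ (d : H81Tile.DS) (x : ℤ), 0 ≤ x → x < kk → (d = H81Tile.up x 0 ∨ d = H81Tile.dn x 0) →
        ToOdd (tcM M) L kk mm (H81Tile.lc d, H81Tile.mk d) ∧
          ToOdd (tcM M) L kk mm (H81Tile.rc d, H81Tile.mk d) := by
  obtain ⟨⟨f, g, hfg⟩, ⟨fu, hfu, hcu⟩, ⟨fd, hfd, hcd⟩⟩ := hev
  have hA := ha f g (fun i h1 h2 => by
    obtain ⟨a1, a2, a3, a4, a5, -⟩ := hfg i h1 h2
    exact ⟨a1, a2, a3, a4, a5⟩)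
  have hcolev : ∀ {κ : ℤ} {g : ℤ × ℤ}, CB.Col κ g → (g.1 + g.2) % 2 = 0 := by
    intro κ g hg
    unfold CB.Col at hg
    omega
  have hl : Lanes q m S2 f := by
    intro i h1 h2
    obtain ⟨a1, a2, a3, a4, a5, i', z, b1, b2, b3, b4⟩ := hfg i h1 h2
    exact ⟨a1, hcolev a3, i', z, b1, b2, b3, b4⟩
  refine ⟨per_tcM hM hL, ?_, ?_, fun d x h0 h1 hd => toOdd_of hm hk hM h hD hS2 hl hA hL hkk hmm
    d x h0 h1 hd⟩
  · refine wind_of (a := 0) (b := mm) hM hL (R := CB.Reg m {c | c ∈ q.Out ∧ 1 ≤ c.1 + c.2})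
      (fun v hv => hS2 v ?_) ?_ (hcolev hfu) hcu
    · obtain ⟨c, hc, hv⟩ := hv
      exact ⟨c, hc.1, hv⟩
    · intro v hv
      have hv' : v ∈ CB.Reg m q.Out := by
        obtain ⟨c, hc, hv⟩ := hv
        exact ⟨c, hc.1, hv⟩
      have h1 := Out_rws hm hmm hv'
      unfold Rws at h1
      simp only [Set.mem_ofPred_eq] at h1
      refine ⟨?_, by omega⟩
      obtain ⟨c, hc, v1, v2, v3, v4⟩ := hv
      have e1 : 2 * m * 1 ≤ 2 * m * (c.1 + c.2) := two_mul_le hm hc.2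
      have e2 : 2 * m * (c.1 + c.2) = 2 * m * c.1 + 2 * m * c.2 := by ring
      omega
  · refine wind_of (a := -mm) (b := 0) hM hL (R := CB.Reg m {c | c ∈ q.Out ∧ c.1 + c.2 ≤ -3})
      (fun v hv => hS2 v ?_) ?_ (hcolev hfd) hcd
    · obtain ⟨c, hc, hv⟩ := hv
      exact ⟨c, hc.1, hv⟩
    · intro v hv
      have hv' : v ∈ CB.Reg m q.Out := by
        obtain ⟨c, hc, hv⟩ := hv
        exact ⟨c, hc.1, hv⟩
      have h1 := Out_rws hm hmm hv'
      unfold Rws at h1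
      simp only [Set.mem_ofPred_eq] at h1
      refine ⟨by omega, ?_⟩
      obtain ⟨c, hc, v1, v2, v3, v4⟩ := hv
      have e1 : 2 * m * (c.1 + c.2 + 2) ≤ 2 * m * (-1) := two_mul_le hm (by
        have := hc.2
        omega)
      have e2 : 2 * m * (c.1 + c.2 + 2) = 2 * m * (c.1 + 1) + 2 * m * (c.2 + 1) := by ring
      omega

end

end TA
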