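import Pool.Agent.Helper47.Arms.KBeta3

/-!
General `k`: the attachment lemma.
-/

set_option autoImplicit false

namespace TA

/-- following a path of joined tiles of `M'` in the configuration `M''`, general invariant -/
theorem inv_walkA {α : Type*} {M' M'' : ℤ × ℤ → Prop} {R T B : Set (ℤ × ℤ)} (sg : ℤ × ℤ → α)
    {κ : ℤ} {s : α}
    (h1 : ∀ v ∈ R, v ∉ T → (M'' v ↔ M' v) ∧
      ∀ f g, Opp f g v → (f.1 + f.2) % 2 = 0 → sg f = sg g)
    (h2 : ∀ v ∈ R, v ∈ T → ∀ f g, StpV M'' f g v → (f.1 + f.2) % 2 = 0 → sg f = sg g)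
    (h3 : ∀ v ∈ R, v ∈ T → ∀ f g, Opp f g v → ¬ StpV M'' f g v → (f.1 + f.2) % 2 = 0 →
      (f.1 + κ) % 2 = 0 → sg f = s → f ∈ B)
    {a b : ℤ × ℤ} (hw : Conn M' R a b) (ha : (a.1 + a.2) % 2 = 0) (hk : (a.1 + κ) % 2 = 0)
    (hs : sg a = s) :
    (∃ f ∈ B, Conn M'' R a f ∧ sg f = s) ∨ (Conn M'' R a b ∧ sg b = s) := by
  induction hw with
  | refl => exact Or.inr ⟨Conn.refl _, hs⟩
  | @tail b' b hw' hst ih =>
    rcases ih with ih | ⟨ih1, ih2⟩
    · exact Or.inl ih
    · have hc := Conn.color (show Conn M' R a b' from hw')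
      obtain ⟨v, hv, hst⟩ := hst
      have hb' : (b'.1 + b'.2) % 2 = 0 := by omega
      have hk' : (b'.1 + κ) % 2 = 0 := by omega
      by_cases hT : v ∈ T
      · by_cases hS : StpV M'' b' b v
        · right
          exact ⟨ih1.trans (Relation.ReflTransGen.single ⟨v, hv, hS⟩),
            (h2 v hv hT b' b hS hb') ▸ ih2⟩
        · exact Or.inl ⟨b', h3 v hv hT b' b hst.1 hS hb' hk' ih2, ih1, ih2⟩
      · obtain ⟨e1, e2⟩ := h1 v hv hT
        right
        exact ⟨ih1.trans (Relation.ReflTransGen.single ⟨v, hv, hst.congr e1⟩),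
          (e2 b' b hst.1 hb') ▸ ih2⟩

section

variable {M : ℤ × ℤ → Prop} {k : ℤ} {D : Set (ℤ × ℤ)} {c : ℤ → ℕ → ℤ × ℤ} {n t : ℤ → ℕ} {hh : ℤ}
  {r r' : ℤ → Ray} {A B : ℤ → ℤ × ℤ}

lemma ArmsE.halfU (h : ArmsE M k D c n t hh r r') : Half M k D c n t hh r r' cD cU :=
  ⟨Or.inl ⟨rfl, rfl⟩, h.traj, h.lt, h.at0, h.at1, h.cut, h.ends, h.cutU, h.cutD⟩

lemma ArmsE.halfD (h : ArmsE M k D c n t hh r r') :
    Half M k D (fun j q => c j (n j - q)) n (fun j => n j - 1 - t j) hh r' r cU cD := by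
  refine ⟨Or.inr ⟨rfl, rfl⟩, fun j h1 h2 => (h.traj j h1 h2).rev, fun j h1 h2 => ?_,
    fun j h1 h2 => ?_, fun j h1 h2 => ?_, fun i j h1 h2 h3 h4 hij s hs => ?_,
    fun j h1 h2 => (h.ends j h1 h2).rev (h.traj j h1 h2), h.cutU, h.cutD⟩
  · have := h.lt j h1 h2
    omega
  · have := h.lt j h1 h2
    show c j (n j - (n j - 1 - t j)) = cU j
    rw [show n j - (n j - 1 - t j) = t j + 1 by omega, h.at1 j h1 h2]
  · have := h.lt j h1 h2
    show c j (n j - (n j - 1 - t j + 1)) = cD j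
    rw [show n j - (n j - 1 - t j + 1) = t j by omega, h.at0 j h1 h2]
  · show sq (c j (n j - s)) (c j (n j - (s + 1))) ≠ cS i
    rw [sq_comm, show n j - s = n j - (s + 1) + 1 by omega]
    exact h.cut i j h1 h2 h3 h4 hij _ (by omega)

/-- the walk lemma for `k` trajectories with an additional invariant -/
theorem ArmsE.walk {M' M'' : ℤ × ℤ → Prop} (h : ArmsE M k D c n t hh r r')
    (hin : ∀ v ∈ visited k c n, (M'' v ↔ M v)) {R : Set (ℤ × ℤ)}
    (hR : ∀ v ∈ R, ∀ j, 1 ≤ j → j ≤ k →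
      (r j).Off v ∧ (r' j).Off v ∧ c j 0 ≠ v ∧ c j (n j) ≠ v)
    (hR2 : ∀ v ∈ R, v ∉ visited k c n → (M'' v ↔ M' v))
    (bet : ℤ × ℤ → ZMod 2)
    (hb1 : ∀ v ∈ R, v ∉ visited k c n → ∀ f g, Opp f g v → (f.1 + f.2) % 2 = 0 → bet f = bet g)
    (hb2 : ∀ v ∈ R, v ∈ visited k c n → ∀ f g, StpV M f g v → (f.1 + f.2) % 2 = 0 → bet f = bet g)
    {a g : ℤ × ℤ} (hw : Conn M' R a g) (ha : (a.1 + a.2) % 2 = 0)
    {κ : ℤ} (hκ : (a.1 + κ) % 2 = 0) {m : ℤ} (hm0 : 0 ≤ m) (hmk : m ≤ k) (hm : (m + κ) % 2 = 0)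
    (hs : ∀ i, 1 ≤ i → i ≤ k → sg c n r r' i a = sg c n r r' i (cF m))
    {i0 : ℤ} (hi1 : 1 ≤ i0) (hik : i0 ≤ k) (hne : sg c n r r' i0 a ≠ sg c n r r' i0 g) :
    ∃ i s, 1 ≤ i ∧ i ≤ k ∧ s < n i ∧ fc κ (cS i) = cF m ∧
      Conn M'' R a (fc κ (sq (c i s) (c i (s + 1)))) ∧
      bet (fc κ (sq (c i s) (c i (s + 1)))) = bet a := by
  classical
  obtain ⟨φ, hφ⟩ : ∃ φ : ℤ × ℤ → (ℤ → ZMod 2) × ZMod 2,
      φ = fun f => (fun i => if 1 ≤ i ∧ i ≤ k then sg c n r r' i f else 0, bet f) := ⟨_, rfl⟩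
  have φ1 : ∀ f g, φ f = φ g → (∀ i, 1 ≤ i → i ≤ k → sg c n r r' i f = sg c n r r' i g) ∧
      bet f = bet g := by
    intro f g e
    rw [hφ] at e
    simp only [Prod.mk.injEq] at e
    refine ⟨fun i h1 h2 => ?_, e.2⟩
    have := congrFun e.1 i
    simpa only [h1, h2, and_self, if_true] using this
  have φ2 : ∀ f g, (∀ i, 1 ≤ i → i ≤ k → sg c n r r' i f = sg c n r r' i g) →
      bet f = bet g → φ f = φ g := by
    intro f g e1 e2
    rw [hφ]
    simp only [Prod.mk.injEq]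
    refine ⟨?_, e2⟩
    funext i
    split_ifs with hi
    · exact e1 i hi.1 hi.2
    · rfl
  have hstep : ∀ v ∈ R, v ∈ visited k c n → ∀ f g, StpV M f g v → (f.1 + f.2) % 2 = 0 →
      φ f = φ g := by
    intro v hv hT f g hst hf
    refine φ2 f g (fun i h1 h2 => ?_) (hb2 v hv hT f g hst hf)
    obtain ⟨r1, r2, n1, n2⟩ := hR v hv i h1 h2
    obtain ⟨i', h1', h2', hT'⟩ := hT
    have hvD : v ∈ D := (h.traj i' h1' h2').inner_sub hT'
    exact (h.traj i h1 h2).sd_step ((h.ends i h1 h2).at0 (h.traj i h1 h2))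
      ((h.ends i h1 h2).atn (h.traj i h1 h2)) hvD hst hf r1 r2
  have hmain := inv_walkA (T := visited k c n) (B := BdA k κ c n) φ (κ := κ) (s := φ a)
    (M' := M') (M'' := M'') (R := R) ?_ ?_ ?_ hw ha hκ rfl
  · rcases hmain with ⟨f, ⟨i, h1, h2, s, hsn, hf⟩, hc, hφf⟩ | ⟨-, e⟩
    · obtain ⟨e1, e2⟩ := φ1 _ _ hφf
      refine ⟨i, s, h1, h2, hsn, ?_, hf ▸ hc, hf ▸ e2⟩
      -- the root
      obtain ⟨j', hj', hj0', hjk', hfc⟩ : ∃ j', (j' + κ) % 2 = 0 ∧ 0 ≤ j' ∧ j' ≤ k ∧
          fc κ (cS i) = cF j' := by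
        rw [fc_cS]
        by_cases hp : (i + κ) % 2 = 0
        · exact ⟨i, hp, by omega, h2, by rw [if_pos hp]⟩
        · exact ⟨i - 1, by omega, by omega, by omega, by rw [if_neg hp]⟩
      rw [hfc]
      have hall : ∀ i', 1 ≤ i' → i' ≤ k → sg c n r r' i' (cF m) = sg c n r r' i' (cF j') := by
        intro i' h1' h2'
        rw [← hs i' h1' h2', ← e1 i' h1' h2', hf, h.sg_bd h1' h2' h1 h2 κ s hsn, hfc]
      rcases lt_trichotomy m j' with hlt | heq | hlt
      · exact absurd (hall j' (by omega) hjk') (h.cF_ne hm0 hlt hjk')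
      · rw [heq]
      · exact absurd (hall m (by omega) hmk).symm (h.cF_ne hj0' hlt hmk)
    · exact absurd ((φ1 _ _ e).1 i0 hi1 hik).symm hne
  · intro v hv hT
    refine ⟨hR2 v hv hT, fun f g ho hf => φ2 f g (fun i h1 h2 => ?_) (hb1 v hv hT f g ho hf)⟩
    obtain ⟨r1, r2, n1, n2⟩ := hR v hv i h1 h2
    refine sd_off (h.path h1 h2) (ho.tile hf) ho ?_ r1 r2
    intro s hs' e
    rcases Nat.eq_zero_or_pos s with h0 | h0
    · exact n1 (h0 ▸ e)
    · rcases Nat.lt_or_ge s (n i) with h3 | h3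
      · exact hT ⟨i, h1, h2, s, h0, h3, e⟩
      · have : s = n i := by omega
        exact n2 (this ▸ e)
  · intro v hv hT f g hst hf
    exact hstep v hv hT f g (hst.congr (hin v hT).symm) hf
  · intro v hv hT f g ho hn hf hk' hfs
    have hn' : ¬ StpV M f g v := fun e => hn (e.congr (hin v hT))
    have e1 := (φ1 _ _ hfs).1
    exact h.sector hT ho hn' hf hk' hm0 hmk hm fun i h1 h2 => by rw [e1 i h1 h2, hs i h1 h2]

/-- values of the side functions beyond the slab -/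
lemma ArmsE.sg_val (h : ArmsE M k D c n t hh r r') {i : ℤ} (h1 : 1 ≤ i) (h2 : i ≤ k) {f : ℤ × ℤ}
    (hf : (f.1 + f.2) % 2 = 0) {p : Pos} (hp : AtP hh f p) :
    sg c n r r' i f = pv r r' p i false + pv r r' p i true := by
  unfold sg
  rw [(h.ends i h1 h2).val2 (h.traj i h1 h2) hf hp.2]
  unfold ind pv er
  rw [hp.1]
  rfl

/-- the face of colour `κ` at the exit edge of the end `(j, b)` -/
lemma ArmsE.exit_faceA (h : ArmsE M k D c n t hh r r') {j : ℤ} (h1 : 1 ≤ j) (h2 : j ≤ k)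
    (κ : ℤ) (b : Bool) : AtP hh (fc κ (if b then sq (c j (n j - 1)) (c j (n j)) else
      sq (c j 0) (c j 1))) (exP r r' κ j b) := by
  have he := h.ends j h1 h2
  have ht := h.traj j h1 h2
  have hn := he.n2 ht
  unfold AtP exP er
  cases b
  · have hl := (he.rev ht).last ht.rev κ
    rw [Nat.sub_self, show n j - (n j - 1) = 1 by omega, sq_comm] at hl
    simp only [Bool.false_eq_true, if_false]
    exact ⟨hl.2.symm, hl.1⟩
  · have hl := he.last ht κ
    simp only [if_true]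
    exact ⟨hl.2.symm, hl.1⟩

lemma SG.sum {p q : Pos} (h : SG k r r' p q) {i i' : ℤ} {b b' : Bool} (h1 : 1 ≤ i) (h2 : i ≤ k)
    (h1' : 1 ≤ i') (h2' : i' ≤ k) :
    pv r r' p i b + pv r r' p i' b' = pv r r' q i b + pv r r' q i' b' := by
  rcases h with h | h
  · rw [h i h1 h2 b, h i' h1' h2' b']
  · have e1 := h i h1 h2 b
    have e2 := h i' h1' h2' b'
    exact (show ∀ x y x' y' : ZMod 2, x + y = 1 → x' + y' = 1 → x + x' = y + y' by decide)
      _ _ _ _ e1 e2

/-- the conclusion about the side of the cut -/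
lemma Half.part (h : Half M k D c n t hh r r' A B) {m : ℤ} (h1 : 1 ≤ m) (h2 : m + 1 ≤ k)
    {κ : ℤ} (hκ : (m + κ) % 2 = 0) {i : ℤ} (hi : i = m ∨ i = m + 1) {s : ℕ} (hs : s < n i)
    (hb : be c n t r' A B m (fc κ (sq (c i s) (c i (s + 1)))) = be c n t r' A B m (cF m) + 1) :
    t i < s := by
  by_contra hc
  have e := h.along h1 h2 (j := i) (by omega) (by omega) hi hκ s hs
  rw [if_neg hc, hb] at e
  by_cases hf : sq (c i s) (c i (s + 1)) = frS B m
  · have hfc : fc κ (frS B m) = cF m := by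
      rcases h.ab.fr m with ⟨-, -, fr⟩ | ⟨-, -, fr⟩ <;> rw [fr] <;> unfold cF <;>
        apply fc_uniq <;> first | (simp only; omega) | simp
    rw [hf, hfc] at hb
    exact (show ∀ x : ZMod 2, x ≠ x + 1 by decide) _ hb
  · rw [if_neg hf] at e
    exact (show ∀ x : ZMod 2, x + 1 + 0 ≠ x + 0 by decide) _ e

/-- the exit face has the other value of the side function -/
lemma Half.exit_val (h : Half M k D c n t hh r r' A B) {m : ℤ} (h1 : 1 ≤ m) (h2 : m + 1 ≤ k)
    {κ : ℤ} (hκ : (m + κ) % 2 = 0) {i : ℤ} (hi : i = m ∨ i = m + 1) :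
    be c n t r' A B m (fc κ (sq (c i (n i - 1)) (c i (n i)))) = be c n t r' A B m (cF m) + 1 := by
  have hi1 : 1 ≤ i := by omega
  have hik : i ≤ k := by omega
  have ht := h.traj i hi1 hik
  have hl := h.lt i hi1 hik
  have hB := h.B_mem hi1 hik
  have hn2 : t i + 1 < n i := by
    by_contra hc
    have e : t i + 1 = n i := by omega
    have := ht.outn
    rw [← e, h.at1 i hi1 hik] at this
    exact this hB
  have e := h.along h1 h2 hi1 hik hi hκ (n i - 1) (by omega)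
  rw [show n i - 1 + 1 = n i by omega, if_pos (show t i < n i - 1 by omega)] at e
  have hne : sq (c i (n i - 1)) (c i (n i)) ≠ frS B m := by
    intro hf
    have hd := ht.diags (n i - 1) (by omega)
    rw [show n i - 1 + 1 = n i by omega] at hd
    have hBt : IsTile (B m) := by
      have := (arc_pathT h.ab m).tiles 1 (by omega)
      rwa [arcf1] at this
    have hBd : Diag (B m) (B (m + 1)) := by
      have := (arc_pathT h.ab m).diags 1 (by omega)
      rwa [show (1 : ℕ) + 1 = 2 from rfl, arcf1, arcf2] at this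
    rcases sq_eq_cases (ht.tiles _ (by omega)) hd hBt hBd hf with ⟨-, e'⟩ | ⟨-, e'⟩
    · exact ht.outn (e' ▸ h.B_mem (by omega) h2)
    · exact ht.outn (e' ▸ h.B_mem h1 (by omega))
  rw [if_neg hne, add_zero] at e
  exact e

/-- **Attachment.** `a` is a face of colour `κ` beyond the slab in the gap next to the exit of the
end `(j, b)`, on its side of colour `κ`; in `M'` it is joined through `R` to a face `g` beyond the
slab in another sector (e.g. across the ray of one exit). Then in `M''` the face `a` is joined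
through `R` to the boundary of the end `(j, b)` or of the neighbouring end with the same root. -/
theorem attach_stmt {M M' M'' : ℤ × ℤ → Prop} {k : ℤ} {D : Set (ℤ × ℤ)} {c : ℤ → ℕ → ℤ × ℤ}
    {n t : ℤ → ℕ} {hh : ℤ} {r r' : ℤ → Ray} (h : ArmsE M k D c n t hh r r')
    (hin : ∀ v ∈ visited k c n, (M'' v ↔ M v)) {R : Set (ℤ × ℤ)}
    (hR : ∀ v ∈ R, ∀ j, 1 ≤ j → j ≤ k →
      (r j).Off v ∧ (r' j).Off v ∧ c j 0 ≠ v ∧ c j (n j) ≠ v ∧ cU j ≠ v ∧ cD j ≠ v)
    (hR2 : ∀ v ∈ R, v ∉ visited k c n → (M'' v ↔ M' v))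
    {a g : ℤ × ℤ} {p q : Pos} (hw : Conn M' R a g) (ha : (a.1 + a.2) % 2 = 0)
    (hap : AtP hh a p) (hgq : AtP hh g q) {κ : ℤ} (hκ : (a.1 + κ) % 2 = 0)
    {j : ℤ} (hj1 : 1 ≤ j) (hjk : j ≤ k) {b : Bool} (hsg : SG k r r' p (exP r r' κ j b))
    {i : ℤ} (hi1 : 1 ≤ i) (hik : i ≤ k)
    (hne : pv r r' p i false + pv r r' p i true ≠ pv r r' q i false + pv r r' q i true) :
    ∃ j' b', 1 ≤ j' ∧ j' ≤ k ∧ fc κ (cS j') = fc κ (cS j) ∧
      (fc κ (cS j) ≠ cF 0 → fc κ (cS j) ≠ cF k → b' = b) ∧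
      ∃ f ∈ BdE κ c n t j' b', Conn M'' R a f := by
  have hgc := hw.color
  -- the root
  obtain ⟨m, hm, hm0, hmk, hfc⟩ : ∃ m, (m + κ) % 2 = 0 ∧ 0 ≤ m ∧ m ≤ k ∧ fc κ (cS j) = cF m := by
    rw [fc_cS]
    by_cases hp : (j + κ) % 2 = 0
    · exact ⟨j, hp, by omega, hjk, by rw [if_pos hp]⟩
    · exact ⟨j - 1, by omega, by omega, by omega, by rw [if_neg hp]⟩
  have hef := h.exit_faceA hj1 hjk κ b
  have hefp := (fc_spec κ (if b then sq (c j (n j - 1)) (c j (n j)) else
      sq (c j 0) (c j 1))).2.1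
  have hs : ∀ i, 1 ≤ i → i ≤ k → sg c n r r' i a = sg c n r r' i (cF m) := by
    intro i h1 h2
    rw [h.sg_val h1 h2 ha hap, hsg.sum h1 h2 h1 h2, ← h.sg_val h1 h2 hefp hef, ← hfc]
    have hn := (h.ends j hj1 hjk).n2 (h.traj j hj1 hjk)
    cases b
    · simp only [Bool.false_eq_true, if_false]
      exact h.sg_bd h1 h2 hj1 hjk κ 0 (by omega)
    · simp only [if_true]
      have := h.sg_bd h1 h2 hj1 hjk κ (n j - 1) (by omega)
      rwa [show n j - 1 + 1 = n j by omega] at this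
  have hne' : sg c n r r' i a ≠ sg c n r r' i g := by
    rw [h.sg_val hi1 hik ha hap, h.sg_val hi1 hik (by omega) hgq]
    exact hne
  have hR' : ∀ v ∈ R, ∀ j, 1 ≤ j → j ≤ k →
      (r j).Off v ∧ (r' j).Off v ∧ c j 0 ≠ v ∧ c j (n j) ≠ v := by
    intro v hv j h1 h2
    obtain ⟨x1, x2, x3, x4, -, -⟩ := hR v hv j h1 h2
    exact ⟨x1, x2, x3, x4⟩
  rw [hfc]
  by_cases hout : m = 0 ∨ m = k
  · -- outer root: no condition on the side of the cut
    obtain ⟨i', s, a1, a2, a3, a4, a5, -⟩ := h.walk hin hR' hR2 (fun _ => 0) (fun _ _ _ _ _ _ _ => rfl)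
      (fun _ _ _ _ _ _ _ => rfl) hw ha hκ hm0 hmk hm hs hi1 hik hne'
    refine ⟨i', decide (t i' ≤ s), a1, a2, a4, ?_, _, ⟨s, a3, ?_, rfl⟩, a5⟩
    · intro e1 e2
      rcases hout with rfl | rfl
      · exact absurd rfl e1
      · exact absurd rfl e2
    · by_cases hts : t i' ≤ s
      · simp only [hts, decide_true, if_true]
      · simp only [hts, decide_false, Bool.false_eq_true, if_false]
        omega
  · have hm1 : 1 ≤ m := by omega
    have hm2 : m + 1 ≤ k := by omega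
    have hjm : j = m ∨ j = m + 1 := by
      rw [fc_cS] at hfc
      unfold cF at hfc
      split_ifs at hfc <;> rw [Prod.mk.injEq] at hfc <;> omega
    -- tiles outside
    have hout' : ∀ v ∈ R, v ∉ visited k c n → ∀ j, 1 ≤ j → j ≤ k → ∀ s ≤ n j, c j s ≠ v := by
      intro v hv hT j h1 h2 s hs' e
      obtain ⟨-, -, n1, n2, -, -⟩ := hR v hv j h1 h2
      rcases Nat.eq_zero_or_pos s with h0 | h0
      · exact n1 (h0 ▸ e)
      · rcases Nat.lt_or_ge s (n j) with h3 | h3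
        · exact hT ⟨j, h1, h2, s, h0, h3, e⟩
        · have : s = n j := by omega
          exact n2 (this ▸ e)
    have hvis : ∀ v ∈ visited k c n, v ∈ D := by
      rintro v ⟨i', h1', h2', hT'⟩
      exact (h.traj i' h1' h2').inner_sub hT'
    cases b
    · -- lower ends
      have hH := h.halfD
      obtain ⟨i', s, a1, a2, a3, a4, a5, a6⟩ := h.walk hin hR' hR2
        (be (fun j q => c j (n j - q)) n (fun j => n j - 1 - t j) r cU cD m)
        (fun v hv hT f g ho hf => hH.be_off hm1 hm2 ho hf fun j h1 h2 =>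
          ⟨(hR v hv j h1 h2).1, fun s hs' => hout' v hv hT j h1 h2 _ (Nat.sub_le _ _),
            (hR v hv j h1 h2).2.2.2.2.1, (hR v hv j h1 h2).2.2.2.2.2⟩)
        (fun v hv hT f g hst hf => by
          have e := hH.be_step hm1 hm2 (hvis v hT) hst hf
          rw [if_neg] at e
          · exact add_eq_zero2 e
          · rintro ⟨-, e | e⟩
            · exact (hR v hv m hm1 (by omega)).2.2.2.2.2 e.symm
            · exact (hR v hv (m + 1) (by omega) hm2).2.2.2.2.2 e.symm)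
        hw ha hκ hm0 hmk hm hs hi1 hik hne'
      have him : i' = m ∨ i' = m + 1 := by
        rw [fc_cS] at a4
        unfold cF at a4
        split_ifs at a4 <;> rw [Prod.mk.injEq] at a4 <;> omega
      have hn := (h.ends j hj1 hjk).n2 (h.traj j hj1 hjk)
      have ev := hH.exit_val hm1 hm2 hm hjm
      simp only [Nat.sub_self] at ev
      rw [show n j - (n j - 1) = 1 by omega, sq_comm] at ev
      have va := hH.be_val hm1 hm2 ha (up := p.1) hap.2
      simp only [Bool.false_eq_true, if_false] at hef hefp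
      have ve := hH.be_val hm1 hm2 hefp (up := (exP r r' κ j false).1) hef.2
      have hsum := hsg.sum (i := m) (i' := m + 1) (b := false) (b' := false) hm1 (by omega)
        (by omega) hm2
      have hpa : ∀ (f : ℤ × ℤ) (p : Pos) (i : ℤ), AtP hh f p → ind (r i) p.1 f.1 =
          pv r r' p i false := by
        intro f p i hp
        unfold ind pv er
        rw [hp.1]
        rfl
      rw [hpa _ _ _ hap, hpa _ _ _ hap, hsum, ← hpa _ _ _ hef, ← hpa _ _ _ hef, ← ve, ev] at va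
      rw [va] at a6
      have e' : sq (c i' s) (c i' (s + 1)) =
          sq ((fun j q => c j (n j - q)) i' (n i' - 1 - s))
            ((fun j q => c j (n j - q)) i' (n i' - 1 - s + 1)) := by
        show _ = sq (c i' (n i' - (n i' - 1 - s))) (c i' (n i' - (n i' - 1 - s + 1)))
        rw [show n i' - (n i' - 1 - s) = s + 1 by omega,
          show n i' - (n i' - 1 - s + 1) = s by omega, sq_comm]
      rw [e'] at a6
      have hpart := hH.part hm1 hm2 hm him (s := n i' - 1 - s) (by omega) a6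
      refine ⟨i', false, a1, a2, a4, fun _ _ => rfl, _, ⟨s, a3, ?_, rfl⟩, a5⟩
      simp only [Bool.false_eq_true, if_false]
      have := h.lt i' a1 a2
      omega
    · -- upper ends
      have hH := h.halfU
      obtain ⟨i', s, a1, a2, a3, a4, a5, a6⟩ := h.walk hin hR' hR2 (be c n t r' cD cU m)
        (fun v hv hT f g ho hf => hH.be_off hm1 hm2 ho hf fun j h1 h2 =>
          ⟨(hR v hv j h1 h2).2.1, hout' v hv hT j h1 h2,
            (hR v hv j h1 h2).2.2.2.2.1, (hR v hv j h1 h2).2.2.2.2.2⟩)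
        (fun v hv hT f g hst hf => by
          have e := hH.be_step hm1 hm2 (hvis v hT) hst hf
          rw [if_neg] at e
          · exact add_eq_zero2 e
          · rintro ⟨-, e | e⟩
            · exact (hR v hv m hm1 (by omega)).2.2.2.2.1 e.symm
            · exact (hR v hv (m + 1) (by omega) hm2).2.2.2.2.1 e.symm)
        hw ha hκ hm0 hmk hm hs hi1 hik hne'
      have him : i' = m ∨ i' = m + 1 := by
        rw [fc_cS] at a4
        unfold cF at a4
        split_ifs at a4 <;> rw [Prod.mk.injEq] at a4 <;> omega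
      have ev := hH.exit_val hm1 hm2 hm hjm
      have va := hH.be_val hm1 hm2 ha (up := p.1) hap.2
      simp only [if_true] at hef hefp
      have ve := hH.be_val hm1 hm2 hefp (up := (exP r r' κ j true).1) hef.2
      have hsum := hsg.sum (i := m) (i' := m + 1) (b := true) (b' := true) hm1 (by omega)
        (by omega) hm2
      have hpa : ∀ (f : ℤ × ℤ) (p : Pos) (i : ℤ), AtP hh f p → ind (r' i) p.1 f.1 =
          pv r r' p i true := by
        intro f p i hp
        unfold ind pv er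
        rw [hp.1]
        rfl
      rw [hpa _ _ _ hap, hpa _ _ _ hap, hsum, ← hpa _ _ _ hef, ← hpa _ _ _ hef, ← ve, ev] at va
      rw [va] at a6
      have hpart := hH.part hm1 hm2 hm him (s := s) a3 a6
      refine ⟨i', true, a1, a2, a4, fun _ _ => rfl, _, ⟨s, a3, ?_, rfl⟩, a5⟩
      simp only [if_true]
      omega

end

end TA
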