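import Pool.Agent.Helper47.Arms.KDefs

/-!
General `k`: the side function of the curve formed by two neighbouring ends on the same side of the
cut, closed by a small arc around the common cut face.
-/

set_option autoImplicit false

namespace TA

/-! ### abstract side functions -/

/-- a side function with its jumps -/
structure SF (S T : ℤ → ℤ → ZMod 2) : Prop where
  jump : ∀ x y, T x y = S x y + S (x + 1) y
  ul : ∀ X Y, (X + Y) % 2 = 0 → S X (Y - 1) = S X Y

lemma SF.fc {S T : ℤ → ℤ → ZMod 2} (h : SF S T) (q : ℤ × ℤ) (κ : ℤ) :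
    S (fc κ q).1 (fc κ q).2 + S (fc (κ + 1) q).1 (fc (κ + 1) q).2 = T q.1 q.2 := by
  rw [h.jump]
  obtain ⟨x, y⟩ := q
  simp only
  rcases Int.emod_two_eq_zero_or_one (x + y) with hp | hp
  · have u1 := h.ul (x + 1) (y + 1) (by omega)
    rw [show y + 1 - 1 = y by ring] at u1
    rcases Int.emod_two_eq_zero_or_one (x + κ) with hq | hq
    · rw [fc_uniq (k := κ) (q := (x, y)) (f := (x, y)) (by simp only; omega) (by simp only; omega)
          (by simp) (by simp),
        fc_uniq (k := κ + 1) (q := (x, y)) (f := (x + 1, y + 1)) (by simp only; omega)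
          (by simp only; omega) (by simp) (by simp)]
      simp only
      rw [u1]
    · rw [fc_uniq (k := κ + 1) (q := (x, y)) (f := (x, y)) (by simp only; omega)
          (by simp only; omega) (by simp) (by simp),
        fc_uniq (k := κ) (q := (x, y)) (f := (x + 1, y + 1)) (by simp only; omega)
          (by simp only; omega) (by simp) (by simp)]
      simp only
      rw [u1, add_comm]
  · have u1 := h.ul x (y + 1) (by omega)
    rw [show y + 1 - 1 = y by ring] at u1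
    rcases Int.emod_two_eq_zero_or_one (x + κ) with hq | hq
    · rw [fc_uniq (k := κ) (q := (x, y)) (f := (x, y + 1)) (by simp only; omega)
          (by simp only; omega) (by simp) (by simp),
        fc_uniq (k := κ + 1) (q := (x, y)) (f := (x + 1, y)) (by simp only; omega)
          (by simp only; omega) (by simp) (by simp)]
      simp only
      rw [u1]
    · rw [fc_uniq (k := κ + 1) (q := (x, y)) (f := (x, y + 1)) (by simp only; omega)
          (by simp only; omega) (by simp) (by simp),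
        fc_uniq (k := κ) (q := (x, y)) (f := (x + 1, y)) (by simp only; omega)
          (by simp only; omega) (by simp) (by simp)]
      simp only
      rw [u1, add_comm]

/-- opposite faces of a tile -/
lemma SF.opp {S T : ℤ → ℤ → ZMod 2} (h : SF S T) {f g v : ℤ × ℤ} (hv : (v.1 + v.2) % 2 = 1)
    (ho : Opp f g v) :
    (f.2 = v.2 → S f.1 f.2 + S g.1 g.2 = T (v.1 - 1) v.2 + T v.1 v.2) ∧
    (f.2 ≠ v.2 → S f.1 f.2 + S g.1 g.2 = T v.1 (v.2 - 1) + T v.1 v.2) := by
  obtain ⟨f1, f2⟩ := f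
  obtain ⟨g1, g2⟩ := g
  obtain ⟨v1, v2⟩ := v
  simp only at hv ⊢
  have eH : S (v1 - 1) v2 + S (v1 + 1) v2 = T (v1 - 1) v2 + T v1 v2 := by
    rw [h.jump, h.jump, show v1 - 1 + 1 = v1 by ring]
    linear_combination - z2 (S v1 v2)
  have eV : S v1 (v2 - 1) + S v1 (v2 + 1) = T v1 (v2 - 1) + T v1 v2 := by
    have u1 := h.ul v1 (v2 + 1) (by omega)
    rw [show v2 + 1 - 1 = v2 by ring] at u1
    have u2 := h.ul (v1 + 1) v2 (by omega)
    rw [h.jump, h.jump, ← u1, u2]
    linear_combination - z2 (S (v1 + 1) v2)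
  unfold Opp at ho
  simp only at ho
  rcases ho with ⟨a, b, ⟨e1, e2⟩ | ⟨e1, e2⟩⟩ | ⟨a, b, ⟨e1, e2⟩ | ⟨e1, e2⟩⟩
  · subst a b e1 e2
    exact ⟨fun _ => eH, fun h' => absurd rfl h'⟩
  · subst a b e1 e2
    exact ⟨fun _ => by rw [add_comm]; exact eH, fun h' => absurd rfl h'⟩
  · subst a b e1 e2
    exact ⟨fun h' => by omega, fun _ => eV⟩
  · subst a b e1 e2
    exact ⟨fun h' => by omega, fun _ => by rw [add_comm]; exact eV⟩

/-! ### passes of a path at a tile -/

/-- a lattice path of tiles -/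
structure PathT (c : ℕ → ℤ × ℤ) (n : ℕ) : Prop where
  tiles : ∀ t ≤ n, IsTile (c t)
  diags : ∀ t < n, Diag (c t) (c (t + 1))

section

variable {c : ℕ → ℤ × ℤ} {n : ℕ}

lemma path_jump (c : ℕ → ℤ × ℤ) (n : ℕ) (x y : ℤ) :
    pas c n x y = pathS c n x y + pathS c n (x + 1) y := by
  unfold pas pathS
  rw [← Finset.sum_add_distrib]
  refine Finset.sum_congr rfl fun t _ => ?_
  by_cases h : sq (c t) (c (t + 1)) = (x, y)
  · rw [if_pos h, h, if_pos ⟨rfl, le_refl _⟩, if_neg (by simp), add_zero]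
  · rw [if_neg h]
    by_cases h2 : (sq (c t) (c (t + 1))).2 = y ∧ x + 1 ≤ (sq (c t) (c (t + 1))).1
    · rw [if_pos h2, if_pos ⟨h2.1, by omega⟩, z2]
    · rw [if_neg h2, if_neg, add_zero]
      rintro ⟨h3, h4⟩
      apply h2
      refine ⟨h3, ?_⟩
      rcases lt_or_eq_of_le h4 with h5 | h5
      · omega
      · exact absurd (Prod.ext h5.symm h3) h

lemma ray_jump (s : Ray) (x y : ℤ) : s.ras x y = s.rayS x y + s.rayS (x + 1) y := by
  unfold Ray.ras Ray.rayS
  by_cases h : (if s.up then s.y ≤ y else y < s.y)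
  · by_cases h3 : x = s.col
    · rw [if_pos (show s.On x y from ⟨h3, h⟩), if_pos ⟨h3.le, h⟩, if_neg (by omega), add_zero]
    · rw [if_neg (fun h' => h3 h'.1)]
      by_cases h4 : x + 1 ≤ s.col
      · rw [if_pos ⟨by omega, h⟩, if_pos ⟨h4, h⟩, z2]
      · rw [if_neg (by omega), if_neg (by omega), add_zero]
  · rw [if_neg (fun h' => h h'.2), if_neg (fun h' => h h'.2), if_neg (fun h' => h h'.2), add_zero]

/-- the two passes of `M`-paired edges at a tile; the path may start at the tile -/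
lemma pas_pair0 (h : PathT c n) {v : ℤ × ℤ} (hn : c n ≠ v) (φ : ℤ × ℤ → ZMod 2)
    (h1 : ∀ t < n, c t ≠ v → c (t + 1) ≠ v → φ (sq (c t) (c (t + 1))) = 0)
    (h2 : ∀ t, t + 1 < n → c (t + 1) = v →
      φ (sq (c t) (c (t + 1))) = φ (sq (c (t + 1)) (c (t + 2)))) :
    ∑ t ∈ Finset.range n, φ (sq (c t) (c (t + 1)))
      = if 0 < n ∧ c 0 = v then φ (sq (c 0) (c 1)) else 0 := by
  classical
  have e : ∀ t ∈ Finset.range n, φ (sq (c t) (c (t + 1)))
      = (fun t => if t < n ∧ c t = v then φ (sq (c t) (c (t + 1))) else 0) t +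
        (fun t => if t < n ∧ c t = v then φ (sq (c t) (c (t + 1))) else 0) (t + 1) := by
    intro t ht
    rw [Finset.mem_range] at ht
    simp only
    by_cases a : c t = v
    · have b : c (t + 1) ≠ v := by
        intro b
        have := h.diags t ht
        rw [a, b] at this
        unfold Diag at this
        omega
      rw [if_pos ⟨ht, a⟩, if_neg (fun h' => b h'.2), add_zero]
    · rw [if_neg (fun h' => a h'.2), zero_add]
      by_cases b : c (t + 1) = v
      · have ht2 : t + 1 < n := by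
          rcases Nat.lt_or_ge (t + 1) n with h3 | h3
          · exact h3
          · exfalso
            have : t + 1 = n := by omega
            exact hn (this ▸ b)
        rw [if_pos ⟨ht2, b⟩]
        exact h2 t ht2 b
      · rw [if_neg (fun h' => b h'.2)]
        exact h1 t ht a b
  rw [Finset.sum_congr rfl e, tele]
  rw [if_neg (show ¬ (n < n ∧ c n = v) by omega), add_zero]

/-- the pair of squares of the tile `v` that is crossed by a joined step: upper squares for a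
horizontal step, east squares for a vertical one -/
def prS (x y : ℤ) (x' y' : ℤ) (q : ℤ × ℤ) : ZMod 2 :=
  (if q = (x, y) then 1 else 0) + (if q = (x', y') then 1 else 0)

lemma pas_pr (x y x' y' : ℤ) : pas c n x y + pas c n x' y' =
    ∑ t ∈ Finset.range n, prS x y x' y' (sq (c t) (c (t + 1))) := by
  unfold pas prS
  rw [Finset.sum_add_distrib]

/-- passes at a tile of a path that obeys `M` there and may start there -/
lemma pas_joined0 {M : ℤ × ℤ → Prop} (h : PathT c n) {v : ℤ × ℤ} (hv : IsTile v) (hn : c n ≠ v)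
    (ht : ∀ t, t + 1 < n → c (t + 1) = v → c (t + 2) = nx M (c t) (c (t + 1))) :
    (M v → pas c n (v.1 - 1) v.2 + pas c n v.1 v.2
      = if 0 < n ∧ c 0 = v then prS (v.1 - 1) v.2 v.1 v.2 (sq (c 0) (c 1)) else 0) ∧
    (¬ M v → pas c n v.1 (v.2 - 1) + pas c n v.1 v.2
      = if 0 < n ∧ c 0 = v then prS v.1 (v.2 - 1) v.1 v.2 (sq (c 0) (c 1)) else 0) := by
  have hz : ∀ t, t < n → c t ≠ v → c (t + 1) ≠ v → ∀ x y : ℤ, (x = v.1 ∨ x = v.1 - 1) →
      (y = v.2 ∨ y = v.2 - 1) → sq (c t) (c (t + 1)) ≠ (x, y) := by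
    intro t ht' a b x y hx hy hs
    have e := sq_cases (h.tiles t ht'.le) (h.diags t ht') hs
    obtain ⟨k, hk⟩ := hv
    obtain ⟨v1, v2⟩ := v
    simp only at *
    rcases e with ⟨e1, ⟨e2, e3⟩ | ⟨e2, e3⟩⟩ | ⟨e1, ⟨e2, e3⟩ | ⟨e2, e3⟩⟩ <;>
      rw [e2] at a <;> rw [e3] at b <;> simp only [ne_eq, Prod.mk.injEq, not_and] at a b <;>
      omega
  have key : ∀ x y x' y' : ℤ, (x = v.1 ∨ x = v.1 - 1) → (y = v.2 ∨ y = v.2 - 1) →
      (x' = v.1 ∨ x' = v.1 - 1) → (y' = v.2 ∨ y' = v.2 - 1) →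
      ((M v ∧ x ≠ x' ∧ y = y') ∨ (¬ M v ∧ x = x' ∧ y ≠ y')) →
      pas c n x y + pas c n x' y'
        = if 0 < n ∧ c 0 = v then prS x y x' y' (sq (c 0) (c 1)) else 0 := by
    intro x y x' y' hx hy hx' hy' hc
    rw [pas_pr]
    refine pas_pair0 h hn _ ?_ ?_
    · intro t ht' a b
      unfold prS
      rw [if_neg (hz t ht' a b x y hx hy), if_neg (hz t ht' a b x' y' hx' hy'), add_zero]
    · intro t ht' b
      have hd := h.diags t (by omega)
      have e := turn_sq (M := M) hd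
      rw [← ht t ht' b] at e
      have hd2 := h.diags (t + 1) ht'
      rw [show t + 1 + 1 = t + 2 by omega] at hd2
      rw [b] at e hd hd2 ⊢
      generalize c t = u at *
      generalize c (t + 2) = w at *
      obtain ⟨u1, u2⟩ := u
      obtain ⟨v1, v2⟩ := v
      obtain ⟨w1, w2⟩ := w
      unfold Diag at hd hd2
      unfold sq at e ⊢
      unfold prS
      simp only [Prod.mk.injEq] at *
      by_cases hM : M (v1, v2)
      · have e := e.1 hM
        have hc : x ≠ x' ∧ y = y' := by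
          rcases hc with hc | hc
          · exact hc.2
          · exact absurd hM hc.1
        split_ifs <;> first | rfl | (exfalso; omega)
      · have e := e.2 hM
        have hc : x = x' ∧ y ≠ y' := by
          rcases hc with hc | hc
          · exact absurd hc.1 hM
          · exact hc.2
        split_ifs <;> first | rfl | (exfalso; omega)
  exact ⟨fun hM => key _ _ _ _ (Or.inr rfl) (Or.inl rfl) (Or.inl rfl) (Or.inl rfl)
      (Or.inl ⟨hM, by omega, rfl⟩),
    fun hM => key _ _ _ _ (Or.inl rfl) (Or.inr rfl) (Or.inl rfl) (Or.inl rfl)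
      (Or.inr ⟨hM, rfl, by omega⟩)⟩

lemma pas_zeroT (h : PathT c n) {v : ℤ × ℤ} (hv : IsTile v) (hn : ∀ t ≤ n, c t ≠ v) {x y : ℤ}
    (hx : x = v.1 ∨ x = v.1 - 1) (hy : y = v.2 ∨ y = v.2 - 1) : pas c n x y = 0 := by
  unfold pas
  refine Finset.sum_eq_zero fun t ht => ?_
  rw [Finset.mem_range] at ht
  rw [if_neg]
  intro hs
  have e := sq_cases (h.tiles t ht.le) (h.diags t ht) hs
  have h1 := hn t ht.le
  have h2 := hn (t + 1) ht
  obtain ⟨k, hk⟩ := hv
  obtain ⟨v1, v2⟩ := v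
  simp only at *
  rcases e with ⟨e1, ⟨a, b⟩ | ⟨a, b⟩⟩ | ⟨e1, ⟨a, b⟩ | ⟨a, b⟩⟩ <;>
    rw [a] at h1 <;> rw [b] at h2 <;> simp only [ne_eq, Prod.mk.injEq, not_and] at h1 h2 <;>
    omega

end

/-! ### the curve of two neighbouring ends -/

/-- the orientation of the ends: `(A, B) = (cD, cU)` (upper ends) or `(cU, cD)` (lower ends) -/
def AB (A B : ℤ → ℤ × ℤ) : Prop := (A = cD ∧ B = cU) ∨ (A = cU ∧ B = cD)

/-- the `k` trajectories through the cut sides, seen from one side of the cut -/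
structure Half (M : ℤ × ℤ → Prop) (k : ℤ) (D : Set (ℤ × ℤ)) (c : ℤ → ℕ → ℤ × ℤ) (n t : ℤ → ℕ)
    (hh : ℤ) (r r' : ℤ → Ray) (A B : ℤ → ℤ × ℤ) : Prop where
  ab : AB A B
  traj : ∀ j, 1 ≤ j → j ≤ k → Traj M D (c j) (n j)
  lt : ∀ j, 1 ≤ j → j ≤ k → t j < n j
  at0 : ∀ j, 1 ≤ j → j ≤ k → c j (t j) = A j
  at1 : ∀ j, 1 ≤ j → j ≤ k → c j (t j + 1) = B j
  cut : ∀ i j, 1 ≤ i → i ≤ k → 1 ≤ j → j ≤ k → i ≠ j → ∀ s < n j,
    sq (c j s) (c j (s + 1)) ≠ cS i
  ends : ∀ j, 1 ≤ j → j ≤ k → Ends hh D (c j) (n j) (r j) (r' j)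
  cutU : ∀ j, 1 ≤ j → j ≤ k → cU j ∈ D
  cutD : ∀ j, 1 ≤ j → j ≤ k → cD j ∈ D

/-- the small arc around the cut face `cF m` -/
def arcf (A B : ℤ → ℤ × ℤ) (m : ℤ) (q : ℕ) : ℤ × ℤ :=
  if q = 0 then A m else if q = 1 then B m else if q = 2 then B (m + 1) else A (m + 1)

/-- half trajectory -/
def hp (c : ℤ → ℕ → ℤ × ℤ) (t : ℤ → ℕ) (j : ℤ) (q : ℕ) : ℤ × ℤ := c j (t j + q)

/-- the side function of the curve formed by the ends `m`, `m+1` -/
def beS (c : ℤ → ℕ → ℤ × ℤ) (n t : ℤ → ℕ) (r' : ℤ → Ray) (A B : ℤ → ℤ × ℤ) (m : ℤ)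
    (X Y : ℤ) : ZMod 2 :=
  pathS (hp c t m) (n m - t m) X Y + pathS (arcf A B m) 3 X Y +
    pathS (hp c t (m + 1)) (n (m + 1) - t (m + 1)) X Y + (r' m).rayS X Y + (r' (m + 1)).rayS X Y

/-- its jumps -/
def beT (c : ℤ → ℕ → ℤ × ℤ) (n t : ℤ → ℕ) (r' : ℤ → Ray) (A B : ℤ → ℤ × ℤ) (m : ℤ)
    (x y : ℤ) : ZMod 2 :=
  pas (hp c t m) (n m - t m) x y + pas (arcf A B m) 3 x y +
    pas (hp c t (m + 1)) (n (m + 1) - t (m + 1)) x y + (r' m).ras x y + (r' (m + 1)).ras x y

section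

variable {M : ℤ × ℤ → Prop} {k : ℤ} {D : Set (ℤ × ℤ)} {c : ℤ → ℕ → ℤ × ℤ} {n t : ℤ → ℕ} {hh : ℤ}
  {r r' : ℤ → Ray} {A B : ℤ → ℤ × ℤ}

lemma AB.cases (h : AB A B) (m : ℤ) : ((A m = (m - 1, -m) ∧ B m = (m, 1 - m)) ∧
      (A (m + 1) = (m, -m - 1) ∧ B (m + 1) = (m + 1, -m))) ∨
    ((A m = (m, 1 - m) ∧ B m = (m - 1, -m)) ∧
      (A (m + 1) = (m + 1, -m) ∧ B (m + 1) = (m, -m - 1))) := by
  have e1 : cD (m + 1) = (m, -m - 1) := by
    unfold cD; exact Prod.ext (by simp) (by simp only; ring)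
  have e2 : cU (m + 1) = (m + 1, -m) := by
    unfold cU; exact Prod.ext rfl (by simp only; ring)
  rcases h with ⟨rfl, rfl⟩ | ⟨rfl, rfl⟩
  · exact Or.inl ⟨⟨rfl, rfl⟩, e1, e2⟩
  · exact Or.inr ⟨⟨rfl, rfl⟩, e2, e1⟩

lemma arcf0 (A B : ℤ → ℤ × ℤ) (m : ℤ) : arcf A B m 0 = A m := rfl
lemma arcf1 (A B : ℤ → ℤ × ℤ) (m : ℤ) : arcf A B m 1 = B m := rfl
lemma arcf2 (A B : ℤ → ℤ × ℤ) (m : ℤ) : arcf A B m 2 = B (m + 1) := rfl
lemma arcf3 (A B : ℤ → ℤ × ℤ) (m : ℤ) : arcf A B m 3 = A (m + 1) := rfl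

lemma arc_pathT (h : AB A B) (m : ℤ) : PathT (arcf A B m) 3 := by
  have hc := h.cases m
  constructor
  · intro t ht
    unfold IsTile
    rw [Int.odd_iff]
    have ht' : t = 0 ∨ t = 1 ∨ t = 2 ∨ t = 3 := by omega
    rcases ht' with rfl | rfl | rfl | rfl
    · rw [arcf0]
      rcases hc with ⟨⟨a, b⟩, a', b'⟩ | ⟨⟨a, b⟩, a', b'⟩ <;> simp only [a] <;> omega
    · rw [arcf1]
      rcases hc with ⟨⟨a, b⟩, a', b'⟩ | ⟨⟨a, b⟩, a', b'⟩ <;> simp only [b] <;> omega
    · rw [arcf2]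
      rcases hc with ⟨⟨a, b⟩, a', b'⟩ | ⟨⟨a, b⟩, a', b'⟩ <;> simp only [b'] <;> omega
    · rw [arcf3]
      rcases hc with ⟨⟨a, b⟩, a', b'⟩ | ⟨⟨a, b⟩, a', b'⟩ <;> simp only [a'] <;> omega
  · intro t ht
    have ht' : t = 0 ∨ t = 1 ∨ t = 2 := by omega
    rcases ht' with rfl | rfl | rfl
    · show Diag (arcf A B m 0) (arcf A B m 1)
      rw [arcf0, arcf1]
      unfold Diag
      rcases hc with ⟨⟨a, b⟩, a', b'⟩ | ⟨⟨a, b⟩, a', b'⟩ <;> simp only [a, b] <;> constructor <;>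
        first | omega | simp
    · show Diag (arcf A B m 1) (arcf A B m 2)
      rw [arcf1, arcf2]
      unfold Diag
      rcases hc with ⟨⟨a, b⟩, a', b'⟩ | ⟨⟨a, b⟩, a', b'⟩ <;> simp only [b, b'] <;> constructor <;>
        first | omega | simp
    · show Diag (arcf A B m 2) (arcf A B m 3)
      rw [arcf2, arcf3]
      unfold Diag
      rcases hc with ⟨⟨a, b⟩, a', b'⟩ | ⟨⟨a, b⟩, a', b'⟩ <;> simp only [a', b'] <;> constructor <;>
        first | omega | simp

lemma Half.pathT (h : Half M k D c n t hh r r' A B) {j : ℤ} (h1 : 1 ≤ j) (h2 : j ≤ k) :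
    PathT (hp c t j) (n j - t j) := by
  have ht := h.traj j h1 h2
  have hl := h.lt j h1 h2
  exact ⟨fun q hq => ht.tiles _ (by omega), fun q hq => ht.diags (t j + q) (by omega)⟩

lemma Half.hp0 (h : Half M k D c n t hh r r' A B) {j : ℤ} (h1 : 1 ≤ j) (h2 : j ≤ k) :
    hp c t j 0 = A j := h.at0 j h1 h2

lemma Half.hp1 (h : Half M k D c n t hh r r' A B) {j : ℤ} (h1 : 1 ≤ j) (h2 : j ≤ k) :
    hp c t j 1 = B j := h.at1 j h1 h2

lemma Half.hpn (h : Half M k D c n t hh r r' A B) {j : ℤ} (h1 : 1 ≤ j) (h2 : j ≤ k) :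
    hp c t j (n j - t j) = c j (n j) := by
  unfold hp
  have hl := h.lt j h1 h2
  rw [show t j + (n j - t j) = n j by omega]

theorem Half.sf (h : Half M k D c n t hh r r' A B) {m : ℤ} (h1 : 1 ≤ m) (h2 : m + 1 ≤ k) :
    SF (beS c n t r' A B m) (beT c n t r' A B m) := by
  constructor
  · intro x y
    unfold beS beT
    rw [path_jump, path_jump, path_jump, ray_jump, ray_jump]
    ring
  · intro X Y hXY
    have hE : Even (X + Y) := Int.even_iff.2 hXY
    have p1 := h.pathT (j := m) h1 (by omega)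
    have p2 := arc_pathT h.ab m
    have p3 := h.pathT (j := m + 1) (by omega) h2
    have hm := h.traj m h1 (by omega)
    have hm' := h.traj (m + 1) (by omega) h2
    have e1 := path_up_low (hp c t m) (n m - t m) p1.tiles p1.diags hE
    have e2 := path_up_low (arcf A B m) 3 p2.tiles p2.diags hE
    have e3 := path_up_low (hp c t (m + 1)) (n (m + 1) - t (m + 1)) p3.tiles p3.diags hE
    have e4 := ray_up_low (r' m) (c m (n m)) (hm.tiles _ le_rfl)
      ((h.ends m h1 (by omega)).atn hm) hE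
    have e5 := ray_up_low (r' (m + 1)) (c (m + 1) (n (m + 1))) (hm'.tiles _ le_rfl)
      ((h.ends (m + 1) (by omega) h2).atn hm') hE
    rw [h.hp0 h1 (by omega), h.hpn h1 (by omega)] at e1
    rw [h.hp0 (by omega) h2, h.hpn (by omega) h2] at e3
    have a0 : arcf A B m 0 = A m := by simp [arcf]
    have a3 : arcf A B m 3 = A (m + 1) := by simp [arcf]
    rw [a0, a3] at e2
    unfold beS
    apply add_eq_zero2
    generalize (if (A m).2 = Y ∧ X < (A m).1 then (1 : ZMod 2) else 0) = p at *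
    generalize (if (A (m + 1)).2 = Y ∧ X < (A (m + 1)).1 then (1 : ZMod 2) else 0) = q at *
    generalize (if (c m (n m)).2 = Y ∧ X < (c m (n m)).1 then (1 : ZMod 2) else 0) = u at *
    generalize (if (c (m + 1) (n (m + 1))).2 = Y ∧ X < (c (m + 1) (n (m + 1))).1 then
      (1 : ZMod 2) else 0) = w at *
    linear_combination e1 + e2 + e3 + e4 + e5 + z2 p + z2 q + z2 u + z2 w

end

end TA
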