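import Pool.Agent.Helper47.Arms.KBeta

/-!
General `k`: the side function of two neighbouring ends: joined steps, values beyond the slab, values
along the trajectories.
-/

set_option autoImplicit false

namespace TA

/-- the square between the two tiles next to the cut face `cF m` on the side of `B` -/
def frS (B : ℤ → ℤ × ℤ) (m : ℤ) : ℤ × ℤ := sq (B m) (B (m + 1))

lemma AB.fr {A B : ℤ → ℤ × ℤ} (h : AB A B) (m : ℤ) :
    (A = cD ∧ B = cU ∧ frS B m = (m, -m)) ∨ (A = cU ∧ B = cD ∧ frS B m = (m - 1, -m - 1)) := by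
  rcases h with ⟨rfl, rfl⟩ | ⟨rfl, rfl⟩
  · left
    refine ⟨rfl, rfl, ?_⟩
    unfold frS sq cU
    simp only
    rw [min_eq_left (by omega), min_eq_right (by omega)]
    exact Prod.ext rfl (by simp only; ring)
  · right
    refine ⟨rfl, rfl, ?_⟩
    unfold frS sq cD
    simp only
    rw [min_eq_left (by omega), min_eq_right (by omega)]
    exact Prod.ext rfl (by simp only; ring)

lemma AB.sqAB {A B : ℤ → ℤ × ℤ} (h : AB A B) (m : ℤ) : sq (A m) (B m) = cS m := by
  rcases h with ⟨rfl, rfl⟩ | ⟨rfl, rfl⟩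
  · exact sq_cut m
  · rw [sq_comm]; exact sq_cut m

/-- the passes of the arc -/
lemma arc_sum {A B : ℤ → ℤ × ℤ} (h : AB A B) (m : ℤ) (φ : ℤ × ℤ → ZMod 2) :
    ∑ t ∈ Finset.range 3, φ (sq (arcf A B m t) (arcf A B m (t + 1))) =
      φ (cS m) + φ (frS B m) + φ (cS (m + 1)) := by
  rw [Finset.sum_range_succ, Finset.sum_range_succ, Finset.sum_range_succ, Finset.sum_range_zero,
    zero_add]
  show φ (sq (arcf A B m 0) (arcf A B m 1)) + φ (sq (arcf A B m 1) (arcf A B m 2)) +
    φ (sq (arcf A B m 2) (arcf A B m 3)) = _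
  rw [arcf0, arcf1, arcf2, arcf3, h.sqAB, sq_comm (B (m + 1)) (A (m + 1)), h.sqAB]
  rfl

section

variable {M : ℤ × ℤ → Prop} {k : ℤ} {D : Set (ℤ × ℤ)} {c : ℤ → ℕ → ℤ × ℤ} {n t : ℤ → ℕ} {hh : ℤ}
  {r r' : ℤ → Ray} {A B : ℤ → ℤ × ℤ}

lemma Half.A_mem (h : Half M k D c n t hh r r' A B) {j : ℤ} (h1 : 1 ≤ j) (h2 : j ≤ k) :
    A j ∈ D := by
  rcases h.ab with ⟨rfl, rfl⟩ | ⟨rfl, rfl⟩
  · exact h.cutD j h1 h2
  · exact h.cutU j h1 h2

lemma Half.B_mem (h : Half M k D c n t hh r r' A B) {j : ℤ} (h1 : 1 ≤ j) (h2 : j ≤ k) :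
    B j ∈ D := by
  rcases h.ab with ⟨rfl, rfl⟩ | ⟨rfl, rfl⟩
  · exact h.cutU j h1 h2
  · exact h.cutD j h1 h2

/-- the jump over a joined step -/
lemma Half.pair (h : Half M k D c n t hh r r' A B) {m : ℤ} (h1 : 1 ≤ m) (h2 : m + 1 ≤ k)
    {v : ℤ × ℤ} (hv : IsTile v) (hvD : v ∈ D) :
    (M v → beT c n t r' A B m (v.1 - 1) v.2 + beT c n t r' A B m v.1 v.2 =
      (if A m = v then prS (v.1 - 1) v.2 v.1 v.2 (cS m) else 0) +
      (prS (v.1 - 1) v.2 v.1 v.2 (cS m) + prS (v.1 - 1) v.2 v.1 v.2 (frS B m) +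
        prS (v.1 - 1) v.2 v.1 v.2 (cS (m + 1))) +
      (if A (m + 1) = v then prS (v.1 - 1) v.2 v.1 v.2 (cS (m + 1)) else 0)) ∧
    (¬ M v → beT c n t r' A B m v.1 (v.2 - 1) + beT c n t r' A B m v.1 v.2 =
      (if A m = v then prS v.1 (v.2 - 1) v.1 v.2 (cS m) else 0) +
      (prS v.1 (v.2 - 1) v.1 v.2 (cS m) + prS v.1 (v.2 - 1) v.1 v.2 (frS B m) +
        prS v.1 (v.2 - 1) v.1 v.2 (cS (m + 1))) +
      (if A (m + 1) = v then prS v.1 (v.2 - 1) v.1 v.2 (cS (m + 1)) else 0)) := by
  have key : ∀ j, 1 ≤ j → j ≤ k →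
      (M v → pas (hp c t j) (n j - t j) (v.1 - 1) v.2 + pas (hp c t j) (n j - t j) v.1 v.2 =
        if A j = v then prS (v.1 - 1) v.2 v.1 v.2 (cS j) else 0) ∧
      (¬ M v → pas (hp c t j) (n j - t j) v.1 (v.2 - 1) + pas (hp c t j) (n j - t j) v.1 v.2 =
        if A j = v then prS v.1 (v.2 - 1) v.1 v.2 (cS j) else 0) := by
    intro j j1 j2
    have hl := h.lt j j1 j2
    have e := pas_joined0 (M := M) (h.pathT j1 j2) hv
      (by rw [h.hpn j1 j2]; exact fun e => (h.traj j j1 j2).outn (e ▸ hvD))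
      (by
        intro q hq _
        exact (h.traj j j1 j2).turn (t j + q) (by omega))
    rw [h.hp0 j1 j2, h.hp1 j1 j2, h.ab.sqAB] at e
    have hpos : 0 < n j - t j := by omega
    simpa only [hpos, true_and] using e
  have o1 := ((h.ends m h1 (by omega)).off hvD).2
  have o2 := ((h.ends (m + 1) (by omega) h2).off hvD).2
  have k1 := key m h1 (by omega)
  have k2 := key (m + 1) (by omega) h2
  have sm : ∀ x y x' y' : ℤ, (x = v.1 ∨ x = v.1 - 1) → (y = v.2 ∨ y = v.2 - 1) →
      (x' = v.1 ∨ x' = v.1 - 1) → (y' = v.2 ∨ y' = v.2 - 1) →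
      beT c n t r' A B m x y + beT c n t r' A B m x' y' =
        (pas (hp c t m) (n m - t m) x y + pas (hp c t m) (n m - t m) x' y') +
        (prS x y x' y' (cS m) + prS x y x' y' (frS B m) + prS x y x' y' (cS (m + 1))) +
        (pas (hp c t (m + 1)) (n (m + 1) - t (m + 1)) x y +
          pas (hp c t (m + 1)) (n (m + 1) - t (m + 1)) x' y') := by
    intro x y x' y' hx hy hx' hy'
    have ea := pas_pr (c := arcf A B m) (n := 3) x y x' y'
    rw [arc_sum h.ab] at ea
    unfold beT
    rw [o1.ras hx hy, o2.ras hx hy, o1.ras hx' hy', o2.ras hx' hy']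
    linear_combination ea
  constructor
  · intro hM
    rw [sm _ _ _ _ (Or.inr rfl) (Or.inl rfl) (Or.inl rfl) (Or.inl rfl), k1.1 hM, k2.1 hM]
  · intro hM
    rw [sm _ _ _ _ (Or.inl rfl) (Or.inr rfl) (Or.inl rfl) (Or.inl rfl), k1.2 hM, k2.2 hM]

/-- side function of the two neighbouring ends at a face -/
def be (c : ℤ → ℕ → ℤ × ℤ) (n t : ℤ → ℕ) (r' : ℤ → Ray) (A B : ℤ → ℤ × ℤ) (m : ℤ)
    (f : ℤ × ℤ) : ZMod 2 := beS c n t r' A B m f.1 f.2

/-- **joined steps**: only the steps from the cut face `cF m` through the tiles `B m`, `B (m+1)`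
change the side -/
theorem Half.be_step (h : Half M k D c n t hh r r' A B) {m : ℤ} (h1 : 1 ≤ m) (h2 : m + 1 ≤ k)
    {f g v : ℤ × ℤ} (hv : v ∈ D) (hs : StpV M f g v) (hf : (f.1 + f.2) % 2 = 0) :
    be c n t r' A B m f + be c n t r' A B m g =
      if (f = cF m ∨ g = cF m) ∧ (v = B m ∨ v = B (m + 1)) then 1 else 0 := by
  have htile := hs.1.tile hf
  have hv' : (v.1 + v.2) % 2 = 1 := Int.odd_iff.1 htile
  have ho := (h.sf h1 h2).opp hv' hs.1
  have hp := h.pair h1 h2 htile hv
  have hsv := hs.2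
  have hO := hs.1
  unfold be
  have hfr := h.ab.fr m
  have hcs : cS m = (m - 1, -m) := rfl
  have hcs' : cS (m + 1) = (m, -m - 1) := by
    unfold cS; exact Prod.ext (by simp) (by simp only; ring)
  have hcf : cF m = (m, -m) := rfl
  obtain ⟨f1, f2⟩ := f
  obtain ⟨g1, g2⟩ := g
  obtain ⟨v1, v2⟩ := v
  rw [hcs, hcs'] at hp
  rw [hcf]
  unfold Opp at hO
  simp only at *
  by_cases hM : M (v1, v2)
  · have e2 : f2 = v2 := hsv.1 hM
    rw [ho.1 e2, hp.1 hM]
    rcases hfr with ⟨rfl, rfl, fr⟩ | ⟨rfl, rfl, fr⟩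
    · rw [fr]
      unfold prS cD cU
      simp only [Prod.mk.injEq]
      by_cases q1 : v1 = m - 1 ∧ v2 = -m
      · obtain ⟨rfl, rfl⟩ := q1
        repeat first | rw [if_neg (by omega)] | rw [if_pos (by omega)]
        first | rfl | decide
      by_cases q2 : v1 = m ∧ v2 = -m - 1
      · obtain ⟨rfl, rfl⟩ := q2
        repeat first | rw [if_neg (by omega)] | rw [if_pos (by omega)]
        first | rfl | decide
      by_cases q3 : v1 = m + 1 ∧ v2 = -m
      · obtain ⟨rfl, rfl⟩ := q3
        repeat first | rw [if_neg (by omega)] | rw [if_pos (by omega)]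
        first | rfl | decide
      by_cases q4 : v1 = m ∧ v2 = 1 - m
      · obtain ⟨rfl, rfl⟩ := q4
        repeat first | rw [if_neg (by omega)] | rw [if_pos (by omega)]
        first | rfl | decide
      rw [if_neg (by omega), if_neg (by omega), if_neg (by omega), if_neg (by omega),
        if_neg (by omega), if_neg (by omega), if_neg (by omega), if_neg (by omega),
        if_neg (by omega)]
      decide
    · rw [fr]
      unfold prS cD cU
      simp only [Prod.mk.injEq]
      by_cases q1 : v1 = m - 1 ∧ v2 = -m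
      · obtain ⟨rfl, rfl⟩ := q1
        repeat first | rw [if_neg (by omega)] | rw [if_pos (by omega)]
        first | rfl | decide
      by_cases q2 : v1 = m ∧ v2 = -m - 1
      · obtain ⟨rfl, rfl⟩ := q2
        repeat first | rw [if_neg (by omega)] | rw [if_pos (by omega)]
        first | rfl | decide
      by_cases q3 : v1 = m + 1 ∧ v2 = -m
      · obtain ⟨rfl, rfl⟩ := q3
        repeat first | rw [if_neg (by omega)] | rw [if_pos (by omega)]
        first | rfl | decide
      by_cases q4 : v1 = m ∧ v2 = 1 - m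
      · obtain ⟨rfl, rfl⟩ := q4
        repeat first | rw [if_neg (by omega)] | rw [if_pos (by omega)]
        first | rfl | decide
      rw [if_neg (by omega), if_neg (by omega), if_neg (by omega), if_neg (by omega),
        if_neg (by omega), if_neg (by omega), if_neg (by omega), if_neg (by omega),
        if_neg (by omega)]
      decide
  · have e2 : f2 ≠ v2 := fun e => hM (hsv.2 e)
    rw [ho.2 e2, hp.2 hM]
    rcases hfr with ⟨rfl, rfl, fr⟩ | ⟨rfl, rfl, fr⟩
    · rw [fr]
      unfold prS cD cU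
      simp only [Prod.mk.injEq]
      by_cases q1 : v1 = m - 1 ∧ v2 = -m
      · obtain ⟨rfl, rfl⟩ := q1
        repeat first | rw [if_neg (by omega)] | rw [if_pos (by omega)]
        first | rfl | decide
      by_cases q2 : v1 = m ∧ v2 = -m - 1
      · obtain ⟨rfl, rfl⟩ := q2
        repeat first | rw [if_neg (by omega)] | rw [if_pos (by omega)]
        first | rfl | decide
      by_cases q3 : v1 = m + 1 ∧ v2 = -m
      · obtain ⟨rfl, rfl⟩ := q3
        repeat first | rw [if_neg (by omega)] | rw [if_pos (by omega)]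
        first | rfl | decide
      by_cases q4 : v1 = m ∧ v2 = 1 - m
      · obtain ⟨rfl, rfl⟩ := q4
        repeat first | rw [if_neg (by omega)] | rw [if_pos (by omega)]
        first | rfl | decide
      rw [if_neg (by omega), if_neg (by omega), if_neg (by omega), if_neg (by omega),
        if_neg (by omega), if_neg (by omega), if_neg (by omega), if_neg (by omega),
        if_neg (by omega)]
      decide
    · rw [fr]
      unfold prS cD cU
      simp only [Prod.mk.injEq]
      by_cases q1 : v1 = m - 1 ∧ v2 = -m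
      · obtain ⟨rfl, rfl⟩ := q1
        repeat first | rw [if_neg (by omega)] | rw [if_pos (by omega)]
        first | rfl | decide
      by_cases q2 : v1 = m ∧ v2 = -m - 1
      · obtain ⟨rfl, rfl⟩ := q2
        repeat first | rw [if_neg (by omega)] | rw [if_pos (by omega)]
        first | rfl | decide
      by_cases q3 : v1 = m + 1 ∧ v2 = -m
      · obtain ⟨rfl, rfl⟩ := q3
        repeat first | rw [if_neg (by omega)] | rw [if_pos (by omega)]
        first | rfl | decide
      by_cases q4 : v1 = m ∧ v2 = 1 - m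
      · obtain ⟨rfl, rfl⟩ := q4
        repeat first | rw [if_neg (by omega)] | rw [if_pos (by omega)]
        first | rfl | decide
      rw [if_neg (by omega), if_neg (by omega), if_neg (by omega), if_neg (by omega),
        if_neg (by omega), if_neg (by omega), if_neg (by omega), if_neg (by omega),
        if_neg (by omega)]
      decide

end

end TA
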