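import Pool.Agent.Helper47.Arms.KBeta2

/-!
General `k`: values of the side function of two neighbouring ends beyond the slab and along the
trajectories.
-/

set_option autoImplicit false

namespace TA

section

variable {M : ℤ × ℤ → Prop} {k : ℤ} {D : Set (ℤ × ℤ)} {c : ℤ → ℕ → ℤ × ℤ} {n t : ℤ → ℕ} {hh : ℤ}
  {r r' : ℤ → Ray} {A B : ℤ → ℤ × ℤ}

/-- the half trajectory on the lines beyond the slab -/
lemma Half.line (h : Half M k D c n t hh r r' A B) {j : ℤ} (h1 : 1 ≤ j) (h2 : j ≤ k) (X Y : ℤ) :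
    (hh < Y ∨ Y < -hh - 1 → pathS (hp c t j) (n j - t j) X Y = 0) ∧
    (Y = hh → pathS (hp c t j) (n j - t j) X Y = ind (r' j) true X) ∧
    (Y = -hh - 1 → pathS (hp c t j) (n j - t j) X Y = ind (r' j) false X) := by
  have he := h.ends j h1 h2
  have ht := h.traj j h1 h2
  have hl := h.lt j h1 h2
  have e2 := he.e'
  have e4 := he.y'
  have e5 := he.hh
  have hA : A j ∈ D := h.A_mem h1 h2
  have hn2 : t j + 1 < n j := by
    by_contra hc
    have e : t j + 1 = n j := by omega
    have := ht.outn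
    rw [← e, h.at1 j h1 h2] at this
    exact this (h.B_mem h1 h2)
  have inD : ∀ q, t j + q < n j → c j (t j + q) ∈ D := by
    intro q hq
    rcases Nat.eq_zero_or_pos (t j + q) with h0 | h0
    · have : t j = 0 := by omega
      have hq0 : q = 0 := by omega
      rw [hq0, Nat.add_zero, h.at0 j h1 h2]; exact hA
    · exact ht.inn _ h0 hq
  obtain ⟨p, hp'⟩ : ∃ p, n j - t j = p + 1 := ⟨n j - t j - 1, by omega⟩
  have low : ∀ q < p, -hh ≤ (sq (hp c t j q) (hp c t j (q + 1))).2 ∧
      (sq (hp c t j q) (hp c t j (q + 1))).2 ≤ hh - 1 := by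
    intro q hq
    have a1 := he.hD _ (inD q (by omega))
    have a2 := he.hD _ (inD (q + 1) (by omega))
    have a3 := ht.diags (t j + q) (by omega)
    unfold hp
    unfold Diag at a3
    rw [show t j + q + 1 = t j + (q + 1) by ring] at a3
    simp only [sq]
    omega
  have last : sq (hp c t j p) (hp c t j (p + 1)) = ((r' j).col, if (r' j).up then hh else -hh - 1) := by
    have a1 := he.hD _ (inD p (by omega))
    have a3 := ht.diags (t j + p) (by omega)
    have e6 := he.col'
    unfold hp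
    rw [show t j + p + 1 = n j by omega] at a3
    rw [show t j + (p + 1) = n j by omega]
    rw [show n j - 1 = t j + p by omega] at e6
    unfold Diag at a3
    rw [e6]
    apply Prod.ext
    · rfl
    · simp only [sq]
      split_ifs at e4 ⊢ <;> omega
  have val : pathS (hp c t j) (n j - t j) X Y =
      (∑ q ∈ Finset.range p, if (sq (hp c t j q) (hp c t j (q + 1))).2 = Y ∧
        X ≤ (sq (hp c t j q) (hp c t j (q + 1))).1 then (1 : ZMod 2) else 0) +
      (if (if (r' j).up then hh else -hh - 1) = Y ∧ X ≤ (r' j).col then 1 else 0) := by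
    unfold pathS
    rw [hp', Finset.sum_range_succ, last]
  have z : ∀ Y, (hh ≤ Y ∨ Y ≤ -hh - 1) →
      (∑ q ∈ Finset.range p, if (sq (hp c t j q) (hp c t j (q + 1))).2 = Y ∧
        X ≤ (sq (hp c t j q) (hp c t j (q + 1))).1 then (1 : ZMod 2) else 0) = 0 := by
    intro Y hY
    refine Finset.sum_eq_zero fun q hq => ?_
    rw [Finset.mem_range] at hq
    have := low q hq
    rw [if_neg (by omega)]
  refine ⟨fun hY => ?_, fun hY => ?_, fun hY => ?_⟩
  · rw [val, z Y (by omega), zero_add, if_neg]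
    rintro ⟨h3, -⟩
    split_ifs at h3 <;> omega
  · rw [val, z Y (by omega), zero_add]
    unfold ind
    cases hu : (r' j).up
    · rw [if_neg (by
        rintro ⟨h3, -⟩
        rw [if_neg (by decide)] at h3
        omega), if_neg (by
        rintro ⟨h3, -⟩
        exact absurd h3 (by decide))]
    · simp only [if_true, hY, true_and]
  · rw [val, z Y (by omega), zero_add]
    unfold ind
    cases hu : (r' j).up
    · simp only [Bool.false_eq_true, if_false, hY, true_and]
    · rw [if_neg (by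
        rintro ⟨h3, -⟩
        rw [if_pos rfl] at h3
        omega), if_neg (by
        rintro ⟨h3, -⟩
        exact absurd h3 (by decide))]

lemma ray_line {s : Ray} (hs : s.y = if s.up then hh + 1 else -hh - 1) (h0 : 0 ≤ hh) (X Y : ℤ) :
    (hh < Y → s.rayS X Y = ind s true X) ∧ (Y < -hh - 1 → s.rayS X Y = ind s false X) ∧
      (-hh - 1 ≤ Y ∧ Y ≤ hh → s.rayS X Y = 0) := by
  obtain ⟨col, y, up⟩ := s
  unfold Ray.rayS ind
  cases up <;> simp only [if_true, Bool.false_eq_true, if_false, false_and, true_and,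
      reduceCtorEq] at * <;>
    refine ⟨fun hY => ?_, fun hY => ?_, fun hY => ?_⟩ <;>
    first
    | rfl
    | (split_ifs <;> first | rfl | (exfalso; omega))

/-- the arc beyond the slab -/
lemma Half.arc_line (h : Half M k D c n t hh r r' A B) {m : ℤ} (h1 : 1 ≤ m) (h2 : m + 1 ≤ k)
    (X Y : ℤ) (hY : hh ≤ Y ∨ Y ≤ -hh - 1) : pathS (arcf A B m) 3 X Y = 0 := by
  have hD := (h.ends m h1 (by omega)).hD
  have a0 := hD _ (h.A_mem h1 (by omega))
  have a1 := hD _ (h.B_mem h1 (by omega))
  have a2 := hD _ (h.B_mem (j := m + 1) (by omega) h2)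
  have a3 := hD _ (h.A_mem (j := m + 1) (by omega) h2)
  have hd := (arc_pathT h.ab m).diags
  have b0 := hd 0 (by omega)
  have b1 := hd 1 (by omega)
  have b2 := hd 2 (by omega)
  rw [arcf0, show (0 : ℕ) + 1 = 1 from rfl, arcf1] at b0
  rw [arcf1, show (1 : ℕ) + 1 = 2 from rfl, arcf2] at b1
  rw [arcf2, show (2 : ℕ) + 1 = 3 from rfl, arcf3] at b2
  unfold Diag at b0 b1 b2
  unfold pathS
  refine Finset.sum_eq_zero fun q hq => ?_
  rw [Finset.mem_range] at hq
  have hq' : q = 0 ∨ q = 1 ∨ q = 2 := by omega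
  rw [if_neg]
  rintro ⟨h3, -⟩
  rcases hq' with rfl | rfl | rfl
  · rw [arcf0, show (0 : ℕ) + 1 = 1 from rfl, arcf1] at h3
    simp only [sq] at h3
    omega
  · rw [arcf1, show (1 : ℕ) + 1 = 2 from rfl, arcf2] at h3
    simp only [sq] at h3
    omega
  · rw [arcf2, show (2 : ℕ) + 1 = 3 from rfl, arcf3] at h3
    simp only [sq] at h3
    omega

/-- values beyond the slab -/
theorem Half.be_val (h : Half M k D c n t hh r r' A B) {m : ℤ} (h1 : 1 ≤ m) (h2 : m + 1 ≤ k)
    {f : ℤ × ℤ} (hf : (f.1 + f.2) % 2 = 0) {up : Bool} (hb : Byd up hh f.2) :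
    be c n t r' A B m f = ind (r' m) up f.1 + ind (r' (m + 1)) up f.1 := by
  have e1 := h.ends m h1 (by omega)
  have e2 := h.ends (m + 1) (by omega) h2
  have h0 := e1.hh
  have l1 := h.line (j := m) h1 (by omega) f.1
  have l2 := h.line (j := m + 1) (by omega) h2 f.1
  have q1 := ray_line e1.y' h0 f.1
  have q2 := ray_line e2.y' h0 f.1
  unfold Byd at hb
  unfold be
  cases up
  · rw [if_neg (by decide)] at hb
    rw [← (h.sf h1 h2).ul _ _ hf]
    unfold beS
    rw [h.arc_line h1 h2 _ _ (by omega)]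
    rcases lt_or_eq_of_le hb with h3 | h3
    · rw [(l1 _).1 (by omega), (l2 _).1 (by omega), (q1 _).2.1 (by omega), (q2 _).2.1 (by omega)]
      ring
    · rw [(l1 _).2.2 (by omega), (l2 _).2.2 (by omega), (q1 _).2.2 (by omega),
        (q2 _).2.2 (by omega)]
      ring
  · rw [if_pos rfl] at hb
    unfold beS
    rw [h.arc_line h1 h2 _ _ (by omega)]
    rcases lt_or_eq_of_le hb with h3 | h3
    · rw [(l1 _).1 (by omega), (l2 _).1 (by omega), (q1 _).1 (by omega), (q2 _).1 (by omega)]
      ring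
    · rw [(l1 _).2.1 (by omega), (l2 _).2.1 (by omega), (q1 _).2.2 (by omega),
        (q2 _).2.2 (by omega)]
      ring

/-- steps through tiles that are not visited -/
theorem Half.be_off (h : Half M k D c n t hh r r' A B) {m : ℤ} (h1 : 1 ≤ m) (h2 : m + 1 ≤ k)
    {f g v : ℤ × ℤ} (ho : Opp f g v) (hf : (f.1 + f.2) % 2 = 0)
    (hv : ∀ j, 1 ≤ j → j ≤ k → (r' j).Off v ∧ (∀ s ≤ n j, c j s ≠ v) ∧ cU j ≠ v ∧ cD j ≠ v) :
    be c n t r' A B m f = be c n t r' A B m g := by
  have htile := ho.tile hf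
  have hv' : (v.1 + v.2) % 2 = 1 := Int.odd_iff.1 htile
  have e := (h.sf h1 h2).opp hv' ho
  obtain ⟨o1, n1, u1, d1⟩ := hv m h1 (by omega)
  obtain ⟨o2, n2, u2, d2⟩ := hv (m + 1) (by omega) h2
  have arc : ∀ q ≤ 3, arcf A B m q ≠ v := by
    intro q hq
    have hq' : q = 0 ∨ q = 1 ∨ q = 2 ∨ q = 3 := by omega
    rcases h.ab with ⟨rfl, rfl⟩ | ⟨rfl, rfl⟩
    · rcases hq' with rfl | rfl | rfl | rfl
      · exact d1
      · exact u1
      · exact u2
      · exact d2
    · rcases hq' with rfl | rfl | rfl | rfl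
      · exact u1
      · exact d1
      · exact d2
      · exact u2
  have z : ∀ x y : ℤ, (x = v.1 ∨ x = v.1 - 1) → (y = v.2 ∨ y = v.2 - 1) →
      beT c n t r' A B m x y = 0 := by
    intro x y hx hy
    unfold beT
    rw [o1.ras hx hy, o2.ras hx hy,
      pas_zeroT (h.pathT (j := m) h1 (by omega)) htile
        (fun q hq => n1 _ (by have := h.lt m h1 (by omega); omega)) hx hy,
      pas_zeroT (h.pathT (j := m + 1) (by omega) h2) htile
        (fun q hq => n2 _ (by have := h.lt (m + 1) (by omega) h2; omega)) hx hy,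
      pas_zeroT (arc_pathT h.ab m) htile arc hx hy]
    ring
  apply add_eq_zero2
  unfold be
  by_cases h3 : f.2 = v.2
  · rw [e.1 h3, z _ _ (Or.inr rfl) (Or.inl rfl), z _ _ (Or.inl rfl) (Or.inl rfl), add_zero]
  · rw [e.2 h3, z _ _ (Or.inl rfl) (Or.inr rfl), z _ _ (Or.inl rfl) (Or.inl rfl), add_zero]

/-- classification of a square at a tile with respect to the cut face `cF m` -/
lemma sq_class {A B : ℤ → ℤ × ℤ} (hAB : AB A B) {m κ : ℤ} (hκ : (m + κ) % 2 = 0) {q v : ℤ × ℤ}
    (hv : (v.1 + v.2) % 2 = 1) (h1 : q.1 = v.1 ∨ q.1 = v.1 - 1) (h2 : q.2 = v.2 ∨ q.2 = v.2 - 1) :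
    (q ≠ cS m ∧ q ≠ cS (m + 1) ∧ q ≠ frS B m ∧ fc κ q ≠ cF m) ∨
    ((q = cS m ∨ q = cS (m + 1)) ∧ q ≠ frS B m ∧ fc κ q = cF m) ∨
    (q = frS B m ∧ q ≠ cS m ∧ q ≠ cS (m + 1) ∧ fc κ q = cF m ∧ (v = B m ∨ v = B (m + 1))) ∨
    (q ≠ frS B m ∧ q ≠ cS m ∧ q ≠ cS (m + 1) ∧ fc κ q = cF m ∧ (v = A m ∨ v = A (m + 1))) := by
  have ecs : cS m = (m - 1, -m) := rfl
  have ecs' : cS (m + 1) = (m, -m - 1) := by
    unfold cS; exact Prod.ext (by simp) (by simp only; ring)
  have ecf : cF m = (m, -m) := rfl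
  rw [ecs, ecs', ecf]
  obtain ⟨x, y⟩ := q
  obtain ⟨v1, v2⟩ := v
  simp only at hv h1 h2
  have fceq : ∀ x y : ℤ, (x = m ∨ x = m - 1) → (y = -m ∨ y = -m - 1) → fc κ (x, y) = (m, -m) := by
    intro x y hx hy
    apply fc_uniq <;> simp only <;> omega
  by_cases hN : (x = m ∨ x = m - 1) ∧ (y = -m ∨ y = -m - 1)
  · have e := fceq x y hN.1 hN.2
    obtain ⟨hx, hy⟩ := hN
    rcases hAB.fr m with ⟨rfl, rfl, fr⟩ | ⟨rfl, rfl, fr⟩
    · rw [fr, e]
      have e1 : cU m = (m, 1 - m) := rfl
      have e2 : cU (m + 1) = (m + 1, -m) := by unfold cU; exact Prod.ext rfl (by simp only; ring)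
      have e3 : cD m = (m - 1, -m) := rfl
      have e4 : cD (m + 1) = (m, -m - 1) := by
        unfold cD; exact Prod.ext (by simp) (by simp only; ring)
      rw [e1, e2, e3, e4]
      rcases hx with rfl | rfl <;> rcases hy with rfl | rfl
      · right; right; left
        simp only [Prod.mk.injEq, ne_eq]
        refine ⟨trivial, by omega, by omega, trivial, by omega⟩
      · right; left
        simp only [Prod.mk.injEq, ne_eq]
        refine ⟨Or.inr trivial, by omega, trivial⟩
      · right; left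
        simp only [Prod.mk.injEq, ne_eq]
        refine ⟨Or.inl trivial, by omega, trivial⟩
      · right; right; right
        simp only [Prod.mk.injEq, ne_eq]
        refine ⟨by omega, by omega, by omega, trivial, by omega⟩
    · rw [fr, e]
      have e1 : cU m = (m, 1 - m) := rfl
      have e2 : cU (m + 1) = (m + 1, -m) := by unfold cU; exact Prod.ext rfl (by simp only; ring)
      have e3 : cD m = (m - 1, -m) := rfl
      have e4 : cD (m + 1) = (m, -m - 1) := by
        unfold cD; exact Prod.ext (by simp) (by simp only; ring)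
      rw [e1, e2, e3, e4]
      rcases hx with rfl | rfl <;> rcases hy with rfl | rfl
      · right; right; right
        simp only [Prod.mk.injEq, ne_eq]
        refine ⟨by omega, by omega, by omega, trivial, by omega⟩
      · right; left
        simp only [Prod.mk.injEq, ne_eq]
        refine ⟨Or.inr trivial, by omega, trivial⟩
      · right; left
        simp only [Prod.mk.injEq, ne_eq]
        refine ⟨Or.inl trivial, by omega, trivial⟩
      · right; right; left
        simp only [Prod.mk.injEq, ne_eq]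
        refine ⟨trivial, by omega, by omega, trivial, by omega⟩
  · left
    have hf := fc_spec κ (x, y)
    refine ⟨?_, ?_, ?_, ?_⟩
    · intro e; rw [Prod.mk.injEq] at e; omega
    · intro e; rw [Prod.mk.injEq] at e; omega
    · intro e
      rcases hAB.fr m with ⟨-, -, fr⟩ | ⟨-, -, fr⟩ <;> rw [fr, Prod.mk.injEq] at e <;> omega
    · intro e
      rw [e] at hf
      simp only at hf
      omega

lemma AB.disj {A B : ℤ → ℤ × ℤ} (hAB : AB A B) {m : ℤ} {v : ℤ × ℤ} (h1 : v = A m ∨ v = A (m + 1))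
    (h2 : v = B m ∨ v = B (m + 1)) : False := by
  rcases hAB.cases m with ⟨⟨a, b⟩, a', b'⟩ | ⟨⟨a, b⟩, a', b'⟩ <;> rw [a, a'] at h1 <;>
    rw [b, b'] at h2 <;> obtain ⟨v1, v2⟩ := v <;> simp only [Prod.mk.injEq] at h1 h2 <;> omega

/-- one step along a trajectory -/
lemma Half.along_step (h : Half M k D c n t hh r r' A B) {m : ℤ} (h1 : 1 ≤ m) (h2 : m + 1 ≤ k)
    {j : ℤ} (hj1 : 1 ≤ j) (hjk : j ≤ k) (hj : j = m ∨ j = m + 1) {κ : ℤ} (hκ : (m + κ) % 2 = 0)
    {s : ℕ} (hs : s + 1 < n j) :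
    be c n t r' A B m (fc κ (sq (c j s) (c j (s + 1)))) +
        (if sq (c j s) (c j (s + 1)) = frS B m then 1 else 0) +
      (be c n t r' A B m (fc κ (sq (c j (s + 1)) (c j (s + 2)))) +
        (if sq (c j (s + 1)) (c j (s + 2)) = frS B m then 1 else 0)) =
      if s = t j then 1 else 0 := by
  have ht := h.traj j hj1 hjk
  have hl := h.lt j hj1 hjk
  have hvD : c j (s + 1) ∈ D := ht.inn (s + 1) (by omega) hs
  have hvt : IsTile (c j (s + 1)) := ht.tiles _ (by omega)
  have hv' := Int.odd_iff.1 hvt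
  have hd := ht.diags s (by omega)
  have hd2 := ht.diags (s + 1) hs
  rw [show s + 1 + 1 = s + 2 from rfl] at hd2
  -- the cut sides
  have cutq : ∀ i, (i = m ∨ i = m + 1) → ∀ s' < n j, sq (c j s') (c j (s' + 1)) = cS i →
      i = j ∧ s' = t j := by
    intro i hi s' hs' e
    by_cases hij : i = j
    · subst hij
      refine ⟨rfl, ht.inj s' hs' (t i) hl ?_⟩
      rw [e, h.at0 i (by omega) (by omega), h.at1 i (by omega) (by omega), h.ab.sqAB]
    · exact absurd e (h.cut i j (by omega) (by omega) hj1 hjk hij s' hs')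
  have cut1 : s = t j → sq (c j s) (c j (s + 1)) = cS j ∧ c j (s + 1) = B j := by
    intro e
    rw [e, h.at0 j hj1 hjk, h.at1 j hj1 hjk, h.ab.sqAB]
    exact ⟨rfl, rfl⟩
  have cut2 : s + 1 = t j → c j (s + 1) = A j := by
    intro e
    rw [e, h.at0 j hj1 hjk]
  have hne : sq (c j s) (c j (s + 1)) ≠ sq (c j (s + 1)) (c j (s + 2)) := by
    intro e
    have := ht.inj s (by omega) (s + 1) hs e
    omega
  have hnx := ht.fc_next κ hs
  rw [show s + 1 + 1 = s + 2 from rfl] at hnx
  have c1 := fun i hi => cutq i hi s (by omega)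
  have c2 := fun i hi => cutq i hi (s + 1) hs
  have q1 : ((sq (c j s) (c j (s + 1))).1 = (c j (s + 1)).1 ∨
      (sq (c j s) (c j (s + 1))).1 = (c j (s + 1)).1 - 1) ∧
      ((sq (c j s) (c j (s + 1))).2 = (c j (s + 1)).2 ∨
      (sq (c j s) (c j (s + 1))).2 = (c j (s + 1)).2 - 1) := by
    unfold Diag at hd
    simp only [sq]
    omega
  have q2 : ((sq (c j (s + 1)) (c j (s + 2))).1 = (c j (s + 1)).1 ∨
      (sq (c j (s + 1)) (c j (s + 2))).1 = (c j (s + 1)).1 - 1) ∧
      ((sq (c j (s + 1)) (c j (s + 2))).2 = (c j (s + 1)).2 ∨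
      (sq (c j (s + 1)) (c j (s + 2))).2 = (c j (s + 1)).2 - 1) := by
    unfold Diag at hd2
    simp only [sq]
    omega
  have k1 := sq_class h.ab hκ hv' q1.1 q1.2
  have k2 := sq_class h.ab hκ hv' q2.1 q2.2
  -- the jump
  have X : be c n t r' A B m (fc κ (sq (c j s) (c j (s + 1)))) +
      be c n t r' A B m (fc κ (sq (c j (s + 1)) (c j (s + 2)))) =
      if ((fc κ (sq (c j s) (c j (s + 1))) = cF m ∧ fc κ (sq (c j (s + 1)) (c j (s + 2))) ≠ cF m) ∨
        (fc κ (sq (c j s) (c j (s + 1))) ≠ cF m ∧ fc κ (sq (c j (s + 1)) (c j (s + 2))) = cF m)) ∧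
        (c j (s + 1) = B m ∨ c j (s + 1) = B (m + 1)) then 1 else 0 := by
    rcases hnx with e | e
    · rw [← e, z2, if_neg]
      rintro ⟨⟨a, b⟩ | ⟨a, b⟩, -⟩
      · exact b a
      · exact a b
    · rw [h.be_step h1 h2 hvD e (fc_spec κ _).2.1]
      have hlne : fc κ (sq (c j s) (c j (s + 1))) ≠ fc κ (sq (c j (s + 1)) (c j (s + 2))) := by
        intro e'
        have := e.1
        rw [e'] at this
        unfold Opp at this
        omega
      congr 1
      apply propext
      constructor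
      · rintro ⟨a | a, b⟩
        · exact ⟨Or.inl ⟨a, fun a' => hlne (a.trans a'.symm)⟩, b⟩
        · exact ⟨Or.inr ⟨fun a' => hlne (a'.trans a.symm), a⟩, b⟩
      · rintro ⟨⟨a, -⟩ | ⟨-, a⟩, b⟩
        · exact ⟨Or.inl a, b⟩
        · exact ⟨Or.inr a, b⟩
  clear hd hd2 ht hvt hvD cutq hnx q1 q2 hv'
  generalize sq (c j s) (c j (s + 1)) = q at *
  generalize sq (c j (s + 1)) (c j (s + 2)) = q' at *
  generalize c j (s + 1) = v at *
  rw [show ∀ a b d e : ZMod 2, a + b + (d + e) = (a + d) + b + e by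
      intro a b d e; ring, X]
  have hP : s = t j → q = cS m ∨ q = cS (m + 1) := by
    intro e
    rcases hj with rfl | rfl
    · exact Or.inl (cut1 e).1
    · exact Or.inr (cut1 e).1
  have hS : (q = cS m ∨ q = cS (m + 1)) → s = t j ∧ (v = B m ∨ v = B (m + 1)) := by
    intro e
    have e1 : s = t j := by
      rcases e with e | e
      · exact (c1 m (Or.inl rfl) e).2
      · exact (c1 (m + 1) (Or.inr rfl) e).2
    refine ⟨e1, ?_⟩
    rcases hj with rfl | rfl
    · exact Or.inl (cut1 e1).2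
    · exact Or.inr (cut1 e1).2
  have hS' : (q' = cS m ∨ q' = cS (m + 1)) → (v = A m ∨ v = A (m + 1)) := by
    intro e
    have e1 : s + 1 = t j := by
      rcases e with e | e
      · exact (c2 m (Or.inl rfl) e).2
      · exact (c2 (m + 1) (Or.inr rfl) e).2
    rcases hj with rfl | rfl
    · exact Or.inl (cut2 e1)
    · exact Or.inr (cut2 e1)
  have dj : (v = A m ∨ v = A (m + 1)) → (v = B m ∨ v = B (m + 1)) → False := fun a b =>
    h.ab.disj a b
  rcases k1 with ⟨a1, a2, a3, a4⟩ | ⟨a1, a3, a4⟩ | ⟨a3, a1, a2, a4, a5⟩ | ⟨a3, a1, a2, a4, a5⟩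
  · -- q not at the cut face
    have hnP : s ≠ t j := fun e => by
      rcases hP e with e | e
      · exact a1 e
      · exact a2 e
    rw [if_neg a3, if_neg hnP]
    rcases k2 with ⟨b1, b2, b3, b4⟩ | ⟨b1, b3, b4⟩ | ⟨b3, b1, b2, b4, b5⟩ | ⟨b3, b1, b2, b4, b5⟩
    · rw [if_neg b3, if_neg]
      · decide
      · rintro ⟨⟨u, -⟩ | ⟨-, u⟩, -⟩
        · exact a4 u
        · exact b4 u
    · rw [if_neg b3, if_neg]
      · decide
      · rintro ⟨-, u⟩
        exact dj (hS' b1) u
    · rw [if_pos b3, if_pos ⟨Or.inr ⟨a4, b4⟩, b5⟩]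
      decide
    · rw [if_neg b3, if_neg]
      · decide
      · rintro ⟨-, u⟩
        exact dj b5 u
  · obtain ⟨hP', hB⟩ := hS a1
    rw [if_neg a3, if_pos hP']
    rcases k2 with ⟨b1, b2, b3, b4⟩ | ⟨b1, b3, b4⟩ | ⟨b3, b1, b2, b4, b5⟩ | ⟨b3, b1, b2, b4, b5⟩
    · rw [if_neg b3, if_pos ⟨Or.inl ⟨a4, b4⟩, hB⟩]
      decide
    · exact absurd hB (dj (hS' b1))
    · rw [if_pos b3, if_neg]
      · decide
      · rintro ⟨⟨-, u⟩ | ⟨u, -⟩, -⟩
        · exact u b4
        · exact u a4
    · exact absurd hB (dj b5)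
  · have hnP : s ≠ t j := fun e => by
      rcases hP e with e | e
      · exact a1 e
      · exact a2 e
    rw [if_pos a3, if_neg hnP]
    rcases k2 with ⟨b1, b2, b3, b4⟩ | ⟨b1, b3, b4⟩ | ⟨b3, b1, b2, b4, b5⟩ | ⟨b3, b1, b2, b4, b5⟩
    · rw [if_neg b3, if_pos ⟨Or.inl ⟨a4, b4⟩, a5⟩]
      decide
    · exact absurd a5 (dj (hS' b1))
    · exact absurd (a3.trans b3.symm) hne
    · exact absurd a5 (dj b5)
  · have hnP : s ≠ t j := fun e => by
      rcases hP e with e | e
      · exact a1 e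
      · exact a2 e
    rw [if_neg a3, if_neg hnP, if_neg (fun u => dj a5 u.2)]
    rcases k2 with ⟨b1, b2, b3, b4⟩ | ⟨b1, b3, b4⟩ | ⟨b3, b1, b2, b4, b5⟩ | ⟨b3, b1, b2, b4, b5⟩
    · rw [if_neg b3]
      decide
    · rw [if_neg b3]
      decide
    · exact absurd b5 (dj a5)
    · rw [if_neg b3]
      decide

/-- the side function along the two neighbouring trajectories -/
theorem Half.along (h : Half M k D c n t hh r r' A B) {m : ℤ} (h1 : 1 ≤ m) (h2 : m + 1 ≤ k)
    {j : ℤ} (hj1 : 1 ≤ j) (hjk : j ≤ k) (hj : j = m ∨ j = m + 1) {κ : ℤ} (hκ : (m + κ) % 2 = 0) :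
    ∀ s < n j, be c n t r' A B m (fc κ (sq (c j s) (c j (s + 1)))) +
        (if sq (c j s) (c j (s + 1)) = frS B m then 1 else 0) =
      be c n t r' A B m (cF m) + (if t j < s then 1 else 0) := by
  have hl := h.lt j hj1 hjk
  have hsq : sq (c j (t j)) (c j (t j + 1)) = cS j := by
    rw [h.at0 j hj1 hjk, h.at1 j hj1 hjk, h.ab.sqAB]
  have hcf : fc κ (cS j) = cF m := by
    rw [fc_cS]
    rcases hj with rfl | rfl
    · rw [if_pos hκ]
    · rw [if_neg (by omega), show m + 1 - 1 = m by ring]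
  have hne : cS j ≠ frS B m := by
    intro e
    rcases h.ab.fr m with ⟨-, -, fr⟩ | ⟨-, -, fr⟩ <;> rw [fr] at e <;> unfold cS at e <;>
      rw [Prod.mk.injEq] at e <;> omega
  have base : be c n t r' A B m (fc κ (sq (c j (t j)) (c j (t j + 1)))) +
      (if sq (c j (t j)) (c j (t j + 1)) = frS B m then 1 else 0) = be c n t r' A B m (cF m) := by
    rw [hsq, hcf, if_neg hne, add_zero]
  have step := fun s hs => h.along_step h1 h2 hj1 hjk hj hκ (s := s) hs
  have up : ∀ p, t j + p < n j →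
      be c n t r' A B m (fc κ (sq (c j (t j + p)) (c j (t j + p + 1)))) +
        (if sq (c j (t j + p)) (c j (t j + p + 1)) = frS B m then 1 else 0) =
      be c n t r' A B m (cF m) + (if 0 < p then 1 else 0) := by
    intro p
    induction p with
    | zero => intro _; rw [if_neg (lt_irrefl 0), Nat.add_zero, base]; exact (add_zero _).symm
    | succ p ih =>
      intro hp'
      have e1 := ih (by omega)
      have e2 := step (t j + p) (by omega)
      rw [e1] at e2
      rw [show t j + (p + 1) = t j + p + 1 by ring]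
      rw [if_pos (Nat.succ_pos p)]
      rw [show t j + p + 1 + 1 = t j + p + 2 from rfl]
      generalize be c n t r' A B m (fc κ (sq (c j (t j + p + 1)) (c j (t j + p + 2)))) +
        (if sq (c j (t j + p + 1)) (c j (t j + p + 2)) = frS B m then (1 : ZMod 2) else 0) = u at *
      rcases Nat.eq_zero_or_pos p with hp0 | hp0
      · subst hp0
        rw [if_neg (lt_irrefl 0), if_pos (by omega), add_zero] at e2
        exact (show ∀ b u : ZMod 2, b + u = 1 → u = b + 1 by decide) _ _ e2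
      · rw [if_pos hp0, if_neg (by omega)] at e2
        exact (add_eq_zero2 e2).symm
  have dn : ∀ p, p ≤ t j →
      be c n t r' A B m (fc κ (sq (c j (t j - p)) (c j (t j - p + 1)))) +
        (if sq (c j (t j - p)) (c j (t j - p + 1)) = frS B m then 1 else 0) =
      be c n t r' A B m (cF m) := by
    intro p
    induction p with
    | zero => intro _; rw [Nat.sub_zero]; exact base
    | succ p ih =>
      intro hp'
      have e1 := ih (by omega)
      have e2 := step (t j - (p + 1)) (by omega)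
      rw [show t j - (p + 1) + 2 = t j - p + 1 by omega,
        show t j - (p + 1) + 1 = t j - p by omega, e1,
        if_neg (show ¬ t j - (p + 1) = t j by omega)] at e2
      rw [show t j - (p + 1) + 1 = t j - p by omega]
      exact add_eq_zero2 e2
  intro s hs
  rcases Nat.lt_or_ge (t j) s with h3 | h3
  · have := up (s - t j) (by omega)
    rw [show t j + (s - t j) = s by omega, if_pos (show 0 < s - t j by omega)] at this
    rw [this, if_pos h3]
  · have := dn (t j - s) (by omega)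
    rw [show t j - (t j - s) = s by omega] at this
    rw [this, if_neg (by omega), add_zero]

end

end TA
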