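import Pool.Agent.Helper69.TwoArm.Near

/-!
`2k` interface ends at `k` adjacent cut sides: geometry of the cut, side functions of the `k`
trajectories at the cut faces and on the boundaries, sectors.
-/

set_option autoImplicit false

namespace TA

/-- the cut faces -/
def cF (j : ℤ) : ℤ × ℤ := (j, -j)
/-- the tile above the cut side `j` (which lies between the faces `cF (j-1)` and `cF j`) -/
def cU (j : ℤ) : ℤ × ℤ := (j, 1 - j)
/-- the tile below the cut side `j` -/
def cD (j : ℤ) : ℤ × ℤ := (j - 1, -j)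
/-- the unit square of the cut side `j` -/
def cS (j : ℤ) : ℤ × ℤ := (j - 1, -j)

lemma sq_cut (j : ℤ) : sq (cD j) (cU j) = cS j := by
  unfold sq cD cU cS
  simp only
  rw [min_eq_left (by omega), min_eq_left (by omega)]

/-- the interfaces through the cut sides `1, …, k` leave `D` before they meet a cut side again -/
structure Arms (M : ℤ × ℤ → Prop) (k : ℤ) (D : Set (ℤ × ℤ)) (c : ℤ → ℕ → ℤ × ℤ) (n t : ℤ → ℕ) :
    Prop where
  traj : ∀ j, 1 ≤ j → j ≤ k → Traj M D (c j) (n j)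
  lt : ∀ j, 1 ≤ j → j ≤ k → t j < n j
  at0 : ∀ j, 1 ≤ j → j ≤ k → c j (t j) = cD j
  at1 : ∀ j, 1 ≤ j → j ≤ k → c j (t j + 1) = cU j
  cut : ∀ i j, 1 ≤ i → i ≤ k → 1 ≤ j → j ≤ k → i ≠ j → ∀ s < n j,
    sq (c j s) (c j (s + 1)) ≠ cS i

/-- the `2k`-arm event of the set `D` -/
def ArmEv (M : ℤ × ℤ → Prop) (k : ℤ) (D : Set (ℤ × ℤ)) : Prop :=
  ∃ (c : ℤ → ℕ → ℤ × ℤ) (n t : ℤ → ℕ), Arms M k D c n t

section

variable {M : ℤ × ℤ → Prop} {k : ℤ} {D : Set (ℤ × ℤ)} {c : ℤ → ℕ → ℤ × ℤ} {n t : ℤ → ℕ}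

/-- two directed medial edges with the same square -/
lemma sq_eq_cases {u w u' w' : ℤ × ℤ} (hu : IsTile u) (h : Diag u w) (hu' : IsTile u')
    (h' : Diag u' w') (hs : sq u w = sq u' w') : (u = u' ∧ w = w') ∨ (u = w' ∧ w = u') := by
  have e1 := sq_cases hu h (Prod.mk.eta (p := sq u w)).symm
  have e2 := sq_cases hu' h' (Prod.mk.eta (p := sq u' w')).symm
  rw [hs] at e1
  generalize (sq u' w').1 = x at *
  generalize (sq u' w').2 = y at *
  rcases e1 with ⟨p1, ⟨a1, a2⟩ | ⟨a1, a2⟩⟩ | ⟨p1, ⟨a1, a2⟩ | ⟨a1, a2⟩⟩ <;>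
  rcases e2 with ⟨p2, ⟨b1, b2⟩ | ⟨b1, b2⟩⟩ | ⟨p2, ⟨b1, b2⟩ | ⟨b1, b2⟩⟩ <;>
  first
  | exact Or.inl ⟨a1.trans b1.symm, a2.trans b2.symm⟩
  | exact Or.inr ⟨a1.trans b2.symm, a2.trans b1.symm⟩
  | (exfalso; omega)

/-- different trajectories have no common medial edge -/
lemma Arms.disj (h : Arms M k D c n t) {i j : ℤ} (hi1 : 1 ≤ i) (hik : i ≤ k) (hj1 : 1 ≤ j)
    (hjk : j ≤ k) {s s' : ℕ} (hs : s < n i) (hs' : s' < n j)
    (he : sq (c i s) (c i (s + 1)) = sq (c j s') (c j (s' + 1))) : i = j := by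
  by_contra hij
  have hti := h.traj i hi1 hik
  have htj := h.traj j hj1 hjk
  have hcut := h.cut i j hi1 hik hj1 hjk hij
  have hlt := h.lt i hi1 hik
  have e0 := h.at0 i hi1 hik
  have e1 := h.at1 i hi1 hik
  rcases sq_eq_cases (hti.tiles s hs.le) (hti.diags s hs) (htj.tiles s' hs'.le) (htj.diags s' hs')
    he with ⟨a, b⟩ | ⟨a, b⟩
  · obtain ⟨-, hn, hc⟩ := hti.unique htj hs hs' a b
    apply hcut (t i) (by omega)
    rw [← hc (t i) hlt.le, ← hc (t i + 1) hlt, e0, e1, sq_cut]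
  · have hr := htj.rev
    have a' : c i s = (fun q => c j (n j - q)) (n j - 1 - s') := by
      show c i s = c j (n j - (n j - 1 - s'))
      rw [show n j - (n j - 1 - s') = s' + 1 by omega]; exact a
    have b' : c i (s + 1) = (fun q => c j (n j - q)) (n j - 1 - s' + 1) := by
      show c i (s + 1) = c j (n j - (n j - 1 - s' + 1))
      rw [show n j - (n j - 1 - s' + 1) = s' by omega]; exact b
    obtain ⟨-, hn, hc⟩ := hti.unique hr hs (by omega) a' b'
    have q0 : c i (t i) = c j (n j - t i) := hc (t i) hlt.le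
    have q1 : c i (t i + 1) = c j (n j - (t i + 1)) := hc (t i + 1) hlt
    apply hcut (n j - (t i + 1)) (by omega)
    rw [show n j - (t i + 1) + 1 = n j - t i by omega, ← q0, ← q1, e0, e1, sq_comm, sq_cut]

/-- side functions across a medial edge -/
lemma sd_fc {c : ℕ → ℤ × ℤ} {n : ℕ} {r r' : Ray} (h : PathR c n r r') (q : ℤ × ℤ) (κ : ℤ) :
    sd c n r r' (fc κ q) + sd c n r r' (fc (κ + 1) q) = tot c n r r' q.1 q.2 := by
  rw [tot_eq]
  obtain ⟨x, y⟩ := q
  simp only
  unfold sd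
  rcases Int.emod_two_eq_zero_or_one (x + y) with hp | hp
  · have u1 := h.ul (X := x + 1) (Y := y + 1) (by omega)
    rw [show y + 1 - 1 = y by ring] at u1
    rcases Int.emod_two_eq_zero_or_one (x + κ) with hq | hq
    · rw [fc_uniq (k := κ) (q := (x, y)) (f := (x, y)) (by simp only; omega) (by simp only; omega)
          (by simp) (by simp),
        fc_uniq (k := κ + 1) (q := (x, y)) (f := (x + 1, y + 1)) (by simp only; omega)
          (by simp only; omega) (by simp) (by simp)]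
      simp only
      rw [u1]
    · rw [fc_uniq (k := κ + 1) (q := (x, y)) (f := (x, y)) (by simp only; omega)
          (by simp only; omega) (by simp) (by simp),
        fc_uniq (k := κ) (q := (x, y)) (f := (x + 1, y + 1)) (by simp only; omega)
          (by simp only; omega) (by simp) (by simp)]
      simp only
      rw [u1, add_comm]
  · have u1 := h.ul (X := x) (Y := y + 1) (by omega)
    rw [show y + 1 - 1 = y by ring] at u1
    rcases Int.emod_two_eq_zero_or_one (x + κ) with hq | hq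
    · rw [fc_uniq (k := κ) (q := (x, y)) (f := (x, y + 1)) (by simp only; omega)
          (by simp only; omega) (by simp) (by simp),
        fc_uniq (k := κ + 1) (q := (x, y)) (f := (x + 1, y)) (by simp only; omega)
          (by simp only; omega) (by simp) (by simp)]
      simp only
      rw [u1]
    · rw [fc_uniq (k := κ + 1) (q := (x, y)) (f := (x, y + 1)) (by simp only; omega)
          (by simp only; omega) (by simp) (by simp),
        fc_uniq (k := κ) (q := (x, y)) (f := (x + 1, y)) (by simp only; omega)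
          (by simp only; omega) (by simp) (by simp)]
      simp only
      rw [u1, add_comm]

/-- the faces of a cut side -/
lemma fc_cS (j κ : ℤ) : fc κ (cS j) = if (j + κ) % 2 = 0 then cF j else cF (j - 1) := by
  unfold cS
  split_ifs with h
  · apply fc_uniq <;> unfold cF <;> simp only <;> first | omega | (split_ifs <;> omega) | simp
  · apply fc_uniq <;> unfold cF <;> simp only <;> first | omega | (split_ifs <;> omega) | simp

/-- only a fully parametrised family -/
structure ArmsE (M : ℤ × ℤ → Prop) (k : ℤ) (D : Set (ℤ × ℤ)) (c : ℤ → ℕ → ℤ × ℤ) (n t : ℤ → ℕ)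
    (hh : ℤ) (r r' : ℤ → Ray) : Prop extends Arms M k D c n t where
  ends : ∀ j, 1 ≤ j → j ≤ k → Ends hh D (c j) (n j) (r j) (r' j)
  cutU : ∀ j, 1 ≤ j → j ≤ k → cU j ∈ D
  cutD : ∀ j, 1 ≤ j → j ≤ k → cD j ∈ D

variable {hh : ℤ} {r r' : ℤ → Ray}

lemma ArmsE.path (h : ArmsE M k D c n t hh r r') {j : ℤ} (h1 : 1 ≤ j) (h2 : j ≤ k) :
    PathR (c j) (n j) (r j) (r' j) :=
  (h.traj j h1 h2).pathR ((h.ends j h1 h2).at0 (h.traj j h1 h2))
    ((h.ends j h1 h2).atn (h.traj j h1 h2))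

lemma Ray.Off.ras {s : Ray} {v : ℤ × ℤ} (h : s.Off v) {x y : ℤ} (hx : x = v.1 ∨ x = v.1 - 1)
    (hy : y = v.2 ∨ y = v.2 - 1) : s.ras x y = 0 := by
  obtain ⟨a, b, c', d⟩ := h
  apply ras_zero
  rcases hx with rfl | rfl <;> rcases hy with rfl | rfl <;> assumption

/-- the side function of the trajectory `i` -/
def sg (c : ℤ → ℕ → ℤ × ℤ) (n : ℤ → ℕ) (r r' : ℤ → Ray) (i : ℤ) (f : ℤ × ℤ) : ZMod 2 :=
  sd (c i) (n i) (r i) (r' i) f

lemma ArmsE.sg_cut (h : ArmsE M k D c n t hh r r') {i j : ℤ} (hi1 : 1 ≤ i) (hik : i ≤ k)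
    (hj1 : 1 ≤ j) (hjk : j ≤ k) :
    sg c n r r' i (cF (j - 1)) + sg c n r r' i (cF j) = if i = j then 1 else 0 := by
  have hp := h.path hi1 hik
  have e := sd_fc hp (cS j) j
  rw [fc_cS, fc_cS, if_pos (by omega), if_neg (by omega)] at e
  have hoff := (h.ends i hi1 hik).off (h.cutD j hj1 hjk)
  have t1 : tot (c i) (n i) (r i) (r' i) (cS j).1 (cS j).2 = pas (c i) (n i) (cS j).1 (cS j).2 := by
    unfold tot
    rw [hoff.1.ras (x := (cS j).1) (y := (cS j).2) (Or.inl rfl) (Or.inl rfl),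
      hoff.2.ras (x := (cS j).1) (y := (cS j).2) (Or.inl rfl) (Or.inl rfl), add_zero, add_zero]
  rw [t1] at e
  unfold sg
  rw [add_comm, e]
  split_ifs with hij
  · subst hij
    have hlt := h.lt i hi1 hik
    refine pas_one (h.traj i hi1 hik).inj hlt ?_
    rw [h.at0 i hi1 hik, h.at1 i hi1 hik, sq_cut]
  · exact pas_none fun s hs => h.cut j i hj1 hjk hi1 hik (Ne.symm hij) s hs

/-- the cut faces lie in different sectors -/
lemma ArmsE.cF_ne (h : ArmsE M k D c n t hh r r') {a b : ℤ} (ha : 0 ≤ a) (hab : a < b)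
    (hb : b ≤ k) : sg c n r r' b (cF a) ≠ sg c n r r' b (cF b) := by
  have key : ∀ m : ℕ, a + m < b → sg c n r r' b (cF (a + m)) = sg c n r r' b (cF a) := by
    intro m
    induction m with
    | zero => intro _; simp
    | succ m ih =>
      intro hm
      push_cast at hm ⊢
      have e := h.sg_cut (i := b) (j := a + m + 1) (by omega) hb (by omega) (by omega)
      rw [if_neg (by omega), show a + (m : ℤ) + 1 - 1 = a + m by ring] at e
      rw [← ih (by omega), show a + ((m : ℤ) + 1) = a + m + 1 by ring]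
      exact (add_eq_zero2 e).symm
  have e1 := key (b - 1 - a).toNat (by omega)
  rw [show a + ((b - 1 - a).toNat : ℤ) = b - 1 by omega] at e1
  have e2 := h.sg_cut (i := b) (j := b) (by omega) hb (by omega) hb
  rw [if_pos rfl, e1] at e2
  intro e3
  rw [e3, z2] at e2
  exact absurd e2 (by decide)

/-- the side functions are constant on the boundary faces of one colour of every trajectory -/
lemma ArmsE.sg_bd (h : ArmsE M k D c n t hh r r') {i j : ℤ} (hi1 : 1 ≤ i) (hik : i ≤ k)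
    (hj1 : 1 ≤ j) (hjk : j ≤ k) (κ : ℤ) : ∀ s < n j,
    sg c n r r' i (fc κ (sq (c j s) (c j (s + 1)))) = sg c n r r' i (fc κ (cS j)) := by
  have hti := h.traj i hi1 hik
  have htj := h.traj j hj1 hjk
  have hei := h.ends i hi1 hik
  have key : ∀ s < n j, sg c n r r' i (fc κ (sq (c j s) (c j (s + 1))))
      = sg c n r r' i (fc κ (sq (c j 0) (c j 1))) := by
    intro s
    induction s with
    | zero => intro _; rfl
    | succ s ih =>
      intro hs
      rw [← ih (by omega)]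
      rcases htj.fc_next κ hs with e | e
      · rw [e]
      · have hv : c j (s + 1) ∈ D := htj.inn (s + 1) (by omega) hs
        exact (hti.sd_step (hei.at0 hti) (hei.atn hti) hv e (fc_spec κ _).2.1 (hei.off hv).1
          (hei.off hv).2).symm
  intro s hs
  have e := key (t j) (h.lt j hj1 hjk)
  rw [h.at0 j hj1 hjk, h.at1 j hj1 hjk, sq_cut] at e
  rw [key s hs, e]

/-- a face of a perpendicular visited tile that is not on the boundary of the trajectory -/
lemma Traj.perp_sq {M : ℤ × ℤ → Prop} {D : Set (ℤ × ℤ)} {c : ℕ → ℤ × ℤ} {n : ℕ}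
    (h : Traj M D c n) {f g v : ℤ × ℤ} (hv : v ∈ inner c n) (ho : Opp f g v)
    (hn : ¬ StpV M f g v) (hf : (f.1 + f.2) % 2 = 0) {κ : ℤ} (hk : (f.1 + κ) % 2 = 0)
    (hb : f ∉ Bd κ c n) : ∃ q1 q2 : ℤ × ℤ, (q1.1 = v.1 ∨ q1.1 = v.1 - 1) ∧
      (q1.2 = v.2 ∨ q1.2 = v.2 - 1) ∧ fc κ q1 = f ∧ (∃ s < n, sq (c s) (c (s + 1)) = q2) ∧
      fc κ q2 = g ∧ fc (κ + 1) q1 = fc (κ + 1) q2 ∧ (q2.1 = v.1 ∨ q2.1 = v.1 - 1) ∧
      (q2.2 = v.2 ∨ q2.2 = v.2 - 1) := by
  obtain ⟨s, hs, x, y, x', y', e1, e2, hx, hy, hx', hy', hM1, hM2⟩ := h.at_tile hv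
  have used : ∀ q : ℤ × ℤ, (q = (x, y) ∨ q = (x', y')) → ∃ s < n, sq (c s) (c (s + 1)) = q := by
    rintro q (rfl | rfl)
    · exact ⟨s, by omega, e1⟩
    · exact ⟨s + 1, hs, e2⟩
  have nf : ∀ q : ℤ × ℤ, (q = (x, y) ∨ q = (x', y')) → fc κ q ≠ f := by
    intro q hq e
    obtain ⟨s', hs', e'⟩ := used q hq
    exact hb ⟨s', hs', by rw [e', e]⟩
  have hvt : (v.1 + v.2) % 2 = 1 := Int.odd_iff.1 (ho.tile hf)
  obtain ⟨f1, f2⟩ := f
  obtain ⟨g1, g2⟩ := g
  obtain ⟨v1, v2⟩ := v
  have ho' := ho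
  unfold Opp at ho'
  simp only at *
  by_cases hM : M (v1, v2)
  · obtain ⟨hxx, hyy⟩ := hM1 hM
    have hv2 : f2 ≠ v2 := fun e => hn ⟨ho, iff_of_true hM e⟩
    -- the pass is on the side of g
    have hyg : fc κ (x, y) = (g1, g2) := by
      have hne := nf (x, y) (Or.inl rfl)
      apply fc_uniq <;> simp only
      · omega
      · omega
      · omega
      · by_contra hc
        apply hne
        apply fc_uniq <;> simp only <;> omega
    have hyg2 : g2 = y ∨ g2 = y + 1 := by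
      have := (fc_spec κ (x, y)).2.2.2
      rw [hyg] at this
      simpa using this
    refine ⟨(x, if y = v2 then v2 - 1 else v2), (x, y), hx, ?_, ?_, used _ (Or.inl rfl), hyg, ?_,
      hx, hy⟩
    · simp only; split_ifs <;> simp
    · apply fc_uniq <;> simp only <;> first | omega | (split_ifs <;> omega) | simp
    · have e3 : fc (κ + 1) (x, y) = (if x = v1 then v1 + 1 else v1 - 1, v2) := by
        apply fc_uniq <;> simp only <;> first | omega | (split_ifs <;> omega) | simp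
      rw [e3]
      apply fc_uniq <;> simp only <;> first | omega | (split_ifs <;> omega) | simp
  · obtain ⟨hxx, hyy⟩ := hM2 hM
    have hv2 : f2 = v2 := by
      by_contra e
      exact hn ⟨ho, iff_of_false hM e⟩
    have hyg : fc κ (x, y) = (g1, g2) := by
      have hne := nf (x, y) (Or.inl rfl)
      apply fc_uniq <;> simp only
      · omega
      · omega
      · by_contra hc
        apply hne
        apply fc_uniq <;> simp only <;> omega
      · omega
    have hyg2 : g1 = x ∨ g1 = x + 1 := by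
      have := (fc_spec κ (x, y)).2.2.1
      rw [hyg] at this
      simpa using this
    refine ⟨(if x = v1 then v1 - 1 else v1, y), (x, y), ?_, hy, ?_, used _ (Or.inl rfl), hyg, ?_,
      hx, hy⟩
    · simp only; split_ifs <;> simp
    · apply fc_uniq <;> simp only <;> first | omega | (split_ifs <;> omega) | simp
    · have e3 : fc (κ + 1) (x, y) = (v1, if y = v2 then v2 + 1 else v2 - 1) := by
        apply fc_uniq <;> simp only <;> first | omega | (split_ifs <;> omega) | simp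
      rw [e3]
      apply fc_uniq <;> simp only <;> first | omega | (split_ifs <;> omega) | simp

/-- all tiles visited by the trajectories -/
def visited (k : ℤ) (c : ℤ → ℕ → ℤ × ℤ) (n : ℤ → ℕ) : Set (ℤ × ℤ) :=
  {v | ∃ j, 1 ≤ j ∧ j ≤ k ∧ v ∈ inner (c j) (n j)}

/-- all boundary faces of the colour `κ` -/
def BdA (k : ℤ) (κ : ℤ) (c : ℤ → ℕ → ℤ × ℤ) (n : ℤ → ℕ) : Set (ℤ × ℤ) :=
  {f | ∃ j, 1 ≤ j ∧ j ≤ k ∧ f ∈ Bd κ (c j) (n j)}

/-- **Sector lemma**: at a perpendicular visited tile a face of colour `κ` in the sector of a cut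
face of colour `κ` is on the boundary. -/
lemma ArmsE.sector (h : ArmsE M k D c n t hh r r') {f g v : ℤ × ℤ} (hv : v ∈ visited k c n)
    (ho : Opp f g v) (hn : ¬ StpV M f g v) (hf : (f.1 + f.2) % 2 = 0) {κ : ℤ}
    (hk : (f.1 + κ) % 2 = 0) {j : ℤ} (hj0 : 0 ≤ j) (hjk : j ≤ k) (hj : (j + κ) % 2 = 0)
    (hs : ∀ i, 1 ≤ i → i ≤ k → sg c n r r' i f = sg c n r r' i (cF j)) : f ∈ BdA k κ c n := by
  by_contra hb
  obtain ⟨i, hi1, hik, hvi⟩ := hv
  have hti := h.traj i hi1 hik
  obtain ⟨q1, q2, a1, a2, a3, ⟨s, hsn, a4⟩, a5, a6, a7, a8⟩ := hti.perp_sq hvi ho hn hf hk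
    (fun e => hb ⟨i, hi1, hik, e⟩)
  have hvD : v ∈ D := hti.inner_sub hvi
  -- f and the neighbouring face of the other colour are in the same sector
  have e1 : ∀ i', 1 ≤ i' → i' ≤ k → sg c n r r' i' f = sg c n r r' i' (fc (κ + 1) (cS i)) := by
    intro i' h1' h2'
    have hp := h.path h1' h2'
    have e := sd_fc hp q1 κ
    have hoff := (h.ends i' h1' h2').off hvD
    have hp0 : pas (c i') (n i') q1.1 q1.2 = 0 := by
      apply pas_none
      intro s' hs' e'
      apply hb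
      exact ⟨i', h1', h2', s', hs', by rw [e', Prod.mk.eta, a3]⟩
    have t1 : tot (c i') (n i') (r i') (r' i') q1.1 q1.2 = 0 := by
      unfold tot
      rw [hoff.1.ras a1 a2, hoff.2.ras a1 a2, hp0, add_zero, add_zero]
    rw [t1, a3, a6] at e
    have e2 := h.sg_bd h1' h2' hi1 hik (κ + 1) s hsn
    rw [a4] at e2
    rw [← e2]
    exact add_eq_zero2 e
  -- the other cut face
  obtain ⟨j', hj', hj0', hjk', hfc⟩ : ∃ j', (j' + κ) % 2 = 1 ∧ 0 ≤ j' ∧ j' ≤ k ∧
      fc (κ + 1) (cS i) = cF j' := by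
    rw [fc_cS]
    by_cases hp : (i + (κ + 1)) % 2 = 0
    · exact ⟨i, by omega, by omega, hik, by rw [if_pos hp]⟩
    · exact ⟨i - 1, by omega, by omega, by omega, by rw [if_neg hp]⟩
  rcases lt_trichotomy j j' with hlt | heq | hlt
  · exact h.cF_ne hj0 hlt hjk' (by rw [← hs j' (by omega) hjk', e1 j' (by omega) hjk', hfc])
  · omega
  · exact h.cF_ne hj0' hlt hjk (by rw [← hs j (by omega) hjk, e1 j (by omega) hjk, hfc])

end

end TA
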