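import Pool.Agent.Helper47.Arms.KCut
import Pool.Agent.Helper69.TwoArm.Wrap

/-!
General `k`: definitions for the attachment lemma and the closing lemma.
-/

set_option autoImplicit false

namespace TA

/-- the ray of the end `(j, b)`: `b = true` is the forward (upper) end of the trajectory `j` -/
def er (r r' : ℤ → Ray) (j : ℤ) (b : Bool) : Ray := if b then r' j else r j

/-- faces of colour `κ` at the medial edges of the end `(j, b)` (including the cut side) -/
def BdE (κ : ℤ) (c : ℤ → ℕ → ℤ × ℤ) (n t : ℤ → ℕ) (j : ℤ) (b : Bool) : Set (ℤ × ℤ) :=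
  {f | ∃ s < n j, (if b then t j ≤ s else s ≤ t j) ∧ f = fc κ (sq (c j s) (c j (s + 1)))}

/-- position beyond the slab: the side (`true`: above) and the first coordinate -/
abbrev Pos := Bool × ℤ

/-- is the position west of (or at) the ray, on the same side of the slab -/
def pv (r r' : ℤ → Ray) (p : Pos) (j : ℤ) (b : Bool) : ZMod 2 :=
  if (er r r' j b).up = p.1 ∧ p.2 ≤ (er r r' j b).col then 1 else 0

/-- the two positions are in the same gap between the exits -/
def SG (k : ℤ) (r r' : ℤ → Ray) (p q : Pos) : Prop :=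
  (∀ j, 1 ≤ j → j ≤ k → ∀ b, pv r r' p j b = pv r r' q j b) ∨
  (∀ j, 1 ≤ j → j ≤ k → ∀ b, pv r r' p j b + pv r r' q j b = 1)

/-- position of the face of colour `κ` at the exit edge of the end `(j, b)` -/
def exP (r r' : ℤ → Ray) (κ j : ℤ) (b : Bool) : Pos :=
  ((er r r' j b).up, if ((er r r' j b).col + κ) % 2 = 0 then (er r r' j b).col
    else (er r r' j b).col + 1)

/-- the face `a` lies beyond the slab at the position `p` -/
def AtP (hh : ℤ) (a : ℤ × ℤ) (p : Pos) : Prop := p.2 = a.1 ∧ Byd p.1 hh a.2

end TA
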