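import Pool.Agent.Helper47.Arms.KDefs

/-!
General `k`: the explored set of the `k` interfaces through the cut sides is a stopping set; ends of
the trajectories in a rectangle.
-/

set_option autoImplicit false

namespace TA

open Arm57 (Stop Dec mix)

section

variable {M : ℤ × ℤ → Prop} {k : ℤ} {D : Set (ℤ × ℤ)} {c c' : ℤ → ℕ → ℤ × ℤ} {n t n' t' : ℤ → ℕ}

lemma Arms.path_j (h : Arms M k D c n t) {j : ℤ} (h1 : 1 ≤ j) (h2 : j ≤ k) :
    Path M D (cD j) (cU j) (c j) (n j) (t j) :=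
  ⟨h.traj j h1 h2, h.lt j h1 h2, h.at0 j h1 h2, h.at1 j h1 h2⟩

lemma Arms.uniq (h : Arms M k D c n t) (h' : Arms M k D c' n' t') {j : ℤ} (h1 : 1 ≤ j)
    (h2 : j ≤ k) : t j = t' j ∧ n j = n' j ∧ ∀ i ≤ n j, c j i = c' j i :=
  (h.path_j h1 h2).uniq (h'.path_j h1 h2)

lemma mem_visited {v : ℤ × ℤ} : v ∈ visited k c n ↔ ∃ j, 1 ≤ j ∧ j ≤ k ∧ v ∈ inner (c j) (n j) :=
  Iff.rfl

lemma Arms.visited_eq (h : Arms M k D c n t) (h' : Arms M k D c' n' t') :
    visited k c n = visited k c' n' := by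
  have key : ∀ {c c' : ℤ → ℕ → ℤ × ℤ} {n t n' t' : ℤ → ℕ}, Arms M k D c n t →
      Arms M k D c' n' t' → visited k c n ⊆ visited k c' n' := by
    rintro c c' n t n' t' h h' x ⟨j, h1, h2, hx⟩
    obtain ⟨-, a2, a3⟩ := h.uniq h' h1 h2
    rw [inner_congr a3, a2] at hx
    exact ⟨j, h1, h2, hx⟩
  exact Set.Subset.antisymm (key h h') (key h' h)

lemma Arms.visited_sub (h : Arms M k D c n t) : visited k c n ⊆ D := by
  rintro x ⟨j, h1, h2, hx⟩
  exact (h.traj j h1 h2).inner_sub hx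

lemma Arms.congr {M' : ℤ × ℤ → Prop} (h : Arms M k D c n t)
    (hM : ∀ x ∈ visited k c n, (M' x ↔ M x)) : Arms M' k D c n t :=
  ⟨fun j h1 h2 => (h.traj j h1 h2).congr (fun x hx => hM x ⟨j, h1, h2, hx⟩), h.lt, h.at0, h.at1,
    h.cut⟩

/-- the trajectories in a smaller domain are parts of the trajectories -/
lemma Arms.sub {D' : Set (ℤ × ℤ)} (h : Arms M k D' c n t) (hD : D ⊆ D') :
    ∃ s e : ℤ → ℕ, (∀ j, 1 ≤ j → j ≤ k → s j ≤ t j ∧ t j < e j ∧ e j ≤ n j) ∧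
      Arms M k D (fun j i => c j (s j + i)) (fun j => e j - s j) (fun j => t j - s j) := by
  classical
  have key : ∀ j : ℤ, ∃ p : ℕ × ℕ, 1 ≤ j → j ≤ k → p.1 ≤ t j ∧ t j < p.2 ∧ p.2 ≤ n j ∧
      Path M D (cD j) (cU j) (fun i => c j (p.1 + i)) (p.2 - p.1) (t j - p.1) := by
    intro j
    by_cases hj : 1 ≤ j ∧ j ≤ k
    · obtain ⟨s, e, h1, h2, h3, h4⟩ := (h.path_j hj.1 hj.2).sub hD
      exact ⟨(s, e), fun _ _ => ⟨h1, h2, h3, h4⟩⟩
    · exact ⟨(0, 0), fun a b => absurd ⟨a, b⟩ hj⟩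
  choose p hp using key
  refine ⟨fun j => (p j).1, fun j => (p j).2, fun j h1 h2 => ?_, ?_⟩
  · obtain ⟨a1, a2, a3, -⟩ := hp j h1 h2
    exact ⟨a1, a2, a3⟩
  · refine ⟨fun j h1 h2 => (hp j h1 h2).2.2.2.1, fun j h1 h2 => (hp j h1 h2).2.2.2.2.1,
      fun j h1 h2 => (hp j h1 h2).2.2.2.2.2.1, fun j h1 h2 => (hp j h1 h2).2.2.2.2.2.2, ?_⟩
    intro i j hi1 hik hj1 hjk hij s hs
    obtain ⟨a1, a2, a3, -⟩ := hp j hj1 hjk
    have hs' : s < (p j).2 - (p j).1 := hs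
    have := h.cut i j hi1 hik hj1 hjk hij ((p j).1 + s) (by omega)
    exact this

lemma ArmEv.mono {D' : Set (ℤ × ℤ)} (hD : D ⊆ D') (h : ArmEv M k D') : ArmEv M k D := by
  obtain ⟨c, n, t, h⟩ := h
  obtain ⟨s, e, -, h'⟩ := h.sub hD
  exact ⟨_, _, _, h'⟩

/-- the trajectories in the smaller domain visit fewer tiles -/
lemma Arms.visited_mono {D' : Set (ℤ × ℤ)} (h : Arms M k D c n t) (h' : Arms M k D' c' n' t')
    (hD : D ⊆ D') : visited k c n ⊆ visited k c' n' := by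
  rintro x ⟨j, h1, h2, hx⟩
  exact ⟨j, h1, h2, (h.path_j h1 h2).inner_mono (h'.path_j h1 h2) hD hx⟩

end

/-! ### the explored set -/

open Classical in
/-- the explored set: the tiles of `D` visited by the `k` trajectories through the cut sides; all of
`D` if the arm event of `D` fails -/
noncomputable def explK (k : ℤ) (D : Finset (ℤ × ℤ)) (S : Finset (ℤ × ℤ)) : Finset (ℤ × ℤ) :=
  D.filter (fun x => ArmEv (· ∈ S) k D → ∃ c n t, Arms (· ∈ S) k D c n t ∧ x ∈ visited k c n)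

section

variable {k : ℤ} {D : Finset (ℤ × ℤ)} {S : Finset (ℤ × ℤ)} {c : ℤ → ℕ → ℤ × ℤ} {n t : ℤ → ℕ}

lemma mem_explK_of_arms (h : Arms (· ∈ S) k D c n t) {x : ℤ × ℤ} :
    x ∈ explK k D S ↔ x ∈ visited k c n := by
  classical
  unfold explK
  rw [Finset.mem_filter]
  constructor
  · rintro ⟨-, h2⟩
    obtain ⟨c', n', t', h3, h4⟩ := h2 ⟨c, n, t, h⟩
    rw [h.visited_eq h3]
    exact h4
  · intro hx
    exact ⟨Finset.mem_coe.1 (h.visited_sub hx), fun _ => ⟨c, n, t, h, hx⟩⟩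

lemma explK_of_not (h : ¬ ArmEv (· ∈ S) k D) : explK k D S = D := by
  classical
  unfold explK
  rw [Finset.filter_true_of_mem]
  intro x _ h'
  exact absurd h' h

lemma explK_subset (k : ℤ) (D : Finset (ℤ × ℤ)) (S : Finset (ℤ × ℤ)) : explK k D S ⊆ D := by
  classical
  unfold explK
  exact Finset.filter_subset _ _

/-- every property of the trajectories is decided by the explored set -/
lemma dec_arms (F D : Finset (ℤ × ℤ)) (k : ℤ)
    (Q : (ℤ → ℕ → ℤ × ℤ) → (ℤ → ℕ) → (ℤ → ℕ) → Prop) :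
    Dec F (explK k D) (fun S => ∃ c n t, Arms (· ∈ S) k D c n t ∧ Q c n t) := by
  intro S _ S' _ h
  constructor
  · rintro ⟨c, n, t, hp, hQ⟩
    refine ⟨c, n, t, ?_, hQ⟩
    by_cases hT : ArmEv (· ∈ S) k D
    · obtain ⟨c0, n0, t0, hp0⟩ := hT
      have hp0' : Arms (· ∈ S') k D c0 n0 t0 := hp0.congr
        (fun x hx => agree h ((mem_explK_of_arms hp0).2 hx))
      refine hp.congr (fun x hx => ?_)
      rw [hp.visited_eq hp0'] at hx
      exact (agree h ((mem_explK_of_arms hp0).2 hx)).symm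
    · refine hp.congr (fun x hx => (agree h ?_).symm)
      rw [explK_of_not hT]
      exact Finset.mem_coe.1 (hp.visited_sub hx)
  · rintro ⟨c, n, t, hp, hQ⟩
    exact ⟨c, n, t, hp.congr (fun x hx => agree h ((mem_explK_of_arms hp).2 hx)), hQ⟩

lemma dec_armEv (F D : Finset (ℤ × ℤ)) (k : ℤ) :
    Dec F (explK k D) (fun S => ArmEv (· ∈ S) k D) := by
  have := dec_arms F D k (fun _ _ _ => True)
  intro S hS S' hS' h
  have := this S hS S' hS' h
  simp only [and_true] at this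
  exact this

/-- the explored set is a stopping set -/
lemma stop_explK (F D : Finset (ℤ × ℤ)) (k : ℤ) : Stop F (explK k D) := by
  intro S hS S' hS' h
  by_cases hT : ArmEv (· ∈ S) k D
  · obtain ⟨c, n, t, hp⟩ := hT
    have hp' : Arms (· ∈ S') k D c n t := hp.congr
      (fun x hx => agree h ((mem_explK_of_arms hp).2 hx))
    ext x
    rw [mem_explK_of_arms hp, mem_explK_of_arms hp']
  · have hT' : ¬ ArmEv (· ∈ S') k D := fun h' => hT ((dec_armEv F D k S hS S' hS' h).1 h')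
    rw [explK_of_not hT, explK_of_not hT']

/-- the explored set grows with the domain -/
lemma explK_mono {D D' : Finset (ℤ × ℤ)} (hD : D ⊆ D') (k : ℤ) (S : Finset (ℤ × ℤ)) :
    explK k D S ⊆ explK k D' S := by
  have hD2 : (D : Set (ℤ × ℤ)) ⊆ D' := by exact_mod_cast hD
  by_cases hT : ArmEv (· ∈ S) k D'
  · obtain ⟨c', n', t', hp'⟩ := hT
    obtain ⟨s, e, -, hp⟩ := hp'.sub hD2
    intro x hx
    rw [mem_explK_of_arms hp] at hx
    rw [mem_explK_of_arms hp']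
    exact hp.visited_mono hp' hD2 hx
  · rw [explK_of_not hT]
    exact (explK_subset k D S).trans hD

/-- the resampled configuration agrees with the old one on the visited tiles -/
lemma mix_visited {S' : Finset (ℤ × ℤ)} (hp : Arms (· ∈ S) k D c n t) :
    ∀ x ∈ visited k c n, (x ∈ mix (explK k D S) S S' ↔ x ∈ S) :=
  fun _ hx => mix_on ((mem_explK_of_arms hp).2 hx)

/-- the resampled configuration agrees with the new one off the visited tiles -/
lemma mix_unvisited {S' : Finset (ℤ × ℤ)} (hp : Arms (· ∈ S) k D c n t) {x : ℤ × ℤ}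
    (hx : x ∉ visited k c n) : (x ∈ mix (explK k D S) S S' ↔ x ∈ S') :=
  mix_off (fun h => hx ((mem_explK_of_arms hp).1 h))

/-- the trajectories are the same after resampling -/
lemma Arms.mix {S' : Finset (ℤ × ℤ)} (hp : Arms (· ∈ S) k D c n t) :
    Arms (· ∈ mix (explK k D S) S S') k D c n t := hp.congr (mix_visited hp)

end

/-! ### the trajectories in a rectangle -/

section

variable {M : ℤ × ℤ → Prop} {k : ℤ} {c : ℤ → ℕ → ℤ × ℤ} {n t : ℤ → ℕ} {W H : ℤ}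

/-- no exit through the short sides: all ends are top or bottom exits -/
theorem armsE_of (hH : 0 ≤ H) (h : Arms M k (rect W H) c n t)
    (hcU : ∀ j, 1 ≤ j → j ≤ k → cU j ∈ rect W H) (hcD : ∀ j, 1 ≤ j → j ≤ k → cD j ∈ rect W H)
    (h0 : ∀ j, 1 ≤ j → j ≤ k → -W ≤ (c j 0).1 ∧ (c j 0).1 ≤ W)
    (h1 : ∀ j, 1 ≤ j → j ≤ k → -W ≤ (c j (n j)).1 ∧ (c j (n j)).1 ≤ W) :
    ArmsE M k (rect W H) c n t H (fun j => ray0 (c j)) (fun j => rayN (c j) (n j)) where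
  toArms := h
  ends j a b := ends_of hH (h.traj j a b) ((h.path_j a b).two_le (Or.inl (hcD j a b))) (h0 j a b)
    (h1 j a b)
  cutU := hcU
  cutD := hcD

/-- the cut tiles are in the rectangle if it is large -/
lemma cut_mem (hW : k ≤ W) (hH : k ≤ H) {j : ℤ} (h1 : 1 ≤ j) (h2 : j ≤ k) :
    cU j ∈ rect W H ∧ cD j ∈ rect W H := by
  unfold cU cD rect
  simp only [Set.mem_ofPred_eq]
  omega

/-- where a trajectory ends: it leaves the rectangle through one of the four sides -/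
lemma Arms.exits (h : Arms M k (rect W H) c n t) {j : ℤ} (h1 : 1 ≤ j) (h2 : j ≤ k)
    (hc : cD j ∈ rect W H) :
    ((c j (n j)).1 = W + 1 ∨ (c j (n j)).1 = -W - 1 ∨
      (-W ≤ (c j (n j)).1 ∧ (c j (n j)).1 ≤ W)) ∧
    ((c j 0).1 = W + 1 ∨ (c j 0).1 = -W - 1 ∨ (-W ≤ (c j 0).1 ∧ (c j 0).1 ≤ W)) := by
  have hn := (h.path_j h1 h2).two_le (Or.inl hc)
  have e1 := exit_cases (h.traj j h1 h2) hn
  have e0 := exit_cases (h.traj j h1 h2).rev hn
  simp only [Nat.sub_self] at e0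
  omega

/-- a vertical crossing (of any colour) of a band on the right (left) of the cut prevents the exits
through the right (left) side -/
theorem side_blockK (h : Arms M k (rect W H) c n t) (hcU : ∀ j, 1 ≤ j → j ≤ k → cU j ∈ rect W H)
    (hcD : ∀ j, 1 ≤ j → j ≤ k → cD j ∈ rect W H) {x1 x2 : ℤ} {R : Set (ℤ × ℤ)}
    (hR : ∀ v ∈ R, x1 ≤ v.1 ∧ v.1 ≤ x2) {a b : ℤ × ℤ} (hw : Conn M R a b)
    (hf : (a.1 + a.2) % 2 = 0) (ha : a.2 ≤ -H - 1) (hb : H + 1 ≤ b.2) :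
    (x2 ≤ W → k + 1 < x1 → ∀ j, 1 ≤ j → j ≤ k → (c j (n j)).1 ≠ W + 1 ∧ (c j 0).1 ≠ W + 1) ∧
    (-W < x1 → x2 + 1 ≤ 0 → ∀ j, 1 ≤ j → j ≤ k →
      (c j (n j)).1 ≠ -W - 1 ∧ (c j 0).1 ≠ -W - 1) := by
  have key := fun (j : ℤ) (h1 : 1 ≤ j) (h2 : j ≤ k) =>
    side_block (h.path_j h1 h2) (hcD j h1 h2) (hcU j h1 h2) hR hw hf ha hb
  constructor
  · intro g1 g2 j h1 h2
    refine (key j h1 h2).1 g1 ?_ ?_
    · unfold cD; simp only; omega
    · unfold cU; simp only; omega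
  · intro g1 g2 j h1 h2
    refine (key j h1 h2).2 g1 ?_ ?_
    · unfold cD; simp only; omega
    · unfold cU; simp only; omega

/-- crossings on both sides of the cut: all ends are top or bottom exits -/
theorem armsE_of_blocks (hH : 0 ≤ H) (h : Arms M k (rect W H) c n t)
    (hcU : ∀ j, 1 ≤ j → j ≤ k → cU j ∈ rect W H) (hcD : ∀ j, 1 ≤ j → j ≤ k → cD j ∈ rect W H)
    {x1 x2 : ℤ} {R : Set (ℤ × ℤ)} (hR : ∀ v ∈ R, x1 ≤ v.1 ∧ v.1 ≤ x2) {a b : ℤ × ℤ}
    (hw : Conn M R a b) (hf : (a.1 + a.2) % 2 = 0) (ha : a.2 ≤ -H - 1) (hb : H + 1 ≤ b.2)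
    (hx2 : x2 ≤ W) (hx1 : k + 1 < x1) {y1 y2 : ℤ} {R' : Set (ℤ × ℤ)}
    (hR' : ∀ v ∈ R', y1 ≤ v.1 ∧ v.1 ≤ y2) {a' b' : ℤ × ℤ} (hw' : Conn M R' a' b')
    (hf' : (a'.1 + a'.2) % 2 = 0) (ha' : a'.2 ≤ -H - 1) (hb' : H + 1 ≤ b'.2) (hy1 : -W < y1)
    (hy2 : y2 + 1 ≤ 0) :
    ArmsE M k (rect W H) c n t H (fun j => ray0 (c j)) (fun j => rayN (c j) (n j)) := by
  have k1 := (side_blockK h hcU hcD hR hw hf ha hb).1 hx2 hx1
  have k2 := (side_blockK h hcU hcD hR' hw' hf' ha' hb').2 hy1 hy2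
  refine armsE_of hH h hcU hcD (fun j h1 h2 => ?_) (fun j h1 h2 => ?_)
  · have e := (h.exits h1 h2 (hcD j h1 h2)).2
    have e1 := (k1 j h1 h2).2
    have e2 := (k2 j h1 h2).2
    omega
  · have e := (h.exits h1 h2 (hcD j h1 h2)).1
    have e1 := (k1 j h1 h2).1
    have e2 := (k2 j h1 h2).1
    omega

end

end TA
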