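import Pool.Agent.Helper47.Arms.KAttach

/-!
General `k`: the attachment lemma is `TA.attach_stmt` in `KAttach.lean`.
-/
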