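import Pool.Agent.Helper8.CB.Enum
import Pool.Agent.Helper47.Arms.KStmt

/-!
General `k`: gaps between the exits, colours of the gaps, attachment of the feet of the lanes.
-/

set_option autoImplicit false

namespace TA

open CB (LP Enum InC Col)

/-- the position `p` lies in the gap number `g` (clockwise from the exit `g`) -/
def Gap (q : LP) (r r' : ℤ → Ray) (ej : ℤ → ℤ) (eb : ℤ → Bool) (p : Pos) (g : ℤ) : Prop :=
  ∀ i, 1 ≤ i → i ≤ 2 * q.k → pv r r' p (ej i) (eb i) =
    (if i ≤ q.a then 1 else 0) + (if i ≤ g then 1 else 0)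

section

variable {q : LP} {m : ℤ} {r r' : ℤ → Ray} {ej : ℤ → ℤ} {eb : ℤ → Bool}

/-- positions in the same gap -/
lemma Gap.sg (E : Enum q m r r' ej eb) {p p' : Pos} {g g' : ℤ} (h : Gap q r r' ej eb p g)
    (h' : Gap q r r' ej eb p' g') (hg : g = g' ∨ (g = 2 * q.k ∧ g' = 0)) :
    SG q.k r r' p p' := by
  rcases hg with rfl | ⟨rfl, rfl⟩
  · left
    intro j j1 j2 b
    obtain ⟨i, i1, i2, rfl, rfl⟩ := E.surj j j1 j2 b
    rw [h i i1 i2, h' i i1 i2]
  · right
    intro j j1 j2 b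
    obtain ⟨i, i1, i2, rfl, rfl⟩ := E.surj j j1 j2 b
    rw [h i i1 i2, h' i i1 i2, if_pos (show i ≤ 2 * q.k from i2), if_neg (show ¬ i ≤ 0 by omega)]
    linear_combination z2 (if i ≤ q.a then (1 : ZMod 2) else 0)

/-- the two positions next to the exit `i` differ exactly at the ray of the exit `i` -/
lemma Gap.ne (E : Enum q m r r' ej eb) {p p' : Pos} {i : ℤ} (i1 : 1 ≤ i) (i2 : i ≤ 2 * q.k)
    (h : Gap q r r' ej eb p i) (h' : Gap q r r' ej eb p' (i - 1)) :
    pv r r' p (ej i) false + pv r r' p (ej i) true ≠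
      pv r r' p' (ej i) false + pv r r' p' (ej i) true := by
  have key : ∀ l, 1 ≤ l → l ≤ 2 * q.k → pv r r' p (ej l) (eb l) + pv r r' p' (ej l) (eb l) =
      if l = i then 1 else 0 := by
    intro l l1 l2
    rw [h l l1 l2, h' l l1 l2]
    have e := z2 (if l ≤ q.a then (1 : ZMod 2) else 0)
    rcases lt_trichotomy l i with hl | hl | hl
    · rw [if_pos (show l ≤ i by omega), if_pos (show l ≤ i - 1 by omega),
        if_neg (show ¬ l = i by omega)]
      linear_combination e + z2 (1 : ZMod 2)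
    · rw [if_pos (show l ≤ i by omega), if_neg (show ¬ l ≤ i - 1 by omega), if_pos hl]
      linear_combination e
    · rw [if_neg (show ¬ l ≤ i by omega), if_neg (show ¬ l ≤ i - 1 by omega),
        if_neg (show ¬ l = i by omega)]
      linear_combination e
  obtain ⟨m1, m2⟩ := E.mem i i1 i2
  obtain ⟨l, l1, l2, l3, l4⟩ := E.surj (ej i) m1 m2 (!eb i)
  have hli : l ≠ i := by
    rintro rfl
    revert l4
    cases eb l <;> decide
  have k1 := key i i1 i2
  have k2 := key l l1 l2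
  rw [if_pos rfl] at k1
  rw [if_neg hli, l3, l4] at k2
  intro e
  have : (1 : ZMod 2) = 0 := by
    cases hb : eb i
    · rw [hb] at k1 k2
      simp only [Bool.not_false] at k2
      linear_combination e - k1 - k2 + z2 (pv r r' p' (ej i) false + pv r r' p' (ej i) true)
    · rw [hb] at k1 k2
      simp only [Bool.not_true] at k2
      linear_combination e - k1 - k2 + z2 (pv r r' p' (ej i) false + pv r r' p' (ej i) true)
  exact absurd this (by decide)

/-- the columns of the exits of one side are far from each other -/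
lemma col_top (E : Enum q m r r' ej eb) (hm : 1 ≤ m) {i l : ℤ} (i1 : 1 ≤ i) (hil : i < l)
    (l2 : l ≤ q.a) :
    (er r r' (ej i) (eb i)).col + 10 * m < (er r r' (ej l) (eb l)).col := by
  have ha := q.ha'
  have c1 := E.cell i i1 (by omega)
  have c2 := E.cell l (by omega) (by omega)
  have hx := q.htop i l i1 hil l2
  have : 2 * m * (q.x i + 6) ≤ 2 * m * q.x l := mul_le_mul_of_nonneg_left hx (by omega)
  linarith

lemma col_bot (E : Enum q m r r' ej eb) (hm : 1 ≤ m) {i l : ℤ} (i1 : q.a < i) (hil : i < l)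
    (l2 : l ≤ 2 * q.k) :
    (er r r' (ej l) (eb l)).col + 10 * m < (er r r' (ej i) (eb i)).col := by
  have ha := q.ha
  have c1 := E.cell i (by omega) (by omega)
  have c2 := E.cell l (by omega) (by omega)
  have hx := q.hbot i l i1 hil l2
  have : 2 * m * (q.x l + 6) ≤ 2 * m * q.x i := mul_le_mul_of_nonneg_left hx (by omega)
  linarith

/-- values of `pv` -/
lemma Enum.pv_top (E : Enum q m r r' ej eb) {i : ℤ} (i1 : 1 ≤ i) (i2 : i ≤ 2 * q.k) {X : ℤ} :
    pv r r' (true, X) (ej i) (eb i) =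
      if i ≤ q.a ∧ X ≤ (er r r' (ej i) (eb i)).col then 1 else 0 := by
  unfold pv
  simp only [E.up i i1 i2]

lemma Enum.pv_bot (E : Enum q m r r' ej eb) {i : ℤ} (i1 : 1 ≤ i) (i2 : i ≤ 2 * q.k) {X : ℤ} :
    pv r r' (false, X) (ej i) (eb i) =
      if q.a < i ∧ X ≤ (er r r' (ej i) (eb i)).col then 1 else 0 := by
  unfold pv
  have h : (er r r' (ej i) (eb i)).up = false ↔ q.a < i := by
    rw [← not_le, ← E.up i i1 i2, Bool.not_eq_true]
  simp only [h]

lemma Enum.up_eq (E : Enum q m r r' ej eb) {i : ℤ} (i1 : 1 ≤ i) (i2 : i ≤ 2 * q.k) :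
    (er r r' (ej i) (eb i)).up = decide (i ≤ q.a) := by
  have := E.up i i1 i2
  by_cases h : i ≤ q.a
  · rw [this.2 h, decide_eq_true h]
  · rw [decide_eq_false h, ← Bool.not_eq_true]
    exact fun e => h (this.1 e)

/-- clockwise from the exit `i` -/
lemma gap_cw (E : Enum q m r r' ej eb) (hm : 1 ≤ m) {i : ℤ} (i1 : 1 ≤ i) (i2 : i ≤ 2 * q.k)
    {X : ℤ} (ht : i ≤ q.a → (er r r' (ej i) (eb i)).col < X ∧
      X ≤ (er r r' (ej i) (eb i)).col + 10 * m)
    (hb : q.a < i → (er r r' (ej i) (eb i)).col - 10 * m ≤ X ∧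
      X ≤ (er r r' (ej i) (eb i)).col) :
    Gap q r r' ej eb ((er r r' (ej i) (eb i)).up, X) i := by
  intro l l1 l2
  rw [Enum.up_eq E i1 i2]
  rcases le_or_gt i q.a with h | h
  · have h1 := ht h
    rw [decide_eq_true h, Enum.pv_top E l1 l2]
    rcases le_or_gt l q.a with h2 | h2
    · rcases lt_trichotomy l i with h3 | h3 | h3
      · have := col_top E hm l1 h3 h
        rw [if_neg (by omega), if_pos h2, if_pos h3.le]
        decide
      · subst h3
        rw [if_neg (by omega), if_pos h2, if_pos le_rfl]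
        decide
      · have := col_top E hm i1 h3 h2
        rw [if_pos (by omega), if_pos h2, if_neg (by omega), add_zero]
    · rw [if_neg (by omega), if_neg (by omega), if_neg (by omega), add_zero]
  · have h1 := hb h
    rw [decide_eq_false (by omega), Enum.pv_bot E l1 l2]
    rcases le_or_gt l q.a with h2 | h2
    · rw [if_neg (by omega), if_pos h2, if_pos (by omega)]
      decide
    · rcases lt_trichotomy l i with h3 | h3 | h3
      · have := col_bot E hm h2 h3 i2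
        rw [if_pos (by omega), if_neg (by omega), if_pos (by omega), zero_add]
      · subst h3
        rw [if_pos (by omega), if_neg (by omega), if_pos (by omega), zero_add]
      · have := col_bot E hm h h3 l2
        rw [if_neg (by omega), if_neg (by omega), if_neg (by omega), zero_add]

/-- counterclockwise from the exit `i` -/
lemma gap_ccw (E : Enum q m r r' ej eb) (hm : 1 ≤ m) {i : ℤ} (i1 : 1 ≤ i) (i2 : i ≤ 2 * q.k)
    {X : ℤ} (ht : i ≤ q.a → (er r r' (ej i) (eb i)).col - 10 * m ≤ X ∧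
      X ≤ (er r r' (ej i) (eb i)).col)
    (hb : q.a < i → (er r r' (ej i) (eb i)).col < X ∧
      X ≤ (er r r' (ej i) (eb i)).col + 10 * m) :
    Gap q r r' ej eb ((er r r' (ej i) (eb i)).up, X) (i - 1) := by
  intro l l1 l2
  rw [Enum.up_eq E i1 i2]
  rcases le_or_gt i q.a with h | h
  · have h1 := ht h
    rw [decide_eq_true h, Enum.pv_top E l1 l2]
    rcases le_or_gt l q.a with h2 | h2
    · rcases lt_trichotomy l i with h3 | h3 | h3
      · have := col_top E hm l1 h3 h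
        rw [if_neg (by omega), if_pos h2, if_pos (by omega)]
        decide
      · subst h3
        rw [if_pos (by omega), if_pos h2, if_neg (by omega), add_zero]
      · have := col_top E hm i1 h3 h2
        rw [if_pos (by omega), if_pos h2, if_neg (by omega), add_zero]
    · rw [if_neg (by omega), if_neg (by omega), if_neg (by omega), add_zero]
  · have h1 := hb h
    rw [decide_eq_false (by omega), Enum.pv_bot E l1 l2]
    rcases le_or_gt l q.a with h2 | h2
    · rw [if_neg (by omega), if_pos h2, if_pos (by omega)]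
      decide
    · rcases lt_trichotomy l i with h3 | h3 | h3
      · have := col_bot E hm h2 h3 i2
        rw [if_pos (by omega), if_neg (by omega), if_pos (by omega), zero_add]
      · subst h3
        rw [if_neg (by omega), if_neg (by omega), if_neg (by omega), zero_add]
      · have := col_bot E hm h h3 l2
        rw [if_neg (by omega), if_neg (by omega), if_neg (by omega), zero_add]

/-- the clockwise side of the exit `i` has colour `κ` -/
def Cw (q : LP) (r r' : ℤ → Ray) (ej : ℤ → ℤ) (eb : ℤ → Bool) (i κ : ℤ) : Prop :=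
  ((er r r' (ej i) (eb i)).col + κ + (if i ≤ q.a then 1 else 0)) % 2 = 0

lemma gap_exP (E : Enum q m r r' ej eb) (hm : 1 ≤ m) {i κ : ℤ} (i1 : 1 ≤ i) (i2 : i ≤ 2 * q.k)
    (h : Cw q r r' ej eb i κ) : Gap q r r' ej eb (exP r r' κ (ej i) (eb i)) i := by
  unfold Cw at h
  unfold exP
  apply gap_cw E hm i1 i2
  · intro h1
    rw [if_pos h1] at h
    rw [if_neg (by omega)]
    omega
  · intro h1
    rw [if_neg (by omega)] at h
    rw [if_pos (by omega)]
    omega

lemma gap_exP' (E : Enum q m r r' ej eb) (hm : 1 ≤ m) {i κ : ℤ} (i1 : 1 ≤ i) (i2 : i ≤ 2 * q.k)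
    (h : ¬ Cw q r r' ej eb i κ) : Gap q r r' ej eb (exP r r' κ (ej i) (eb i)) (i - 1) := by
  unfold Cw at h
  unfold exP
  apply gap_ccw E hm i1 i2
  · intro h1
    rw [if_pos h1] at h
    rw [if_pos (by omega)]
    omega
  · intro h1
    rw [if_neg (by omega)] at h
    rw [if_neg (by omega)]
    omega

end

section

variable {M : ℤ × ℤ → Prop} {k : ℤ} {D : Set (ℤ × ℤ)} {c : ℤ → ℕ → ℤ × ℤ}
  {n t : ℤ → ℕ} {hh : ℤ} {r r' : ℤ → Ray}

/-- side functions beyond the slab -/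
lemma ArmsE.sg_pos (h : ArmsE M k D c n t hh r r') {f : ℤ × ℤ} {p : Pos}
    (hf : (f.1 + f.2) % 2 = 0) (hp : AtP hh f p) {j : ℤ} (j1 : 1 ≤ j) (j2 : j ≤ k) :
    sg c n r r' j f = pv r r' p j false + pv r r' p j true := by
  unfold sg
  rw [(h.ends j j1 j2).val2 (h.traj j j1 j2) hf hp.2]
  unfold ind pv er
  rw [hp.1]
  simp

/-- the faces at the exit edge -/
lemma ArmsE.exit_face (h : ArmsE M k D c n t hh r r') {j : ℤ} (j1 : 1 ≤ j) (j2 : j ≤ k)
    (b : Bool) (κ : ℤ) : ∃ s < n j, AtP hh (fc κ (sq (c j s) (c j (s + 1)))) (exP r r' κ j b) := by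
  have he := h.ends j j1 j2
  have ht := h.traj j j1 j2
  have hpos := ht.pos
  cases b
  · have := (he.rev ht).last ht.rev κ
    rw [show n j - (n j - 1) = 1 by omega, Nat.sub_self, sq_comm] at this
    refine ⟨0, hpos, ?_⟩
    unfold AtP exP er
    simp only [Bool.false_eq_true, if_false]
    exact ⟨this.2.symm, this.1⟩
  · have := he.last ht κ
    refine ⟨n j - 1, by omega, ?_⟩
    rw [show n j - 1 + 1 = n j by omega]
    unfold AtP exP er
    simp only [if_true]
    exact ⟨this.2.symm, this.1⟩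

/-- equal side functions imply equal colours of roots -/
lemma ArmsE.same_col (h : ArmsE M k D c n t hh r r') {j j' κ κ' : ℤ} (j1 : 1 ≤ j) (j2 : j ≤ k)
    (j1' : 1 ≤ j') (j2' : j' ≤ k) {b b' : Bool}
    (hs : SG k r r' (exP r r' κ j b) (exP r r' κ' j' b')) : (κ + κ') % 2 = 0 := by
  by_contra hne
  obtain ⟨s, hs1, hs2⟩ := h.exit_face j1 j2 b κ
  obtain ⟨s', hs1', hs2'⟩ := h.exit_face j1' j2' b' κ'
  have key : ∀ l, 1 ≤ l → l ≤ k → sg c n r r' l (fc κ (cS j)) = sg c n r r' l (fc κ' (cS j')) := by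
    intro l l1 l2
    rw [← h.sg_bd l1 l2 j1 j2 κ s hs1, ← h.sg_bd l1 l2 j1' j2' κ' s' hs1',
      h.sg_pos (fc_spec κ _).2.1 hs2 l1 l2, h.sg_pos (fc_spec κ' _).2.1 hs2' l1 l2]
    rcases hs with hs | hs
    · rw [hs l l1 l2, hs l l1 l2]
    · have e1 := hs l l1 l2 false
      have e2 := hs l l1 l2 true
      have z := z2 (pv r r' (exP r r' κ' j' b') l false + pv r r' (exP r r' κ' j' b') l true)
      linear_combination e1 + e2 - z + z2 1
  obtain ⟨α, hα, hα0, hαk, ha⟩ : ∃ α : ℤ, (α + κ) % 2 = 0 ∧ 0 ≤ α ∧ α ≤ k ∧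
      fc κ (cS j) = cF α := by
    rw [fc_cS]
    by_cases hp : (j + κ) % 2 = 0
    · exact ⟨j, hp, by omega, by omega, by rw [if_pos hp]⟩
    · exact ⟨j - 1, by omega, by omega, by omega, by rw [if_neg hp]⟩
  obtain ⟨β, hβ, hβ0, hβk, hb⟩ : ∃ β : ℤ, (β + κ') % 2 = 0 ∧ 0 ≤ β ∧ β ≤ k ∧
      fc κ' (cS j') = cF β := by
    rw [fc_cS]
    by_cases hp : (j' + κ') % 2 = 0
    · exact ⟨j', hp, by omega, by omega, by rw [if_pos hp]⟩
    · exact ⟨j' - 1, by omega, by omega, by omega, by rw [if_neg hp]⟩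
  rw [ha, hb] at key
  rcases lt_trichotomy α β with hlt | heq | hlt
  · exact h.cF_ne hα0 hlt hβk (key β (by omega) hβk)
  · omega
  · exact h.cF_ne hβ0 hlt hαk (key α (by omega) hαk).symm

end

section

variable {q : LP} {m : ℤ} {M : ℤ × ℤ → Prop} {D : Set (ℤ × ℤ)} {c : ℤ → ℕ → ℤ × ℤ}
  {n t : ℤ → ℕ} {hh : ℤ} {r r' : ℤ → Ray} {ej : ℤ → ℤ} {eb : ℤ → Bool}

/-- the colours of the gaps alternate -/
lemma exists_k0 (hm : 1 ≤ m) (h : ArmsE M q.k D c n t hh r r') (E : Enum q m r r' ej eb) :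
    ∃ k0 : ℤ, (k0 = 0 ∨ k0 = 1) ∧ ∀ i, 1 ≤ i → i ≤ 2 * q.k → ∀ κ,
      (Cw q r r' ej eb i κ ↔ (i + k0 + κ) % 2 = 0) := by
  have hk := q.hk
  have step : ∀ i, 1 ≤ i → i + 1 ≤ 2 * q.k → ∀ κ, Cw q r r' ej eb i κ →
      ¬ Cw q r r' ej eb (i + 1) κ := by
    intro i i1 i2 κ hc hc'
    obtain ⟨a1, a2⟩ := E.mem i i1 (by omega)
    obtain ⟨b1, b2⟩ := E.mem (i + 1) (by omega) i2
    have hc2 : ¬ Cw q r r' ej eb (i + 1) (κ + 1) := by
      unfold Cw at hc' ⊢
      omega
    have g1 := gap_exP E hm i1 (by omega) hc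
    have g2 := gap_exP' E hm (by omega) i2 hc2
    rw [add_sub_cancel_right] at g2
    have := h.same_col a1 a2 b1 b2 (Gap.sg E g1 g2 (Or.inl rfl))
    omega
  refine ⟨((er r r' (ej 1) (eb 1)).col + (if 1 ≤ q.a then 1 else 0) + 1) % 2, by omega, ?_⟩
  have main : ∀ l : ℕ, (l : ℤ) + 1 ≤ 2 * q.k → ∀ κ, (Cw q r r' ej eb (l + 1) κ ↔
      ((l : ℤ) + 1 + ((er r r' (ej 1) (eb 1)).col + (if 1 ≤ q.a then 1 else 0) + 1) % 2 + κ) % 2
        = 0) := by
    intro l
    induction l with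
    | zero =>
      intro _ κ
      unfold Cw
      simp only [Nat.cast_zero, zero_add]
      omega
    | succ l ih =>
      intro hl κ
      push_cast at hl ⊢
      have ih' := ih (by omega)
      have s1 := step ((l : ℤ) + 1) (by omega) hl κ
      have s2 := step ((l : ℤ) + 1) (by omega) hl (κ + 1)
      rw [ih'] at s1 s2
      unfold Cw at s1 s2 ⊢
      omega
  intro i i1 i2 κ
  have := main (i - 1).toNat (by omega) κ
  rw [show (((i - 1).toNat : ℕ) : ℤ) + 1 = i by omega] at this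
  exact this

/-- position of the tiles of the `U` -/
lemma U_pos (hm : 1 ≤ m) {i : ℤ} (i1 : 1 ≤ i) (i2 : i ≤ 2 * q.k) {v : ℤ × ℤ}
    (hv : v ∈ CB.Reg m {c | q.U i c}) :
    (i ≤ q.a → 2 * m * (q.h - 3) ≤ v.2 ∧ (v.2 < 2 * m * (q.h - 2) ∨ ∀ l, 1 ≤ l → l ≤ q.a →
      2 * m * q.x l + 4 * m ≤ v.1 ∨ v.1 < 2 * m * q.x l - 2 * m)) ∧
    (q.a < i → v.2 < - (2 * m * (q.h - 3)) ∧ (-(2 * m * (q.h - 2)) ≤ v.2 ∨
      ∀ l, q.a < l → l ≤ 2 * q.k → 2 * m * q.x l + 4 * m ≤ v.1 ∨
        v.1 < 2 * m * q.x l - 2 * m)) := by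
  obtain ⟨⟨cx, cy⟩, hU, v1, v2, v3, v4⟩ := hv
  obtain ⟨w1, w2⟩ := v
  simp only [Set.mem_ofPred_eq] at hU
  simp only at v1 v2 v3 v4 ⊢
  have h2m : (0 : ℤ) ≤ 2 * m := by omega
  have hmul : ∀ a b : ℤ, a ≤ b → 2 * m * a ≤ 2 * m * b := fun a b hab =>
    mul_le_mul_of_nonneg_left hab h2m
  unfold CB.LP.U CB.Rc CB.LP.fx CB.LP.fx' CB.LP.ulo CB.LP.uhi CB.LP.uy at hU
  simp only at hU
  constructor
  · intro hi
    simp only [if_pos hi] at hU
    have hcy : q.h - 3 ≤ cy := by omega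
    refine ⟨(hmul _ _ hcy).trans v3, ?_⟩
    rcases Classical.em (cy = q.h - 3) with hc | hc
    · left
      have := hmul (cy + 1) (q.h - 2) (by omega)
      omega
    · right
      intro l l1 l2
      have hcx : cx = q.x i + 2 ∨ cx = q.x i - 2 := by omega
      have hx : l = i ∨ q.x l + 6 ≤ q.x i ∨ q.x i + 6 ≤ q.x l := by
        rcases lt_trichotomy l i with h3 | h3 | h3
        · exact Or.inr (Or.inl (q.htop l i l1 h3 hi))
        · exact Or.inl h3
        · exact Or.inr (Or.inr (q.htop i l i1 h3 l2))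
      have hd : q.x l + 2 ≤ cx ∨ cx + 2 ≤ q.x l := by
        rcases hx with rfl | hx | hx <;> omega
      rcases hd with hd | hd
      · left
        have := hmul _ _ hd
        linarith
      · right
        have := hmul _ _ hd
        linarith
  · intro hi
    simp only [if_neg (show ¬ i ≤ q.a by omega)] at hU
    have hcy : cy + 1 ≤ -(q.h - 3) := by omega
    refine ⟨by have := hmul _ _ hcy; linarith, ?_⟩
    rcases Classical.em (cy = -q.h + 2) with hc | hc
    · left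
      have := hmul (-(q.h - 2)) cy (by omega)
      linarith
    · right
      intro l l1 l2
      have hcx : cx = q.x i + 2 ∨ cx = q.x i - 2 := by omega
      have hx : l = i ∨ q.x l + 6 ≤ q.x i ∨ q.x i + 6 ≤ q.x l := by
        rcases lt_trichotomy l i with h3 | h3 | h3
        · exact Or.inr (Or.inr (q.hbot l i l1 h3 i2))
        · exact Or.inl h3
        · exact Or.inr (Or.inl (q.hbot i l hi h3 l2))
      have hd : q.x l + 2 ≤ cx ∨ cx + 2 ≤ q.x l := by
        rcases hx with rfl | hx | hx <;> omega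
      rcases hd with hd | hd
      · left
        have := hmul _ _ hd
        linarith
      · right
        have := hmul _ _ hd
        linarith

/-- the `U` around an exit avoids the rays, the exit tiles and the cut tiles -/
lemma U_off (hm : 1 ≤ m) (h : ArmsE M q.k D c n t hh r r') (E : Enum q m r r' ej eb)
    (hh1 : 2 * m * (q.h - 2) ≤ hh) (hkm : q.k ≤ 2 * m * (q.h - 3)) {i : ℤ}
    (i1 : 1 ≤ i) (i2 : i ≤ 2 * q.k) {v : ℤ × ℤ} (hv : v ∈ CB.Reg m {c | q.U i c}) :
    ∀ j, 1 ≤ j → j ≤ q.k →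
      (r j).Off v ∧ (r' j).Off v ∧ c j 0 ≠ v ∧ c j (n j) ≠ v ∧ cU j ≠ v ∧ cD j ≠ v := by
  intro j j1 j2
  have he := h.ends j j1 j2
  have ht := h.traj j j1 j2
  have hU := U_pos hm i1 i2 hv
  have hk := q.hk
  have hq := q.hh
  have hm4 : 2 * m * 2 ≤ 2 * m * (q.h - 3) := mul_le_mul_of_nonneg_left (by omega) (by omega)
  have key : ∀ b, (er r r' j b).Off v ∧ ∀ w, (er r r' j b).At w → w ≠ v := by
    intro b
    obtain ⟨l, l1, l2, hl1, hl2⟩ := E.surj j j1 j2 b
    have hcell := E.cell l l1 l2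
    have hup := E.up l l1 l2
    rw [hl1, hl2] at hcell hup
    have hy : (er r r' j b).y = if (er r r' j b).up then hh + 1 else -hh - 1 := by
      cases b
      · exact he.y
      · exact he.y'
    have hh0 := he.hh
    generalize er r r' j b = s at *
    obtain ⟨col, y, up⟩ := s
    obtain ⟨w1, w2⟩ := v
    simp only at hcell hup hy hU ⊢
    have hmx : 2 * m * (q.x l + 1) = 2 * m * q.x l + 2 * m := by ring
    rw [hmx] at hcell
    obtain ⟨A, hA⟩ : ∃ A, A = 2 * m * q.x l := ⟨_, rfl⟩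
    obtain ⟨B, hB⟩ : ∃ B, B = 2 * m * (q.h - 3) := ⟨_, rfl⟩
    obtain ⟨C, hC⟩ : ∃ C, C = 2 * m * (q.h - 2) := ⟨_, rfl⟩
    rw [← hA] at hcell
    rw [← hB] at hU hm4
    rw [← hC] at hU hh1
    have hBC : C = B + 2 * m := by rw [hB, hC]; ring
    rcases le_or_gt i q.a with hi | hi
    · obtain ⟨p1, p2⟩ := hU.1 hi
      have p3 : w2 < C ∨ (l ≤ q.a → A + 4 * m ≤ w1 ∨ w1 < A - 2 * m) := by
        rcases p2 with p2 | p2
        · exact Or.inl p2
        · right
          intro hl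
          rw [hA]
          exact p2 l l1 hl
      unfold Ray.Off Ray.On Ray.At
      simp only
      cases up
      · simp only [Bool.false_eq_true, if_false] at hy ⊢
        refine ⟨by omega, ?_⟩
        rintro ⟨u1, u2⟩ ⟨hw1, hw2⟩ e
        simp only [Prod.mk.injEq] at e hw1 hw2
        omega
      · have hl := hup.1 rfl
        simp only [if_true] at hy ⊢
        have p4 : w2 < C ∨ (A + 4 * m ≤ w1 ∨ w1 < A - 2 * m) := by
          rcases p3 with p3 | p3
          · exact Or.inl p3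
          · exact Or.inr (p3 hl)
        refine ⟨by omega, ?_⟩
        rintro ⟨u1, u2⟩ ⟨hw1, hw2⟩ e
        simp only [Prod.mk.injEq] at e hw1 hw2
        omega
    · obtain ⟨p1, p2⟩ := hU.2 hi
      have p3 : -C ≤ w2 ∨ (q.a < l → A + 4 * m ≤ w1 ∨ w1 < A - 2 * m) := by
        rcases p2 with p2 | p2
        · exact Or.inl p2
        · right
          intro hl
          rw [hA]
          exact p2 l hl l2
      unfold Ray.Off Ray.On Ray.At
      simp only
      cases up
      · have hl : q.a < l := by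
          by_contra hcon
          exact absurd (hup.2 (by omega)) (by decide)
        simp only [Bool.false_eq_true, if_false] at hy ⊢
        have p4 : -C ≤ w2 ∨ (A + 4 * m ≤ w1 ∨ w1 < A - 2 * m) := by
          rcases p3 with p3 | p3
          · exact Or.inl p3
          · exact Or.inr (p3 hl)
        refine ⟨by omega, ?_⟩
        rintro ⟨u1, u2⟩ ⟨hw1, hw2⟩ e
        simp only [Prod.mk.injEq] at e hw1 hw2
        omega
      · simp only [if_true] at hy ⊢
        refine ⟨by omega, ?_⟩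
        rintro ⟨u1, u2⟩ ⟨hw1, hw2⟩ e
        simp only [Prod.mk.injEq] at e hw1 hw2
        omega
  have k0 := key false
  have k1 := key true
  refine ⟨k0.1, k1.1, k0.2 _ (he.at0 ht), k1.2 _ (he.atn ht), ?_, ?_⟩
  · intro e
    obtain ⟨w1, w2⟩ := v
    unfold cU at e
    simp only [Prod.mk.injEq] at e hU
    rcases le_or_gt i q.a with hi | hi
    · have := (hU.1 hi).1
      omega
    · have := (hU.2 hi).1
      omega
  · intro e
    obtain ⟨w1, w2⟩ := v
    unfold cD at e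
    simp only [Prod.mk.injEq] at e hU
    rcases le_or_gt i q.a with hi | hi
    · have := (hU.1 hi).1
      omega
    · have := (hU.2 hi).1
      omega

/-- the positions of the feet -/
lemma foot_pos (hm : 1 ≤ m) (E : Enum q m r r' ej eb) (hh2 : hh ≤ 2 * m * q.h) {i : ℤ}
    (i1 : 1 ≤ i) (i2 : i ≤ 2 * q.k) {f : ℤ × ℤ} :
    (InC m (q.fx i, q.fy i) f → AtP hh f ((er r r' (ej i) (eb i)).up, f.1) ∧
      Gap q r r' ej eb ((er r r' (ej i) (eb i)).up, f.1) i) ∧
    (InC m (q.fx' i, q.fy i) f → AtP hh f ((er r r' (ej i) (eb i)).up, f.1) ∧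
      Gap q r r' ej eb ((er r r' (ej i) (eb i)).up, f.1) (i - 1)) := by
  have hc := E.cell i i1 i2
  have hby : ∀ x, InC m (x, q.fy i) f → AtP hh f ((er r r' (ej i) (eb i)).up, f.1) := by
    rintro x ⟨-, -, h3, h4⟩
    refine ⟨rfl, ?_⟩
    rw [Enum.up_eq E i1 i2]
    unfold CB.LP.fy at h3 h4
    simp only at h3 h4 ⊢
    unfold Byd
    rcases le_or_gt i q.a with hi | hi
    · rw [if_pos hi] at h3 h4
      rw [decide_eq_true hi, if_pos rfl]
      omega
    · rw [if_neg (by omega)] at h3 h4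
      rw [decide_eq_false (by omega), if_neg (by decide)]
      have : 2 * m * (-q.h - 1 + 1) = -(2 * m * q.h) := by ring
      omega
  constructor
  · intro hf
    refine ⟨hby _ hf, ?_⟩
    obtain ⟨h1, h2, -, -⟩ := hf
    unfold CB.LP.fx at h1 h2
    simp only at h1 h2
    apply gap_cw E hm i1 i2
    · intro hi
      rw [if_pos hi] at h1 h2
      constructor <;> nlinarith
    · intro hi
      rw [if_neg (by omega)] at h1 h2
      constructor <;> nlinarith
  · intro hf
    refine ⟨hby _ hf, ?_⟩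
    obtain ⟨h1, h2, -, -⟩ := hf
    unfold CB.LP.fx' at h1 h2
    simp only at h1 h2
    apply gap_ccw E hm i1 i2
    · intro hi
      rw [if_pos hi] at h1 h2
      constructor <;> nlinarith
    · intro hi
      rw [if_neg (by omega)] at h1 h2
      constructor <;> nlinarith

/-- **Attachment of the feet of the lanes.** -/
theorem gap_stmt (hm : 1 ≤ m) (h : ArmsE M q.k D c n t hh r r') (E : Enum q m r r' ej eb)
    (hh1 : 2 * m * (q.h - 2) ≤ hh) (hh2 : hh ≤ 2 * m * q.h) (hkm : q.k ≤ 2 * m * (q.h - 3)) :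
    ∃ k0 : ℤ, (k0 = 0 ∨ k0 = 1) ∧ ∀ (M' M'' : ℤ × ℤ → Prop) (f g : ℤ → ℤ × ℤ),
      (∀ v ∈ visited q.k c n, (M'' v ↔ M v)) →
      (∀ i, 1 ≤ i → i ≤ 2 * q.k → ∀ v ∈ CB.Reg m {c | q.U i c}, v ∉ visited q.k c n →
        (M'' v ↔ M' v)) →
      (∀ i, 1 ≤ i → i ≤ 2 * q.k → InC m (q.fx i, q.fy i) (f i) ∧
        InC m (q.fx' i, q.fy i) (g i) ∧ Col (i + k0) (f i) ∧
        Conn M' (CB.Reg m {c | q.U i c}) (f i) (g i)) →
      (∀ j, 1 ≤ j → j ≤ q.k → ∀ (b : Bool) (κ : ℤ), ∃ (i j' : ℤ) (b' : Bool), 1 ≤ i ∧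
        i ≤ 2 * q.k ∧ 1 ≤ j' ∧ j' ≤ q.k ∧ fc κ (cS j') = fc κ (cS j) ∧
        (fc κ (cS j) ≠ cF 0 → fc κ (cS j) ≠ cF q.k → b' = b) ∧
        ∃ f' ∈ BdE κ c n t j' b', Conn M'' (CB.Reg m {c | q.U i c}) (f i) f') ∧
      (∀ i, 1 ≤ i → i ≤ 2 * q.k → ∃ (κ j' : ℤ) (b' : Bool), 1 ≤ j' ∧ j' ≤ q.k ∧
        ∃ f' ∈ BdE κ c n t j' b', Conn M'' (CB.Reg m {c | q.U i c}) (f i) f') := by
  obtain ⟨k0, hk0, hC⟩ := exists_k0 hm h E
  refine ⟨k0, hk0, fun M' M'' f g hin hR2 hfg => ?_⟩
  have hk := q.hk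
  -- the general statement
  have main : ∀ i, 1 ≤ i → i ≤ 2 * q.k → ∀ (j κ : ℤ) (b : Bool), 1 ≤ j → j ≤ q.k →
      (i + k0 + κ) % 2 = 0 → ∀ g', Gap q r r' ej eb (exP r r' κ j b) g' →
      (i = g' ∨ (i = 2 * q.k ∧ g' = 0)) →
      ∃ j' b', 1 ≤ j' ∧ j' ≤ q.k ∧ fc κ (cS j') = fc κ (cS j) ∧
        (fc κ (cS j) ≠ cF 0 → fc κ (cS j) ≠ cF q.k → b' = b) ∧
        ∃ f' ∈ BdE κ c n t j' b', Conn M'' (CB.Reg m {c | q.U i c}) (f i) f' := by
    intro i i1 i2 j κ b j1 j2 hκ g' hg' hgg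
    obtain ⟨c1, c2, c3, c4⟩ := hfg i i1 i2
    obtain ⟨f1, f2⟩ := (foot_pos (r := r) (r' := r') hm E hh2 i1 i2).1 c1
    obtain ⟨g1, g2⟩ := (foot_pos (r := r) (r' := r') hm E hh2 i1 i2).2 c2
    obtain ⟨e1, e2⟩ := E.mem i i1 i2
    obtain ⟨d1, d2⟩ := c3
    exact attach_stmt h hin (fun v hv j j1 j2 => U_off hm h E hh1 hkm i1 i2 hv j j1 j2)
      (hR2 i i1 i2) c4 (by omega) f1 g1 (by omega) j1 j2 (Gap.sg E f2 hg' hgg) e1 e2
      (Gap.ne E i1 i2 f2 g2)
  constructor
  · intro j j1 j2 b κ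
    obtain ⟨e, e1, e2, rfl, rfl⟩ := E.surj j j1 j2 b
    by_cases hc : Cw q r r' ej eb e κ
    · obtain ⟨j', b', hm'⟩ := main e e1 e2 (ej e) κ (eb e) j1 j2 ((hC e e1 e2 κ).1 hc) e
        (gap_exP E hm e1 e2 hc) (Or.inl rfl)
      exact ⟨e, j', b', e1, e2, hm'⟩
    · have hg := gap_exP' E hm e1 e2 hc
      rw [hC e e1 e2 κ] at hc
      rcases eq_or_lt_of_le e1 with h1 | h1
      · obtain ⟨j', b', hm'⟩ := main (2 * q.k) (by omega) le_rfl (ej e) κ (eb e) j1 j2
          (by omega) (e - 1) hg (Or.inr ⟨rfl, by omega⟩)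
        exact ⟨2 * q.k, j', b', by omega, le_rfl, hm'⟩
      · obtain ⟨j', b', hm'⟩ := main (e - 1) (by omega) (by omega) (ej e) κ (eb e) j1 j2
          (by omega) (e - 1) hg (Or.inl rfl)
        exact ⟨e - 1, j', b', by omega, by omega, hm'⟩
  · intro i i1 i2
    obtain ⟨e1, e2⟩ := E.mem i i1 i2
    have hc : Cw q r r' ej eb i (i + k0) := (hC i i1 i2 (i + k0)).2 (by omega)
    obtain ⟨j', b', m1, m2, -, -, m3⟩ := main i i1 i2 (ej i) (i + k0) (eb i) e1 e2 (by omega) i
      (gap_exP E hm i1 i2 hc) (Or.inl rfl)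
    exact ⟨i + k0, j', b', m1, m2, m3⟩

end

end TA
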