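import Pool.Agent.Helper47.Arms.KDefs

/-!
General `k`: the closing lemma (proof of `near_stmt`).
-/

set_option autoImplicit false

namespace TA

/-- the first perpendicular tile of a walk -/
lemma kn_first_perp {M' M'' : ℤ × ℤ → Prop} {R T : Set (ℤ × ℤ)}
    (h1 : ∀ v ∈ R, v ∉ T → (M'' v ↔ M' v)) {x y : ℤ × ℤ} (hw : Conn M' R x y) :
    Conn M'' R x y ∨ ∃ v ∈ R, v ∈ T ∧ ∃ f g, Opp f g v ∧ ¬ StpV M'' f g v ∧ Conn M'' R x f := by
  induction hw with
  | refl => exact Or.inl (Conn.refl _)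
  | @tail b' b hw' hst ih =>
    rcases ih with ih | ih
    · obtain ⟨v, hv, hst⟩ := hst
      by_cases hS : StpV M'' b' b v
      · exact Or.inl (ih.trans (Relation.ReflTransGen.single ⟨v, hv, hS⟩))
      · by_cases hT : v ∈ T
        · exact Or.inr ⟨v, hv, hT, b', b, hst.1, hS, ih⟩
        · exact absurd (hst.congr (h1 v hv hT)) hS
    · exact Or.inr ih

/-- the part of the trajectory `c''` (length `N`, cut side at time `T`) after its exit at the end
`b`: it starts at the tile `u` with the ray `s` and leaves the rectangle -/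
structure knPost (M'' : ℤ × ℤ → Prop) (W H : ℤ) (c'' : ℕ → ℤ × ℤ) (N T : ℕ) (b : Bool) (u : ℤ × ℤ)
    (s : Ray) (p : ℕ → ℤ × ℤ) (m : ℕ) (rB : Ray) : Prop where
  path : PathR p m s rB
  turn : ∀ i, i + 1 < m → p (i + 2) = nx M'' (p i) (p (i + 1))
  p0 : p 0 = u
  pm : ∀ v ∈ rect W H, p m ≠ v
  off : ∀ v ∈ rect W H, rB.Off v
  time : ∀ i < m, ∃ s' < N, (if b then T < s' else s' < T) ∧
    sq (p i) (p (i + 1)) = sq (c'' s') (c'' (s' + 1))

lemma kn_post {M'' : ℤ × ℤ → Prop} {D : Set (ℤ × ℤ)} {c : ℕ → ℤ × ℤ} {n : ℕ} {r r' : Ray} {hh : ℤ}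
    (hM : Traj M'' D c n) (he : Ends hh D c n r r') {W H : ℤ} (hD : D ⊆ rect W H)
    (hn : c n ∈ rect W H) {c'' : ℕ → ℤ × ℤ} {N : ℕ} (h'' : Traj M'' (rect W H) c'' N) {t T : ℕ}
    (ht : t < n) (hT : T < N) (e1 : c'' T = c t) (e2 : c'' (T + 1) = c (t + 1)) :
    ∃ p m rB, knPost M'' W H c'' N T true (c n) r' p m rB := by
  have hDi : ∀ i, t < i → i ≤ n → c i ∈ rect W H := by
    intro i hi hin'
    rcases Nat.lt_or_ge i n with h3 | h3
    · exact hD (hM.inn i (by omega) h3)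
    · have : i = n := by omega
      exact this ▸ hn
  obtain ⟨f1, f2, f3⟩ := follow h'' hM.turn e1 e2 hT hDi (n - 1 - t) (by omega)
  rw [show t + (n - 1 - t) + 1 = n by omega] at f3
  obtain ⟨p, hp⟩ : ∃ p, p = T + (n - 1 - t) + 1 := ⟨_, rfl⟩
  rw [← hp] at f1 f3
  obtain ⟨rB, hB1, hB2⟩ := rect_ray h''.outn
  refine ⟨fun i => c'' (p + i), N - p, rB, ⟨⟨fun i hi => h''.tiles _ (by omega), fun i hi => ?_, ?_, ?_⟩,
    ?_, ?_, ?_, hB2, ?_⟩⟩
  · exact h''.diags (p + i) (by omega)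
  · show r'.At (c'' (p + 0))
    rw [Nat.add_zero, f3]; exact he.atn hM
  · show rB.At (c'' (p + (N - p)))
    rw [show p + (N - p) = N by omega]; exact hB1
  · intro i hi
    exact h''.turn (p + i) (by omega)
  · show c'' (p + 0) = c n
    rw [Nat.add_zero, f3]
  · intro v hv e
    rw [show p + (N - p) = N by omega] at e
    exact h''.outn (e ▸ hv)
  · intro i hi
    refine ⟨p + i, by omega, ?_, rfl⟩
    rw [if_pos rfl]
    omega

section

variable {M : ℤ × ℤ → Prop} {k : ℤ} {D : Set (ℤ × ℤ)} {c : ℤ → ℕ → ℤ × ℤ} {n t : ℤ → ℕ} {hh : ℤ}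
  {r r' : ℤ → Ray} {M'' : ℤ × ℤ → Prop} {W H : ℤ}

/-- the exit tile of an end -/
def knT (c : ℤ → ℕ → ℤ × ℤ) (n : ℤ → ℕ) (j : ℤ) (b : Bool) : ℤ × ℤ := if b then c j (n j) else c j 0

lemma ArmsE.kn_traj (h : ArmsE M k D c n t hh r r') (hin : ∀ v ∈ visited k c n, (M'' v ↔ M v))
    {j : ℤ} (h1 : 1 ≤ j) (h2 : j ≤ k) : Traj M'' D (c j) (n j) :=
  (h.traj j h1 h2).congr fun v hv => hin v ⟨j, h1, h2, hv⟩

lemma ArmsE.kn_posts (h : ArmsE M k D c n t hh r r') (hin : ∀ v ∈ visited k c n, (M'' v ↔ M v))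
    (hD : D ⊆ rect W H) (hn : ∀ j, 1 ≤ j → j ≤ k → c j 0 ∈ rect W H ∧ c j (n j) ∈ rect W H)
    {c'' : ℤ → ℕ → ℤ × ℤ} {n'' t'' : ℤ → ℕ} (hA : Arms M'' k (rect W H) c'' n'' t'') {j : ℤ}
    (h1 : 1 ≤ j) (h2 : j ≤ k) (b : Bool) :
    ∃ p m rB, knPost M'' W H (c'' j) (n'' j) (t'' j) b (knT c n j b) (er r r' j b) p m rB := by
  have hM := h.kn_traj hin h1 h2
  have he := h.ends j h1 h2
  have h'' := hA.traj j h1 h2
  have lt1 := h.lt j h1 h2
  have lt2 := hA.lt j h1 h2
  have a0 := h.at0 j h1 h2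
  have a1 := h.at1 j h1 h2
  have b0 := hA.at0 j h1 h2
  have b1 := hA.at1 j h1 h2
  cases b
  · obtain ⟨p, m, rB, hp⟩ := kn_post hM.rev (he.rev (h := hM)) hD
      (show c j (n j - n j) ∈ rect W H by rw [Nat.sub_self]; exact (hn j h1 h2).1) h''.rev
      (t := n j - 1 - t j) (T := n'' j - 1 - t'' j) (by omega) (by omega)
      (by
        show c'' j (n'' j - (n'' j - 1 - t'' j)) = c j (n j - (n j - 1 - t j))
        rw [show n'' j - (n'' j - 1 - t'' j) = t'' j + 1 by omega,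
          show n j - (n j - 1 - t j) = t j + 1 by omega, a1, b1])
      (by
        show c'' j (n'' j - (n'' j - 1 - t'' j + 1)) = c j (n j - (n j - 1 - t j + 1))
        rw [show n'' j - (n'' j - 1 - t'' j + 1) = t'' j by omega,
          show n j - (n j - 1 - t j + 1) = t j by omega, a0, b0])
    refine ⟨p, m, rB, ⟨hp.path, hp.turn, ?_, hp.pm, hp.off, ?_⟩⟩
    · rw [hp.p0, Nat.sub_self]
      rfl
    · intro i hi
      obtain ⟨s', hs', hs'', e⟩ := hp.time i hi
      rw [if_pos rfl] at hs''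
      refine ⟨n'' j - 1 - s', by omega, ?_, ?_⟩
      · rw [if_neg (by decide)]
        omega
      · rw [e, sq_comm]
        show sq (c'' j (n'' j - (s' + 1))) (c'' j (n'' j - s')) = _
        rw [show n'' j - (s' + 1) = n'' j - 1 - s' by omega, show n'' j - s' = n'' j - 1 - s' + 1 by omega]
  · obtain ⟨p, m, rB, hp⟩ := kn_post hM he hD (hn j h1 h2).2 h'' lt1 lt2 (by rw [a0, b0]) (by rw [a1, b1])
    exact ⟨p, m, rB, hp⟩

lemma ArmsE.kn_off (h : ArmsE M k D c n t hh r r') {j : ℤ} (h1 : 1 ≤ j) (h2 : j ≤ k) (b : Bool)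
    {v : ℤ × ℤ} (hv : v ∈ D) : (er r r' j b).Off v := by
  have := (h.ends j h1 h2).off hv
  unfold er
  cases b
  · exact this.1
  · exact this.2

lemma ArmsE.kn_T (h : ArmsE M k D c n t hh r r') {j : ℤ} (h1 : 1 ≤ j) (h2 : j ≤ k) (b : Bool)
    {v : ℤ × ℤ} (hv : v ∈ D) : knT c n j b ≠ v := by
  unfold knT
  cases b
  · exact (h.traj j h1 h2).ne0 hv
  · exact (h.traj j h1 h2).nen hv

/-- the side function of the part after the exit is constant on all boundary faces -/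
lemma ArmsE.kn_gamma (h : ArmsE M k D c n t hh r r') (hin : ∀ v ∈ visited k c n, (M'' v ↔ M v))
    (hD : D ⊆ rect W H)
    {c'' : ℤ → ℕ → ℤ × ℤ} {n'' t'' : ℤ → ℕ} (hA : Arms M'' k (rect W H) c'' n'' t'') {j : ℤ}
    (h1 : 1 ≤ j) (h2 : j ≤ k) {b : Bool} {p : ℕ → ℤ × ℤ} {m : ℕ} {rB : Ray}
    (hp : knPost M'' W H (c'' j) (n'' j) (t'' j) b (knT c n j b) (er r r' j b) p m rB) :
    ∀ i, 1 ≤ i → i ≤ k → ∀ κ, ∀ f ∈ Bd κ (c i) (n i),
      sd p m (er r r' j b) rB f = sd p m (er r r' j b) rB (cF 0) := by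
  -- no cut side is used after the exit
  have hcut : ∀ i, 1 ≤ i → i ≤ k → pas p m (cS i).1 (cS i).2 = 0 := by
    intro i i1 i2
    apply pas_none
    intro q hq e
    rw [Prod.mk.eta] at e
    obtain ⟨s', hs', hs'', e'⟩ := hp.time q hq
    rw [e'] at e
    by_cases hij : i = j
    · subst hij
      have := (hA.traj i i1 i2).inj s' hs' (t'' i) (hA.lt i i1 i2)
        (by rw [e, hA.at0 i i1 i2, hA.at1 i i1 i2, sq_cut])
      subst this
      split_ifs at hs'' <;> omega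
    · exact hA.cut i j i1 i2 h1 h2 hij s' hs' e
  have hstep : ∀ i, 1 ≤ i → i ≤ k → ∀ κ, sd p m (er r r' j b) rB (fc κ (cS i)) =
      sd p m (er r r' j b) rB (fc (κ + 1) (cS i)) := by
    intro i i1 i2 κ
    have e := sd_fc hp.path (cS i) κ
    have hv := h.cutD i i1 i2
    have o1 := h.kn_off h1 h2 b hv
    have o2 := hp.off _ (hD hv)
    have t1 : tot p m (er r r' j b) rB (cS i).1 (cS i).2 = 0 := by
      unfold tot
      rw [o1.ras (x := (cS i).1) (y := (cS i).2) (Or.inl rfl) (Or.inl rfl),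
        o2.ras (x := (cS i).1) (y := (cS i).2) (Or.inl rfl) (Or.inl rfl), hcut i i1 i2, add_zero, add_zero]
    rw [t1] at e
    exact add_eq_zero2 e
  have hcF : ∀ q : ℕ, (q : ℤ) ≤ k → sd p m (er r r' j b) rB (cF q) = sd p m (er r r' j b) rB (cF 0) := by
    intro q
    induction q with
    | zero => intro _; rfl
    | succ q ih =>
      intro hq
      push_cast at hq ⊢
      rw [← ih (by omega)]
      have e := hstep ((q : ℤ) + 1) (by omega) hq ((q : ℤ) + 1)
      rw [fc_cS, fc_cS, if_pos (by omega), if_neg (by omega), show (q : ℤ) + 1 - 1 = q by ring] at e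
      exact e
  intro i i1 i2 κ f hf
  have hMi := h.kn_traj hin i1 i2
  have hlt := h.lt i i1 i2
  have hroot : fc κ (cS i) ∈ Bd κ (c i) (n i) :=
    ⟨t i, hlt, by rw [h.at0 i i1 i2, h.at1 i i1 i2, sq_cut]⟩
  have hc := hMi.bd_conn2 κ hf hroot
  obtain ⟨s, hs, hfs⟩ := id hf
  have hfp : (f.1 + f.2) % 2 = 0 := by rw [hfs]; exact (fc_spec κ _).2.1
  have e1 := sd_conn (M := M'') hp.path (R := inner (c i) (n i)) (by
    intro v hv
    have hvD := hMi.inner_sub hv
    refine ⟨?_, hp.pm v (hD hvD), h.kn_off h1 h2 b hvD, hp.off v (hD hvD)⟩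
    rw [hp.p0]
    exact h.kn_T h1 h2 b hvD) hp.turn hc hfp
  rw [e1, fc_cS]
  split_ifs
  · have := hcF i.toNat (by omega)
    rwa [show ((i.toNat : ℕ) : ℤ) = i by omega] at this
  · have := hcF (i - 1).toNat (by omega)
    rwa [show (((i - 1).toNat : ℕ) : ℤ) = i - 1 by omega] at this

/-- the two ends of the ring are on different sides of the part after the exit -/
lemma ArmsE.kn_upper (h : ArmsE M k D c n t hh r r') {j : ℤ}
    (h1 : 1 ≤ j) (h2 : j ≤ k) {b : Bool} {c'' : ℕ → ℤ × ℤ} {N T : ℕ} {p : ℕ → ℤ × ℤ} {m : ℕ} {rB : Ray}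
    (hp : knPost M'' W H c'' N T b (knT c n j b) (er r r' j b) p m rB)
    {M' : ℤ × ℤ → Prop} {Rt : Set (ℤ × ℤ)} {up : Bool} (hRt : ∀ v ∈ Rt, Byd2 up hh v.2)
    (hRt2 : ∀ v ∈ Rt, (M'' v ↔ M' v)) {x y : ℤ × ℤ} (hw' : Conn M' Rt x y)
    (ha : (x.1 + x.2) % 2 = 0) (ha2 : Byd up (hh + 2) x.2)
    (hu : (er r r' j b).up = up) (hc : x.1 ≤ (er r r' j b).col ∧ (er r r' j b).col < y.1)
    (hRtD : Rt ⊆ rect W H) :
    sd p m (er r r' j b) rB x + 1 = sd p m (er r r' j b) rB y := by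
  have he := h.ends j h1 h2
  have hhp := he.hh
  have hyy : (er r r' j b).y = if up then hh + 1 else -hh - 1 := by
    rw [← hu]
    unfold er
    cases b
    · exact he.y
    · exact he.y'
  have hen : (knT c n j b).2 = (er r r' j b).y := by
    unfold er knT
    cases b
    · exact he.e
    · exact he.e'
  generalize er r r' j b = s at *
  have hyT : up = true → s.y = hh + 1 := fun hu => by rw [hyy, if_pos hu]
  have hyF : up = false → s.y = -hh - 1 := fun hu => by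
    rw [hyy, if_neg (by rw [hu]; decide)]
  have hbT : ∀ {v : ℤ × ℤ}, Byd2 up hh v.2 → up = true → hh + 3 ≤ v.2 := by
    intro v hb hu
    unfold Byd2 at hb
    rwa [if_pos hu] at hb
  have hbF : ∀ {v : ℤ × ℤ}, Byd2 up hh v.2 → up = false → v.2 ≤ -hh - 3 := by
    intro v hb hu
    unfold Byd2 at hb
    rwa [if_neg (by rw [hu]; decide)] at hb
  have q2 := sd_conn_ray hp.path (R := Rt) (M := M'') (by
    intro v hv
    have hb := hRt v hv
    have bT := hbT hb
    have bF := hbF hb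
    refine ⟨?_, hp.pm v (hRtD hv), ?_, ?_, hp.off v (hRtD hv)⟩
    · rw [hp.p0]
      intro e
      rw [← e] at bT bF
      cases hup : up
      · have := bF hup; have := hyF hup; omega
      · have := bT hup; have := hyT hup; omega
    · intro x
      unfold Ray.On
      rw [hu]
      cases hup : up
      · have b1 := bF hup
        have b2 := hyF hup
        rw [if_neg (by decide), if_neg (by decide)]
        omega
      · have b1 := bT hup
        have b2 := hyT hup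
        rw [if_pos rfl, if_pos rfl]
        omega
    · unfold Ray.rayS
      rw [hu]
      cases hup : up
      · have b1 := bF hup
        have b2 := hyF hup
        simp only [Bool.false_eq_true, if_false]
        split_ifs <;> first | rfl | (exfalso; omega)
      · have b1 := bT hup
        have b2 := hyT hup
        simp only [if_true]
        split_ifs <;> first | rfl | (exfalso; omega)) hp.turn
      (hw'.congr (M' := M'') (fun v hv => hRt2 v hv)) ha
  have z1 : s.rayS x.1 x.2 = 1 := by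
    unfold Ray.rayS
    unfold Byd at ha2
    rw [if_pos]
    rw [hu]
    cases hup : up
    · rw [hup, if_neg (show ¬ (false = true) by decide)] at ha2
      have b2 := hyF hup
      rw [if_neg (show ¬ (false = true) by decide)]
      constructor <;> omega
    · rw [hup, if_pos rfl] at ha2
      have b2 := hyT hup
      rw [if_pos rfl]
      constructor <;> omega
  have z0 : s.rayS y.1 y.2 = 0 := by
    unfold Ray.rayS
    rw [if_neg]
    rintro ⟨g1, -⟩
    omega
  rw [z1, z0, add_zero] at q2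
  exact q2

/-- the exit face of colour `a.1` is in the same sector as `a` -/
lemma ArmsE.kn_sector (h : ArmsE M k D c n t hh r r') {up : Bool} {a : ℤ × ℤ}
    (ha : (a.1 + a.2) % 2 = 0) (ha2 : Byd up hh a.2) {j0 : ℤ} {b0 : Bool} (h0 : 1 ≤ j0 ∧ j0 ≤ k)
    (hu0 : (er r r' j0 b0).up = up) (hc0 : a.1 ≤ (er r r' j0 b0).col)
    (hmin : ∀ j, 1 ≤ j → j ≤ k → ∀ b', (er r r' j b').up = up →
      a.1 ≤ (er r r' j b').col → (er r r' j0 b0).col ≤ (er r r' j b').col)
    (hk : ((er r r' j0 b0).col + a.1) % 2 = 0) :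
    ∀ i, 1 ≤ i → i ≤ k → sg c n r r' i a = sg c n r r' i (fc a.1 (cS j0)) := by
  intro i i1 i2
  have htj := h.traj j0 h0.1 h0.2
  have hej := h.ends j0 h0.1 h0.2
  have hti := h.traj i i1 i2
  have hei := h.ends i i1 i2
  have hn2 := hej.n2 htj
  -- the exit face
  obtain ⟨s, hs, hw1, hw2⟩ : ∃ s < n j0, Byd up hh (fc a.1 (sq (c j0 s) (c j0 (s + 1)))).2 ∧
      (fc a.1 (sq (c j0 s) (c j0 (s + 1)))).1 = (er r r' j0 b0).col := by
    cases b0
    · have hl := (hej.rev htj).last htj.rev a.1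
      rw [show n j0 - (n j0 - 1) = 0 + 1 by omega, Nat.sub_self, sq_comm] at hl
      refine ⟨0, by omega, ?_, ?_⟩
      · rw [← hu0]; exact hl.1
      · rw [hl.2]
        exact if_pos hk
    · have hl := hej.last htj a.1
      refine ⟨n j0 - 1, by omega, ?_, ?_⟩
      · rw [show n j0 - 1 + 1 = n j0 by omega, ← hu0]; exact hl.1
      · rw [show n j0 - 1 + 1 = n j0 by omega, hl.2]
        exact if_pos hk
  have e1 := h.sg_bd i1 i2 h0.1 h0.2 a.1 s hs
  rw [← e1]
  unfold sg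
  rw [hei.val2 hti ha ha2, hei.val2 hti (fc_spec a.1 _).2.1 hw1, hw2]
  have key : ∀ b', ind (er r r' i b') up a.1 = ind (er r r' i b') up (er r r' j0 b0).col := by
    intro b'
    have hm := hmin i i1 i2 b'
    unfold ind
    by_cases hup : (er r r' i b').up = up
    · by_cases hle : a.1 ≤ (er r r' i b').col
      · rw [if_pos ⟨hup, hle⟩, if_pos ⟨hup, hm hup hle⟩]
      · rw [if_neg (fun e => hle e.2), if_neg (fun e => hle (by omega))]
    · rw [if_neg (fun e => hup e.1), if_neg (fun e => hup e.1)]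
  have k0 := key false
  have k1 := key true
  simp only [er, Bool.false_eq_true, if_false, if_true] at k0 k1 ⊢
  rw [k0, k1]

end

/-- **Closing lemma for `k` sides.** In `M'` there is a ring of colour `κ` around at least two exits
on the side `up`: a lower half `a - b` through `R` (whose tiles avoid the columns of all exits) and
an upper half `a - b` through `Rt` beyond the slab; `κ` is the colour of the outer side of the
leftmost exit inside the ring. Then the arm event of the larger rectangle fails for `M''`. -/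
theorem near_stmt {M M' M'' : ℤ × ℤ → Prop} {k : ℤ} {D : Set (ℤ × ℤ)} {c : ℤ → ℕ → ℤ × ℤ}
    {n t : ℤ → ℕ} {hh : ℤ} {r r' : ℤ → Ray} (h : ArmsE M k D c n t hh r r')
    (hin : ∀ v ∈ visited k c n, (M'' v ↔ M v)) {R Rt : Set (ℤ × ℤ)}
    (hR : ∀ v ∈ R, ∀ j, 1 ≤ j → j ≤ k →
      (r j).Off v ∧ (r' j).Off v ∧ c j 0 ≠ v ∧ c j (n j) ≠ v)
    (hR2 : ∀ v ∈ R, v ∉ visited k c n → (M'' v ↔ M' v))
    {up : Bool} (hRt : ∀ v ∈ Rt, Byd2 up hh v.2) (hRt2 : ∀ v ∈ Rt, (M'' v ↔ M' v))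
    {a b : ℤ × ℤ} (hw : Conn M' R a b) (hw' : Conn M' Rt a b) (ha : (a.1 + a.2) % 2 = 0)
    (ha2 : Byd up (hh + 2) a.2) (hb2 : Byd up (hh + 2) b.2)
    {j0 j1 : ℤ} {b0 b1 : Bool} (h01 : (j0, b0) ≠ (j1, b1)) (h0 : 1 ≤ j0 ∧ j0 ≤ k)
    (h1 : 1 ≤ j1 ∧ j1 ≤ k) (hu0 : (er r r' j0 b0).up = up) (hu1 : (er r r' j1 b1).up = up)
    (hc0 : a.1 ≤ (er r r' j0 b0).col ∧ (er r r' j0 b0).col < b.1)
    (hc1 : a.1 ≤ (er r r' j1 b1).col ∧ (er r r' j1 b1).col < b.1)
    (hmin : ∀ j, 1 ≤ j → j ≤ k → ∀ b', (er r r' j b').up = up →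
      a.1 ≤ (er r r' j b').col → (er r r' j0 b0).col ≤ (er r r' j b').col)
    (hk : ((er r r' j0 b0).col + a.1) % 2 = 0) {W H : ℤ} (hD : D ⊆ rect W H)
    (hRD : R ⊆ rect W H) (hRtD : Rt ⊆ rect W H)
    (hn : ∀ j, 1 ≤ j → j ≤ k → c j 0 ∈ rect W H ∧ c j (n j) ∈ rect W H) :
    ¬ ArmEv M'' k (rect W H) := by
  rintro ⟨c'', n'', t'', hA⟩
  have hcol := hw.color
  have hbyd : Byd up hh a.2 := by
    have := (h.ends j0 h0.1 h0.2).hh
    unfold Byd at *
    split_ifs at * <;> omega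
  obtain ⟨p0, m0, rB0, P0⟩ := h.kn_posts hin hD hn hA h0.1 h0.2 b0
  obtain ⟨p1, m1, rB1, P1⟩ := h.kn_posts hin hD hn hA h1.1 h1.2 b1
  have G0 := h.kn_gamma hin hD hA h0.1 h0.2 P0
  have G1 := h.kn_gamma hin hD hA h1.1 h1.2 P1
  have U0 := h.kn_upper h0.1 h0.2 P0 hRt hRt2 hw' ha ha2 hu0 hc0 hRtD
  have U1 := h.kn_upper h1.1 h1.2 P1 hRt hRt2 hw' ha ha2 hu1 hc1 hRtD
  have hne1 : ∀ x : ZMod 2, x + 1 ≠ x := by decide
  -- connections through R do not change the side
  have conn : ∀ (j : ℤ) (_ : 1 ≤ j) (_ : j ≤ k) (e : Bool) (p : ℕ → ℤ × ℤ) (m : ℕ) (rB : Ray),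
      knPost M'' W H (c'' j) (n'' j) (t'' j) e (knT c n j e) (er r r' j e) p m rB →
      ∀ x y : ℤ × ℤ, Conn M'' R x y → (x.1 + x.2) % 2 = 0 →
      sd p m (er r r' j e) rB x = sd p m (er r r' j e) rB y := by
    intro j hj1 hj2 e p m rB hp x y hxy hx
    refine sd_conn (M := M'') hp.path (R := R) ?_ hp.turn hxy hx
    intro v hv
    obtain ⟨g1, g2, g3, g4⟩ := hR v hv j hj1 hj2
    refine ⟨?_, hp.pm v (hRD hv), ?_, hp.off v (hRD hv)⟩
    · rw [hp.p0]
      unfold knT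
      cases e
      · exact g3
      · exact g4
    · unfold er
      cases e
      · exact g1
      · exact g2
  have C0 := conn j0 h0.1 h0.2 b0 p0 m0 rB0 P0
  have C1 := conn j1 h1.1 h1.2 b1 p1 m1 rB1 P1
  -- the walk from `a`
  have A : ∃ i, 1 ≤ i ∧ i ≤ k ∧ ∃ f ∈ Bd a.1 (c i) (n i), Conn M'' R a f := by
    rcases kn_first_perp (T := visited k c n) hR2 hw with e | ⟨v, hvR, hvT, f, g, ho, hns, hcf⟩
    · exfalso
      have := C0 a b e ha
      rw [this] at U0
      exact hne1 _ U0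
    · have hfc := hcf.color
      have hf : (f.1 + f.2) % 2 = 0 := by omega
      have hfk : (f.1 + a.1) % 2 = 0 := by omega
      -- the sector of `f`
      have hsf : ∀ i, 1 ≤ i → i ≤ k → sg c n r r' i f = sg c n r r' i (fc a.1 (cS j0)) := by
        intro i i1 i2
        rw [← h.kn_sector ha hbyd h0 hu0 hc0.1 hmin hk i i1 i2]
        unfold sg
        symm
        refine sd_conn (M := M'') (h.path i1 i2) (R := R) ?_ (h.kn_traj hin i1 i2).turn hcf ha
        intro v hv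
        obtain ⟨g1, g2, g3, g4⟩ := hR v hv i i1 i2
        exact ⟨g3, g4, g1, g2⟩
      have hnsM : ¬ StpV M f g v := fun e => hns (e.congr (hin v hvT))
      obtain ⟨j, hj0, hjk, hjp, hfj⟩ : ∃ j, 0 ≤ j ∧ j ≤ k ∧ (j + a.1) % 2 = 0 ∧
          fc a.1 (cS j0) = cF j := by
        rw [fc_cS]
        by_cases hp : (j0 + a.1) % 2 = 0
        · exact ⟨j0, by omega, h0.2, hp, by rw [if_pos hp]⟩
        · exact ⟨j0 - 1, by omega, by omega, by omega, by rw [if_neg hp]⟩
      obtain ⟨i, i1, i2, hB⟩ := h.sector hvT ho hnsM hf hfk hj0 hjk hjp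
        (fun i i1 i2 => by rw [hsf i i1 i2, hfj])
      exact ⟨i, i1, i2, f, hB, hcf⟩
  obtain ⟨ia, ia1, ia2, fa, hfa, hca⟩ := A
  have A0 : sd p0 m0 (er r r' j0 b0) rB0 a = sd p0 m0 (er r r' j0 b0) rB0 (cF 0) := by
    rw [C0 a fa hca ha]; exact G0 ia ia1 ia2 _ _ hfa
  have A1 : sd p1 m1 (er r r' j1 b1) rB1 a = sd p1 m1 (er r r' j1 b1) rB1 (cF 0) := by
    rw [C1 a fa hca ha]; exact G1 ia ia1 ia2 _ _ hfa
  -- the walk from `b`
  have hb : (b.1 + b.2) % 2 = 0 := by omega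
  rcases kn_first_perp (T := visited k c n) hR2 hw.symm with e | ⟨v, hvR, hvT, f, g, ho, hns, hcf⟩
  · have := C0 b a e hb
    rw [this] at U0
    exact hne1 _ U0
  · have hfc := hcf.color
    have hf : (f.1 + f.2) % 2 = 0 := by omega
    have hfk : (f.1 + a.1) % 2 = 0 := by omega
    obtain ⟨i, i1, i2, hvi⟩ := hvT
    have hti := h.traj i i1 i2
    have hnsM : ¬ StpV M f g v := fun e => hns (e.congr (hin v ⟨i, i1, i2, hvi⟩))
    by_cases hB : f ∈ Bd a.1 (c i) (n i)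
    · have e1 := C0 b f hcf hb
      rw [G0 i i1 i2 _ _ hB] at e1
      rw [A0, e1] at U0
      exact hne1 _ U0
    · obtain ⟨q1, q2, a1, a2, a3, ⟨s, hsn, a4⟩, a5, a6, a7, a8⟩ := hti.perp_sq hvi ho hnsM hf hfk hB
      have hvD : v ∈ D := hti.inner_sub hvi
      -- both parts after the exits use the medial edge `q1`
      have use : ∀ (j : ℤ) (_ : 1 ≤ j) (_ : j ≤ k) (e : Bool) (p : ℕ → ℤ × ℤ) (m : ℕ) (rB : Ray),
          knPost M'' W H (c'' j) (n'' j) (t'' j) e (knT c n j e) (er r r' j e) p m rB →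
          (∀ i, 1 ≤ i → i ≤ k → ∀ κ, ∀ f ∈ Bd κ (c i) (n i),
            sd p m (er r r' j e) rB f = sd p m (er r r' j e) rB (cF 0)) →
          sd p m (er r r' j e) rB a = sd p m (er r r' j e) rB (cF 0) →
          sd p m (er r r' j e) rB a + 1 = sd p m (er r r' j e) rB b →
          sd p m (er r r' j e) rB b = sd p m (er r r' j e) rB f →
          ∃ q < m, sq (p q) (p (q + 1)) = q1 := by
        intro j hj1 hj2 e p m rB hp hG hA0 hU hC
        by_contra hno
        have hp0 : pas p m q1.1 q1.2 = 0 := by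
          apply pas_none
          intro q hq e'
          exact hno ⟨q, hq, by rw [e', Prod.mk.eta]⟩
        have e1 := sd_fc hp.path q1 a.1
        have o1 := h.kn_off hj1 hj2 e hvD
        have o2 := hp.off v (hD hvD)
        have t1 : tot p m (er r r' j e) rB q1.1 q1.2 = 0 := by
          unfold tot
          rw [o1.ras a1 a2, o2.ras a1 a2, hp0, add_zero, add_zero]
        rw [t1, a3, a6] at e1
        have e2 := hG i i1 i2 (a.1 + 1) (fc (a.1 + 1) q2) ⟨s, hsn, by rw [a4]⟩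
        rw [e2, ← hA0, ← hC] at e1
        have e3 := add_eq_zero2 e1
        rw [e3] at hU
        exact hne1 _ hU
      obtain ⟨q, hq, hqe⟩ := use j0 h0.1 h0.2 b0 p0 m0 rB0 P0 G0 A0 U0 (C0 b f hcf hb)
      obtain ⟨q', hq', hqe'⟩ := use j1 h1.1 h1.2 b1 p1 m1 rB1 P1 G1 A1 U1 (C1 b f hcf hb)
      obtain ⟨s0, hs0, hs0', e0⟩ := P0.time q hq
      obtain ⟨s1, hs1, hs1', e1⟩ := P1.time q' hq'
      have hee : sq (c'' j0 s0) (c'' j0 (s0 + 1)) = sq (c'' j1 s1) (c'' j1 (s1 + 1)) := by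
        rw [← e0, ← e1, hqe, hqe']
      have hjj := hA.disj h0.1 h0.2 h1.1 h1.2 hs0 hs1 hee
      subst hjj
      have hss := (hA.traj j0 h0.1 h0.2).inj s0 hs0 s1 hs1 hee
      subst hss
      cases b0 <;> cases b1
      · exact h01 rfl
      · rw [if_neg (by decide)] at hs0'
        rw [if_pos rfl] at hs1'
        omega
      · rw [if_pos rfl] at hs0'
        rw [if_neg (by decide)] at hs1'
        omega
      · exact h01 rfl

end TA
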