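import Pool.Agent.Helper47.Arms.KExpl
import Pool.Agent.Helper47.Arms.KStmt
import Pool.Agent.Helper47.Arms.KNear

/-!
General `k`: the attachment lemma and the closing lemma in the form used for resampling (`mix`).
-/

set_option autoImplicit false

namespace TA

open Arm57 (Stop Dec mix)

section

variable {k : ℤ} {D : Finset (ℤ × ℤ)} {S S' : Finset (ℤ × ℤ)} {c : ℤ → ℕ → ℤ × ℤ} {n t : ℤ → ℕ}
  {hh : ℤ} {r r' : ℤ → Ray}

/-- attachment after resampling -/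
theorem attach_mixK (h : ArmsE (· ∈ S) k D c n t hh r r') {R : Set (ℤ × ℤ)}
    (hR : ∀ v ∈ R, ∀ j, 1 ≤ j → j ≤ k →
      (r j).Off v ∧ (r' j).Off v ∧ c j 0 ≠ v ∧ c j (n j) ≠ v ∧ cU j ≠ v ∧ cD j ≠ v)
    {a g : ℤ × ℤ} {p q : Pos} (hw : Conn (· ∈ S') R a g) (ha : (a.1 + a.2) % 2 = 0)
    (hap : AtP hh a p) (hgq : AtP hh g q) {κ : ℤ} (hκ : (a.1 + κ) % 2 = 0)
    {j : ℤ} (hj1 : 1 ≤ j) (hjk : j ≤ k) {b : Bool} (hsg : SG k r r' p (exP r r' κ j b))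
    {i : ℤ} (hi1 : 1 ≤ i) (hik : i ≤ k)
    (hne : pv r r' p i false + pv r r' p i true ≠ pv r r' q i false + pv r r' q i true) :
    ∃ j' b', 1 ≤ j' ∧ j' ≤ k ∧ fc κ (cS j') = fc κ (cS j) ∧
      (fc κ (cS j) ≠ cF 0 → fc κ (cS j) ≠ cF k → b' = b) ∧
      ∃ f ∈ BdE κ c n t j' b', Conn (· ∈ mix (explK k D S) S S') R a f :=
  attach_stmt h (mix_visited h.toArms) hR (fun _ _ hv' => mix_unvisited h.toArms hv') hw ha hap
    hgq hκ hj1 hjk hsg hi1 hik hne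

/-- near exits: the closing lemma after resampling -/
theorem near_mixK (h : ArmsE (· ∈ S) k D c n t hh r r') {R Rt : Set (ℤ × ℤ)}
    (hR : ∀ v ∈ R, ∀ j, 1 ≤ j → j ≤ k →
      (r j).Off v ∧ (r' j).Off v ∧ c j 0 ≠ v ∧ c j (n j) ≠ v)
    {up : Bool} (hRt : ∀ v ∈ Rt, Byd2 up hh v.2)
    {a b : ℤ × ℤ} (hw : Conn (· ∈ S') R a b) (hw' : Conn (· ∈ S') Rt a b)
    (ha : (a.1 + a.2) % 2 = 0) (ha2 : Byd up (hh + 2) a.2) (hb2 : Byd up (hh + 2) b.2)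
    {j0 j1 : ℤ} {b0 b1 : Bool} (h01 : (j0, b0) ≠ (j1, b1)) (h0 : 1 ≤ j0 ∧ j0 ≤ k)
    (h1 : 1 ≤ j1 ∧ j1 ≤ k) (hu0 : (er r r' j0 b0).up = up) (hu1 : (er r r' j1 b1).up = up)
    (hc0 : a.1 ≤ (er r r' j0 b0).col ∧ (er r r' j0 b0).col < b.1)
    (hc1 : a.1 ≤ (er r r' j1 b1).col ∧ (er r r' j1 b1).col < b.1)
    (hmin : ∀ j, 1 ≤ j → j ≤ k → ∀ b', (er r r' j b').up = up →
      a.1 ≤ (er r r' j b').col → (er r r' j0 b0).col ≤ (er r r' j b').col)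
    (hk : ((er r r' j0 b0).col + a.1) % 2 = 0) {W H : ℤ} (hD : (D : Set (ℤ × ℤ)) ⊆ rect W H)
    (hRD : R ⊆ rect W H) (hRtD : Rt ⊆ rect W H)
    (hn : ∀ j, 1 ≤ j → j ≤ k → c j 0 ∈ rect W H ∧ c j (n j) ∈ rect W H) :
    ¬ ArmEv (· ∈ mix (explK k D S) S S') k (rect W H) := by
  refine near_stmt h (mix_visited h.toArms) hR (fun _ _ hv' => mix_unvisited h.toArms hv') hRt
    (fun v hv => mix_unvisited h.toArms ?_) hw hw' ha ha2 hb2 h01 h0 h1 hu0 hu1 hc0 hc1 hmin hk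
    hD hRD hRtD hn
  intro hx
  have he := h.ends j0 h0.1 h0.2
  have h3 := he.hD v (h.toArms.visited_sub hx)
  have h4 := hRt v hv
  have h5 := he.hh
  unfold Byd2 at h4
  split_ifs at h4 <;> omega

end

end TA
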