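import Pool.Agent.Helper47.Arms.KExpl

/-!
General `k`: marked connections.  A face carries a mark (`true`: seen from above, `false`: from
below the line `X + Y = 0`); the mark can be changed only at the free positions of the line.
* walk along an end from the marked root face to any boundary face of the end;
* an ordinary connection that avoids the cut faces is a marked connection.
-/

set_option autoImplicit false

namespace TA

/-- the mark of a tile -/
def mkT (v : ℤ × ℤ) : Bool := decide (0 < v.1 + v.2)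

lemma mkT_true {v : ℤ × ℤ} : mkT v = true ↔ 0 < v.1 + v.2 := by
  unfold mkT
  exact decide_eq_true_iff

lemma mkT_false {v : ℤ × ℤ} : mkT v = false ↔ v.1 + v.2 ≤ 0 := by
  unfold mkT
  rw [decide_eq_false_iff_not, not_lt]

/-- the mark is admissible for the face -/
def OkM (f : ℤ × ℤ) (x : Bool) : Prop :=
  (0 < f.1 + f.2 → x = true) ∧ (f.1 + f.2 < 0 → x = false)

/-- one step between marked faces: through a tile of `R`, or change of the mark at a free position
of the line `X + Y = 0` -/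
def MSt (M : ℤ × ℤ → Prop) (Fr : ℤ → Prop) (R : Set (ℤ × ℤ)) (u v : (ℤ × ℤ) × Bool) : Prop :=
  (∃ w ∈ R, u.2 = mkT w ∧ v.2 = mkT w ∧ StpV M u.1 v.1 w) ∨
    (u.1 = v.1 ∧ u.1.1 + u.1.2 = 0 ∧ Fr u.1.1)

/-- marked connection -/
def MCn (M : ℤ × ℤ → Prop) (Fr : ℤ → Prop) (R : Set (ℤ × ℤ)) :
    (ℤ × ℤ) × Bool → (ℤ × ℤ) × Bool → Prop :=
  Relation.ReflTransGen (MSt M Fr R)

section

variable {M M' : ℤ × ℤ → Prop} {Fr : ℤ → Prop} {R R' : Set (ℤ × ℤ)}

lemma MSt.symm {u v : (ℤ × ℤ) × Bool} (h : MSt M Fr R u v) : MSt M Fr R v u := by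
  rcases h with ⟨w, hw, h1, h2, h3⟩ | ⟨h1, h2, h3⟩
  · exact Or.inl ⟨w, hw, h2, h1, h3.symm⟩
  · exact Or.inr ⟨h1.symm, h1 ▸ h2, h1 ▸ h3⟩

lemma MCn.symm {u v : (ℤ × ℤ) × Bool} (h : MCn M Fr R u v) : MCn M Fr R v u := by
  unfold MCn at *
  induction h with
  | refl => exact Relation.ReflTransGen.refl
  | tail _ h2 ih => exact Relation.ReflTransGen.head h2.symm ih

lemma MCn.trans {u v w : (ℤ × ℤ) × Bool} (h : MCn M Fr R u v) (h' : MCn M Fr R v w) :
    MCn M Fr R u w := Relation.ReflTransGen.trans h h'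

lemma MCn.refl (u : (ℤ × ℤ) × Bool) : MCn M Fr R u u := Relation.ReflTransGen.refl

lemma MCn.mono {u v : (ℤ × ℤ) × Bool} (h : MCn M Fr R u v) (hR : R ⊆ R') :
    MCn M Fr R' u v := by
  unfold MCn at *
  induction h with
  | refl => exact Relation.ReflTransGen.refl
  | tail _ h2 ih =>
    refine Relation.ReflTransGen.tail ih ?_
    rcases h2 with ⟨w, hw, h2⟩ | h2
    · exact Or.inl ⟨w, hR hw, h2⟩
    · exact Or.inr h2

lemma MCn.congr {u v : (ℤ × ℤ) × Bool} (h : MCn M Fr R u v) (hM : ∀ w ∈ R, (M w ↔ M' w)) :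
    MCn M' Fr R u v := by
  unfold MCn at *
  induction h with
  | refl => exact Relation.ReflTransGen.refl
  | tail _ h2 ih =>
    refine Relation.ReflTransGen.tail ih ?_
    rcases h2 with ⟨w, hw, h3, h4, h5⟩ | h2
    · exact Or.inl ⟨w, hw, h3, h4, h5.1, (hM w hw).symm.trans h5.2⟩
    · exact Or.inr h2

/-- change of the mark -/
lemma MCn.switch {f : ℤ × ℤ} {x y : Bool} (hx : OkM f x) (hy : OkM f y)
    (hf : f.1 + f.2 = 0 → Fr f.1) : MCn M Fr R (f, x) (f, y) := by
  rcases lt_trichotomy (f.1 + f.2) 0 with h | h | h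
  · rw [hx.2 h, hy.2 h]
    exact MCn.refl _
  · exact Relation.ReflTransGen.single (Or.inr ⟨rfl, h, hf h⟩)
  · rw [hx.1 h, hy.1 h]
    exact MCn.refl _

/-- the mark of an adjacent tile is admissible -/
lemma Opp.okM {f g v : ℤ × ℤ} (h : Opp f g v) (hf : (f.1 + f.2) % 2 = 0) : OkM f (mkT v) := by
  constructor
  · intro h1
    rw [mkT_true]
    unfold Opp at h
    omega
  · intro h1
    rw [mkT_false]
    unfold Opp at h
    omega

/-- **Ordinary connections that avoid the cut faces are marked connections.** -/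
theorem MCn.of_conn {f g : ℤ × ℤ} (h : Conn M R f g) (hev : (f.1 + f.2) % 2 = 0)
    (hR : ∀ v ∈ R, ∀ a b, Opp a b v → a.1 + a.2 = 0 → Fr a.1) {x y : Bool} (hx : OkM f x)
    (hy : OkM g y) (hf : f = g → f.1 + f.2 = 0 → Fr f.1) : MCn M Fr R (f, x) (g, y) := by
  rcases Relation.ReflTransGen.cases_head h with h0 | ⟨f', ⟨v, hv, hs⟩, h1⟩
  · subst h0
    exact MCn.switch hx hy (hf rfl)
  · -- the first step
    have hf0 : f.1 + f.2 = 0 → Fr f.1 := hR v hv f f' hs.1
    have hev' : (f'.1 + f'.2) % 2 = 0 := by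
      have := hs.1
      unfold Opp at this
      omega
    have h2 : MCn M Fr R (f, x) (f', mkT v) :=
      (MCn.switch hx (hs.1.okM hev) hf0).trans
        (Relation.ReflTransGen.single (Or.inl ⟨v, hv, rfl, rfl, hs⟩))
    have h3 : f'.1 + f'.2 = 0 → Fr f'.1 := hR v hv f' f hs.1.symm
    have key : ∀ g, Conn M R f' g → (g.1 + g.2) % 2 = 0 ∧ (g.1 + g.2 = 0 → Fr g.1) ∧
        ∀ y, OkM g y → MCn M Fr R (f', mkT v) (g, y) := by
      intro g hg
      unfold Conn at hg
      induction hg with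
      | refl => exact ⟨hev', h3, fun y hy => MCn.switch (hs.1.symm.okM hev') hy h3⟩
      | @tail p q _ hst ih =>
        obtain ⟨w, hw, hs'⟩ := hst
        have hq : q.1 + q.2 = 0 → Fr q.1 := hR w hw q p hs'.1.symm
        have hqe : (q.1 + q.2) % 2 = 0 := by
          have e1 := hs'.1
          have e2 := ih.1
          unfold Opp at e1
          omega
        refine ⟨hqe, hq, fun y hy => ?_⟩
        have e1 := ih.2.2 (mkT w) (hs'.1.okM ih.1)
        exact (e1.trans (Relation.ReflTransGen.single (Or.inl ⟨w, hw, rfl, rfl, hs'⟩))).trans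
          (MCn.switch (hs'.1.symm.okM hqe) hy hq)
    exact h2.trans ((key g h1).2.2 y hy)

end

/-! ### the walk along an end -/

section

variable {M : ℤ × ℤ → Prop} {D : Set (ℤ × ℤ)} {c : ℕ → ℤ × ℤ} {n : ℕ} {k : ℤ}

/-- a medial edge that crosses the line `X + Y = 0` is one of the squares `cS i` -/
lemma sq_cross {u w : ℤ × ℤ} (hu : IsTile u) (h : Diag u w) (hm : mkT u ≠ mkT w) :
    ∃ i : ℤ, sq u w = cS i ∧ (i = u.1 ∨ i = u.1 + 1) := by
  obtain ⟨r, hr⟩ := hu
  obtain ⟨u1, u2⟩ := u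
  obtain ⟨w1, w2⟩ := w
  unfold Diag at h
  simp only at h hr
  have hcase : (0 < u1 + u2 ∧ w1 + w2 ≤ 0) ∨ (u1 + u2 ≤ 0 ∧ 0 < w1 + w2) := by
    by_cases h1 : 0 < u1 + u2
    · left
      refine ⟨h1, ?_⟩
      by_contra h2
      apply hm
      rw [(mkT_true (v := (u1, u2))).2 h1, (mkT_true (v := (w1, w2))).2 (not_le.1 h2)]
    · right
      refine ⟨not_lt.1 h1, ?_⟩
      by_contra h2
      apply hm
      rw [(mkT_false (v := (u1, u2))).2 (not_lt.1 h1), (mkT_false (v := (w1, w2))).2 (not_lt.1 h2)]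
  rcases hcase with ⟨h1, h2⟩ | ⟨h1, h2⟩
  · refine ⟨u1, ?_, Or.inl rfl⟩
    unfold sq cS
    simp only
    rw [min_eq_right (by omega), min_eq_right (by omega)]
    ext <;> simp only <;> omega
  · refine ⟨u1 + 1, ?_, Or.inr rfl⟩
    unfold sq cS
    simp only
    rw [min_eq_left (by omega), min_eq_left (by omega)]
    ext <;> simp only <;> omega

/-- the side faces of a medial edge are adjacent to its tiles -/
lemma okM_fc {u w : ℤ × ℤ} (hu : IsTile u) (h : Diag u w) (κ : ℤ) :
    OkM (fc κ (sq u w)) (mkT u) ∧ OkM (fc κ (sq u w)) (mkT w) := by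
  obtain ⟨e1, e2, e3, e4⟩ := fc_spec κ (sq u w)
  obtain ⟨r, hr⟩ := hu
  obtain ⟨u1, u2⟩ := u
  obtain ⟨w1, w2⟩ := w
  unfold Diag at h
  unfold sq at *
  simp only at *
  generalize fc κ (min u1 w1, min u2 w2) = f at *
  refine ⟨⟨?_, ?_⟩, ⟨?_, ?_⟩⟩
  · intro h1
    rw [mkT_true]
    simp only
    omega
  · intro h1
    rw [mkT_false]
    simp only
    omega
  · intro h1
    rw [mkT_true]
    simp only
    omega
  · intro h1
    rw [mkT_false]
    simp only
    omega

/-- walk along the trajectory from the medial edge number `a`, if it does not pass a cut side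
after that -/
theorem Traj.walk (h : Traj M D c n) {Fr : ℤ → Prop} {A B : ℤ}
    (hD : ∀ v ∈ D, A ≤ v.1 ∧ v.1 ≤ B)
    (hFr : ∀ x, A - 1 ≤ x → x ≤ B + 1 → (x ≤ 0 ∨ k ≤ x) → Fr x) (κ : ℤ) {a : ℕ}
    (hcut : ∀ i, 1 ≤ i → i ≤ k → ∀ s < n, a < s → sq (c s) (c (s + 1)) ≠ cS i) :
    ∀ s, a ≤ s → s < n → MCn M Fr (inner c n) (fc κ (sq (c a) (c (a + 1))), mkT (c (a + 1)))
      (fc κ (sq (c s) (c (s + 1))), mkT (c (s + 1))) := by
  intro s has
  induction s, has using Nat.le_induction with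
  | base => intro _; exact MCn.refl _
  | succ s hs ih =>
    intro hsn
    have h1 := ih (by omega)
    have hw : c (s + 1) ∈ inner c n := ⟨s + 1, by omega, hsn, rfl⟩
    have hwD := hD _ (h.inner_sub hw)
    have h2 : MCn M Fr (inner c n) (fc κ (sq (c s) (c (s + 1))), mkT (c (s + 1)))
        (fc κ (sq (c (s + 1)) (c (s + 2))), mkT (c (s + 1))) := by
      rcases h.fc_next κ hsn with e | e
      · rw [e]
        exact MCn.refl _
      · exact Relation.ReflTransGen.single (Or.inl ⟨c (s + 1), hw, rfl, rfl, e⟩)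
    have ht := h.tiles (s + 1) (by omega)
    have hd := h.diags (s + 1) hsn
    have hok := okM_fc ht hd κ
    refine (h1.trans h2).trans ?_
    by_cases hm : mkT (c (s + 1)) = mkT (c (s + 1 + 1))
    · rw [hm]
      exact MCn.refl _
    · refine MCn.switch hok.1 hok.2 (fun _ => ?_)
      obtain ⟨i, hi, hi2⟩ := sq_cross ht hd hm
      have hi3 : i ≤ 0 ∨ k < i := by
        by_contra hcon
        exact hcut i (by omega) (by omega) (s + 1) hsn (by omega) hi
      rw [hi, fc_cS]
      split_ifs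
      · unfold cF
        simp only
        exact hFr i (by omega) (by omega) (by omega)
      · unfold cF
        simp only
        exact hFr (i - 1) (by omega) (by omega) (by omega)

end

section

variable {M : ℤ × ℤ → Prop} {D : Set (ℤ × ℤ)} {k : ℤ} {c : ℤ → ℕ → ℤ × ℤ} {n t : ℤ → ℕ}

/-- no cut side is passed except at the time `t j` -/
lemma Arms.no_cut (h : Arms M k D c n t) {i j : ℤ} (hi1 : 1 ≤ i) (hik : i ≤ k) (hj1 : 1 ≤ j)
    (hjk : j ≤ k) {s : ℕ} (hs : s < n j) (hst : s ≠ t j) : sq (c j s) (c j (s + 1)) ≠ cS i := by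
  intro e
  by_cases hij : i = j
  · subst hij
    apply hst
    refine (h.traj i hi1 hik).inj s hs (t i) (h.lt i hi1 hik) ?_
    rw [e, h.at0 i hi1 hik, h.at1 i hi1 hik, sq_cut]
  · exact h.cut i j hi1 hik hj1 hjk hij s hs e

lemma mkT_cU (j : ℤ) : mkT (cU j) = true := by
  rw [mkT_true]
  unfold cU
  simp only
  omega

lemma mkT_cD (j : ℤ) : mkT (cD j) = false := by
  rw [mkT_false]
  unfold cD
  simp only
  omega

/-- **Walk along an end**: the marked root face of the end `(j, b)` is joined, inside the visited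
tiles, to every boundary face of the end (with an admissible mark). -/
theorem Arms.root_walk (h : Arms M k D c n t) {Fr : ℤ → Prop} {A B : ℤ}
    (hD : ∀ v ∈ D, A ≤ v.1 ∧ v.1 ≤ B)
    (hFr : ∀ x, A - 1 ≤ x → x ≤ B + 1 → (x ≤ 0 ∨ k ≤ x) → Fr x) (κ : ℤ) {j : ℤ} (hj1 : 1 ≤ j)
    (hjk : j ≤ k) {b : Bool} {f : ℤ × ℤ} (hf : f ∈ BdE κ c n t j b) :
    ∃ y, OkM f y ∧ MCn M Fr (visited k c n) (fc κ (cS j), b) (f, y) := by
  have hsub : inner (c j) (n j) ⊆ visited k c n := fun x hx => ⟨j, hj1, hjk, hx⟩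
  have htr := h.traj j hj1 hjk
  have hlt := h.lt j hj1 hjk
  have e0 := h.at0 j hj1 hjk
  have e1 := h.at1 j hj1 hjk
  obtain ⟨s, hs, hb, rfl⟩ := hf
  cases b with
  | true =>
    rw [if_pos rfl] at hb
    have hw := htr.walk hD hFr κ (a := t j)
      (fun i h1 h2 s' hs' hlt' => h.no_cut h1 h2 hj1 hjk hs' (by omega)) s hb hs
    rw [e0, e1, sq_cut, mkT_cU] at hw
    exact ⟨_, (okM_fc (htr.tiles s hs.le) (htr.diags s hs) κ).2, hw.mono hsub⟩
  | false =>
    rw [if_neg (by simp)] at hb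
    have hr := htr.rev
    have hin : inner (fun q => c j (n j - q)) (n j) = inner (c j) (n j) := inner_rev
    have hsqr : ∀ q < n j, sq (c j (n j - q)) (c j (n j - (q + 1))) =
        sq (c j (n j - 1 - q)) (c j (n j - 1 - q + 1)) := by
      intro q hq
      rw [sq_comm, show n j - (q + 1) = n j - 1 - q by omega,
        show n j - q = n j - 1 - q + 1 by omega]
    have hw := hr.walk (k := k) hD hFr κ (a := n j - 1 - t j) (by
      intro i h1 h2 s' hs' hlt'
      show sq (c j (n j - s')) (c j (n j - (s' + 1))) ≠ cS i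
      rw [hsqr s' hs']
      exact h.no_cut h1 h2 hj1 hjk (by omega) (by omega)) (n j - 1 - s) (by omega) (by omega)
    rw [hin] at hw
    have q1 := hsqr (n j - 1 - t j) (by omega)
    have q2 := hsqr (n j - 1 - s) (by omega)
    rw [show n j - 1 - (n j - 1 - t j) = t j by omega, e0, e1, sq_cut] at q1
    rw [show n j - 1 - (n j - 1 - s) = s by omega] at q2
    have q3 : c j (n j - (n j - 1 - t j + 1)) = cD j := by
      rw [show n j - (n j - 1 - t j + 1) = t j by omega, e0]
    have q4 : c j (n j - (n j - 1 - s + 1)) = c j s := by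
      rw [show n j - (n j - 1 - s + 1) = s by omega]
    have hw' : MCn M Fr (inner (c j) (n j))
        (fc κ (sq (c j (n j - (n j - 1 - t j))) (c j (n j - (n j - 1 - t j + 1)))),
          mkT (c j (n j - (n j - 1 - t j + 1))))
        (fc κ (sq (c j (n j - (n j - 1 - s))) (c j (n j - (n j - 1 - s + 1)))),
          mkT (c j (n j - (n j - 1 - s + 1)))) := hw
    rw [q1, q2, q3, q4, mkT_cD] at hw'
    exact ⟨_, (okM_fc (htr.tiles s hs.le) (htr.diags s hs) κ).1, hw'.mono hsub⟩

/-- the root face with its mark is admissible -/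
lemma okM_root (κ j : ℤ) (b : Bool) : OkM (fc κ (cS j)) b := by
  have : (fc κ (cS j)).1 + (fc κ (cS j)).2 = 0 := by
    rw [fc_cS]
    split_ifs <;> unfold cF <;> simp only <;> omega
  constructor
  · intro h; omega
  · intro h; omega

/-- from the marked root to a face that is joined to the end outside the cut faces -/
theorem Arms.root_to (h : Arms M k D c n t) {Fr : ℤ → Prop} {A B : ℤ}
    (hD : ∀ v ∈ D, A ≤ v.1 ∧ v.1 ≤ B)
    (hFr : ∀ x, A - 1 ≤ x → x ≤ B + 1 → (x ≤ 0 ∨ k ≤ x) → Fr x) {κ j j' : ℤ} {b b' : Bool}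
    (hj1 : 1 ≤ j') (hjk : j' ≤ k) (hroot : fc κ (cS j') = fc κ (cS j))
    (hb : fc κ (cS j) ≠ cF 0 → fc κ (cS j) ≠ cF k → b' = b) {f a : ℤ × ℤ}
    (hf : f ∈ BdE κ c n t j' b') {R : Set (ℤ × ℤ)}
    (hR : ∀ v ∈ R, ∀ a b, Opp a b v → a.1 + a.2 = 0 → Fr a.1) (hw : Conn M R a f)
    (hev : (a.1 + a.2) % 2 = 0) {x : Bool} (hx : OkM a x) (hfa : f = a → f.1 + f.2 = 0 → Fr f.1) (h0 : A ≤ 1) (hk : k ≤ B + 1) :
    MCn M Fr (visited k c n ∪ R) (fc κ (cS j), b) (a, x) := by
  obtain ⟨y, hy, h1⟩ := h.root_walk hD hFr κ hj1 hjk hf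
  have h2 : MCn M Fr R (f, y) (a, x) :=
    (MCn.of_conn hw hev hR hx hy (fun e h' => by
      rw [e] at h' ⊢
      exact hfa e.symm h')).symm
  have h3 : MCn M Fr (visited k c n ∪ R) (fc κ (cS j), b) (fc κ (cS j'), b') := by
    rw [hroot]
    by_cases hbb : b' = b
    · rw [hbb]
      exact MCn.refl _
    · refine MCn.switch (okM_root κ j b) (okM_root κ j b') (fun _ => ?_)
      have h4 : fc κ (cS j) = cF 0 ∨ fc κ (cS j) = cF k := by
        by_contra hcon
        push Not at hcon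
        exact hbb (hb hcon.1 hcon.2)
      rcases h4 with h4 | h4
      · rw [h4]
        exact hFr 0 (by omega) (by omega) (by omega)
      · rw [h4]
        exact hFr k (by omega) (by omega) (by omega)
  exact h3.trans ((h1.mono Set.subset_union_left).trans (h2.mono Set.subset_union_right))

end

end TA
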