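import Pool.Agent.Helper47.Expl.HalfDual

/-!
Planar tools: the fine lattice, the half-plane crossing lemma.
-/

set_option autoImplicit false

namespace H47Perc.Arms
open Finset SimpleGraph H47Perc

/-! ### crossing in a half-plane -/

/-- two walks above the row `y0` with interlacing endpoints on this row share a vertex -/
theorem half_cross {a b c d y0 : ℤ} (h1 : a < c) (h2 : c < b) (h3 : b < d)
    (p : lattice.Walk (a, y0) (b, y0)) (hp : ∀ w ∈ p.support, y0 ≤ w.2)
    (q : lattice.Walk (c, y0) (d, y0)) (hq : ∀ w ∈ q.support, y0 ≤ w.2) :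
    ∃ w, w ∈ p.support ∧ w ∈ q.support := by
  obtain ⟨L1, hL1⟩ := walk_bound p
  obtain ⟨L2, hL2⟩ := walk_bound q
  obtain ⟨L, hL⟩ : ∃ L, L = max (max L1 L2) (y0 + 1) := ⟨_, rfl⟩
  have pa := hL1 _ p.start_mem_support
  have pb := hL1 _ p.end_mem_support
  have qa := hL2 _ q.start_mem_support
  have qb := hL2 _ q.end_mem_support
  simp only at pa pb qa qb
  obtain ⟨P1, hP1⟩ := exists_vline (-L) (y0 - 1) L (by omega)
  obtain ⟨P2, hP2⟩ := exists_hline (-L) a (y0 - 1) (by omega)
  obtain ⟨P2', hP2'⟩ := exists_vline a (y0 - 1) y0 (by omega)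
  obtain ⟨P3, hP3⟩ := exists_vline b (y0 - 3) y0 (by omega)
  obtain ⟨Q1, hQ1⟩ := exists_hline (-L - 1) c (y0 - 2) (by omega)
  obtain ⟨Q2, hQ2⟩ := exists_vline c (y0 - 2) y0 (by omega)
  obtain ⟨Q3, hQ3⟩ := exists_vline d (y0 - 2) y0 (by omega)
  obtain ⟨Q4, hQ4⟩ := exists_hline d L (y0 - 2) (by omega)
  set P := (((P1.reverse.append P2).append P2').append p).append P3.reverse with hP
  set Q := (((Q1.append Q2).append q).append Q3.reverse).append Q4 with hQ
  have memP : ∀ w ∈ P.support, w ∈ P1.support ∨ w ∈ P2.support ∨ w ∈ P2'.support ∨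
      w ∈ p.support ∨ w ∈ P3.support := by
    intro w hw
    rw [hP] at hw
    simp only [Walk.mem_support_append_iff, Walk.support_reverse, List.mem_reverse] at hw
    tauto
  have memQ : ∀ w ∈ Q.support, w ∈ Q1.support ∨ w ∈ Q2.support ∨ w ∈ q.support ∨
      w ∈ Q3.support ∨ w ∈ Q4.support := by
    intro w hw
    rw [hQ] at hw
    simp only [Walk.mem_support_append_iff, Walk.support_reverse, List.mem_reverse] at hw
    tauto
  have bP : ∀ w ∈ P.support, -L ≤ w.1 ∧ w.1 ≤ L := by
    intro w hw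
    rcases memP w hw with h | h | h | h | h
    · have := hP1 w h; omega
    · have := hP2 w h; omega
    · have := hP2' w h; omega
    · have := hL1 w h; omega
    · have := hP3 w h; omega
  obtain ⟨w, hwP, hwQ⟩ := crossing_walks P Q (by simp only; omega)
    (fun w hw => by
      rcases memQ w hw with h | h | h | h | h
      · have := hQ1 w h; simp only; omega
      · have := hQ2 w h; simp only; omega
      · have := hL2 w h; have := hq w h; simp only; omega
      · have := hQ3 w h; simp only; omega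
      · have := hQ4 w h; simp only; omega)
    (fun w hw => by have := bP w hw; simp only; omega)
    (fun w hw => by have := bP w hw; simp only; omega)
  have hsp := p.start_mem_support
  have hep := p.end_mem_support
  have hsq := q.start_mem_support
  have heq := q.end_mem_support
  obtain ⟨w1, w2⟩ := w
  rcases memP _ hwP with h | h | h | h | h
  · exfalso
    have k := hP1 _ h
    simp only at k
    rcases memQ _ hwQ with h' | h' | h' | h' | h'
    · have := hQ1 _ h'; simp only at this; omega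
    · have := hQ2 _ h'; simp only at this; omega
    · have := hL2 _ h'; simp only at this; omega
    · have := hQ3 _ h'; simp only at this; omega
    · have := hQ4 _ h'; simp only at this; omega
  · exfalso
    have k := hP2 _ h
    simp only at k
    rcases memQ _ hwQ with h' | h' | h' | h' | h'
    · have := hQ1 _ h'; simp only at this; omega
    · have := hQ2 _ h'; simp only at this; omega
    · have := hq _ h'; simp only at this; omega
    · have := hQ3 _ h'; simp only at this; omega
    · have := hQ4 _ h'; simp only at this; omega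
  · have k := hP2' _ h
    simp only at k
    rcases memQ _ hwQ with h' | h' | h' | h' | h'
    · have := hQ1 _ h'; simp only at this; omega
    · have := hQ2 _ h'; simp only at this; omega
    · have k2 := hq _ h'
      simp only at k2
      refine ⟨(w1, w2), ?_, h'⟩
      rw [show w1 = a by omega, show w2 = y0 by omega]
      exact hsp
    · have := hQ3 _ h'; simp only at this; omega
    · have := hQ4 _ h'; simp only at this; omega
  · have k := hp _ h
    simp only at k
    rcases memQ _ hwQ with h' | h' | h' | h' | h'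
    · have := hQ1 _ h'; simp only at this; omega
    · have k2 := hQ2 _ h'
      simp only at k2
      refine ⟨(w1, w2), h, ?_⟩
      rw [show w1 = c by omega, show w2 = y0 by omega]
      exact hsq
    · exact ⟨_, h, h'⟩
    · have k2 := hQ3 _ h'
      simp only at k2
      refine ⟨(w1, w2), h, ?_⟩
      rw [show w1 = d by omega, show w2 = y0 by omega]
      exact heq
    · have := hQ4 _ h'; simp only at this; omega
  · have k := hP3 _ h
    simp only at k
    rcases memQ _ hwQ with h' | h' | h' | h' | h'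
    · have := hQ1 _ h'; simp only at this; omega
    · have := hQ2 _ h'; simp only at this; omega
    · have k2 := hq _ h'
      simp only at k2
      refine ⟨(w1, w2), ?_, h'⟩
      rw [show w1 = b by omega, show w2 = y0 by omega]
      exact hep
    · have := hQ3 _ h'; simp only at this; omega
    · have := hQ4 _ h'; simp only at this; omega

/-! ### the fine lattice -/

/-- vertices (`t = (0,0)`) and faces (`t = (1,1)`) as points of the fine lattice -/
def dbl (t z : ℤ × ℤ) : ℤ × ℤ := (2 * z.1 + t.1, 2 * z.2 + t.2)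

/-- midpoints of edges (`t = (0,0)`) and dual edges (`t = (1,1)`) as points of the fine lattice -/
def mid (t z z' : ℤ × ℤ) : ℤ × ℤ := (z.1 + z'.1 + t.1, z.2 + z'.2 + t.2)

lemma mid_comm (t z z' : ℤ × ℤ) : mid t z z' = mid t z' z := by
  unfold mid; rw [add_comm z.1, add_comm z.2]

lemma adj_dbl_mid (t : ℤ × ℤ) {u v : ℤ × ℤ} (h : lattice.Adj u v) :
    lattice.Adj (dbl t u) (mid t u v) := by
  unfold dbl mid
  rcases h with ⟨h1, h2⟩ | ⟨h1, h2⟩
  · left
    simp only
    refine ⟨by omega, ?_⟩
    rw [show 2 * u.2 + t.2 - (u.2 + v.2 + t.2) = u.2 - v.2 by ring]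
    exact h2
  · right
    simp only
    refine ⟨by omega, ?_⟩
    rw [show 2 * u.1 + t.1 - (u.1 + v.1 + t.1) = u.1 - v.1 by ring]
    exact h2

/-- the support of the fine walk -/
def FineSup (t : ℤ × ℤ) {u v : ℤ × ℤ} (p : lattice.Walk u v) (w : ℤ × ℤ) : Prop :=
  (∃ z ∈ p.support, w = dbl t z) ∨ ∃ z z' : ℤ × ℤ, s(z, z') ∈ p.edges ∧ w = mid t z z'

theorem fine (t : ℤ × ℤ) {u v : ℤ × ℤ} (p : lattice.Walk u v) :
    ∃ P : lattice.Walk (dbl t u) (dbl t v), ∀ w ∈ P.support, FineSup t p w := by
  induction p with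
  | nil =>
    refine ⟨Walk.nil, fun w hw => ?_⟩
    rw [Walk.support_nil, List.mem_singleton] at hw
    left
    exact ⟨_, by simp, hw⟩
  | @cons a b c h p ih =>
    obtain ⟨P, hP⟩ := ih
    refine ⟨Walk.cons (adj_dbl_mid t h) (Walk.cons ?_ P), fun w hw => ?_⟩
    · rw [mid_comm]
      exact (adj_dbl_mid t h.symm).symm
    · rw [Walk.support_cons, List.mem_cons, Walk.support_cons, List.mem_cons] at hw
      rcases hw with rfl | rfl | hw
      · left; exact ⟨a, by simp, rfl⟩
      · right; exact ⟨a, b, by simp, rfl⟩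
      · rcases hP w hw with ⟨z, hz, rfl⟩ | ⟨z, z', hz, rfl⟩
        · left; exact ⟨z, by simp [hz], rfl⟩
        · right; exact ⟨z, z', by simp [hz], rfl⟩

/-- coordinates of an edge of the lattice -/
lemma edge_cases {z z' : ℤ × ℤ} (h : lattice.Adj z z') :
    (z.1 = z'.1 ∧ (z.2 = z'.2 + 1 ∨ z'.2 = z.2 + 1)) ∨
      (z.2 = z'.2 ∧ (z.1 = z'.1 + 1 ∨ z'.1 = z.1 + 1)) := by
  rcases h with ⟨h1, h2⟩ | ⟨h1, h2⟩
  · left
    rcases (abs_eq (by norm_num)).1 h2 with h | h
    · exact ⟨h1, Or.inl (by omega)⟩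
    · exact ⟨h1, Or.inr (by omega)⟩
  · right
    rcases (abs_eq (by norm_num)).1 h2 with h | h
    · exact ⟨h1, Or.inl (by omega)⟩
    · exact ⟨h1, Or.inr (by omega)⟩

/-- the two faces of an edge: the dual edge -/
lemma crossEdge_mid {f g : ℤ × ℤ} (h : lattice.Adj f g) {z z' : ℤ × ℤ}
    (hz : crossEdge f g = s(z, z')) : mid (1, 1) f g = mid (0, 0) z z' := by
  unfold mid
  rcases cross_cases h with ⟨h1, h2, h3⟩ | ⟨h1, h2, h3⟩
  · rw [h3, Sym2.eq_iff] at hz
    rcases hz with ⟨rfl, rfl⟩ | ⟨rfl, rfl⟩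
    · simp only; ext <;> simp only <;> omega
    · simp only; ext <;> simp only <;> omega
  · rw [h3, Sym2.eq_iff] at hz
    rcases hz with ⟨rfl, rfl⟩ | ⟨rfl, rfl⟩
    · simp only; ext <;> simp only <;> omega
    · simp only; ext <;> simp only <;> omega

/-- a midpoint determines the edge -/
lemma mid_inj {t : ℤ × ℤ} {z z' w w' : ℤ × ℤ} (h1 : lattice.Adj z z') (h2 : lattice.Adj w w')
    (h : mid t z z' = mid t w w') : s(z, z') = s(w, w') := by
  unfold mid at h
  rw [Prod.mk.injEq] at h
  obtain ⟨z1, z2⟩ := z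
  obtain ⟨z1', z2'⟩ := z'
  obtain ⟨w1, w2⟩ := w
  obtain ⟨w1', w2'⟩ := w'
  have e1 := edge_cases h1
  have e2 := edge_cases h2
  simp only at h e1 e2
  rw [Sym2.eq_iff, Prod.mk.injEq, Prod.mk.injEq, Prod.mk.injEq, Prod.mk.injEq]
  omega

/-- a dual edge through the midpoint of an edge crosses this edge -/
lemma mid_cross {f g z z' : ℤ × ℤ} (h1 : lattice.Adj f g) (h2 : lattice.Adj z z')
    (h : mid (1, 1) f g = mid (0, 0) z z') : crossEdge f g = s(z, z') := by
  rcases cross_cases h1 with ⟨c1, c2, c3⟩ | ⟨c1, c2, c3⟩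
  · have e := crossEdge_mid h1 c3
    rw [c3]
    refine mid_inj (t := (0, 0)) ?_ h2 (e.symm.trans h)
    left; simp
  · have e := crossEdge_mid h1 c3
    rw [c3]
    refine mid_inj (t := (0, 0)) ?_ h2 (e.symm.trans h)
    right; simp

/-- intersection of a primal and a dual walk in the fine lattice -/
lemma fine_primal_dual {u v f g : ℤ × ℤ} {p : lattice.Walk u v} {q : lattice.Walk f g}
    {w : ℤ × ℤ} (h1 : FineSup (0, 0) p w) (h2 : FineSup (1, 1) q w) :
    ∃ a b : ℤ × ℤ, s(a, b) ∈ q.edges ∧ crossEdge a b ∈ p.edges := by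
  have adjp : ∀ {z z' : ℤ × ℤ}, s(z, z') ∈ p.edges → lattice.Adj z z' := fun h =>
    p.adj_of_mem_edges h
  have adjq : ∀ {z z' : ℤ × ℤ}, s(z, z') ∈ q.edges → lattice.Adj z z' := fun h =>
    q.adj_of_mem_edges h
  rcases h1 with ⟨z, _, rfl⟩ | ⟨z, z', hz, rfl⟩
  · exfalso
    rcases h2 with ⟨a, _, ha⟩ | ⟨a, b, hab, ha⟩
    · unfold dbl at ha; rw [Prod.mk.injEq] at ha; simp only at ha; omega
    · have := edge_cases (adjq hab)
      unfold dbl mid at ha; rw [Prod.mk.injEq] at ha; simp only at ha; omega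
  · rcases h2 with ⟨a, _, ha⟩ | ⟨a, b, hab, ha⟩
    · exfalso
      have := edge_cases (adjp hz)
      unfold dbl mid at ha; rw [Prod.mk.injEq] at ha; simp only at ha; omega
    · refine ⟨a, b, hab, ?_⟩
      rw [mid_cross (adjq hab) (adjp hz) ha.symm]
      exact hz

/-- intersection of two walks of the same kind in the fine lattice -/
lemma fine_same {t : ℤ × ℤ} {u v f g : ℤ × ℤ} {p : lattice.Walk u v} {q : lattice.Walk f g}
    {w : ℤ × ℤ} (h1 : FineSup t p w) (h2 : FineSup t q w) :
    ∃ z, z ∈ p.support ∧ z ∈ q.support := by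
  have adjp : ∀ {z z' : ℤ × ℤ}, s(z, z') ∈ p.edges → lattice.Adj z z' := fun h =>
    p.adj_of_mem_edges h
  have adjq : ∀ {z z' : ℤ × ℤ}, s(z, z') ∈ q.edges → lattice.Adj z z' := fun h =>
    q.adj_of_mem_edges h
  rcases h1 with ⟨z, hz, rfl⟩ | ⟨z, z', hz, rfl⟩
  · rcases h2 with ⟨a, ha1, ha⟩ | ⟨a, b, hab, ha⟩
    · refine ⟨z, hz, ?_⟩
      have : z = a := by
        unfold dbl at ha; rw [Prod.mk.injEq] at ha; ext <;> omega
      rwa [this]
    · exfalso
      have := edge_cases (adjq hab)
      unfold dbl mid at ha; rw [Prod.mk.injEq] at ha; omega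
  · rcases h2 with ⟨a, _, ha⟩ | ⟨a, b, hab, ha⟩
    · exfalso
      have := edge_cases (adjp hz)
      unfold dbl mid at ha; rw [Prod.mk.injEq] at ha; omega
    · have := mid_inj (adjp hz) (adjq hab) ha
      rw [← this] at hab
      exact ⟨z, p.fst_mem_support_of_mem_edges hz, q.fst_mem_support_of_mem_edges hab⟩

end H47Perc.Arms
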